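import Mathlib

/-!
# Definitions for MP_2777d9_an

Projective space, smooth differential forms and currents on `ℙᵏ`, polynomial automorphisms of
`ℂᵏ`, Henon-type automorphisms, the set `K(f)` and the dynamical Green current.
-/

set_option autoImplicit false

open scoped ContDiff LinearAlgebra.Projectivization ComplexConjugate

namespace Pool.Agent.Helper33.Henon

/-! ## Projective space -/

/-- `ℂ^{k+1}`, with coordinates `(Z_0, …, Z_k)`. -/
abbrev V (k : ℕ) : Type := Fin (k + 1) → ℂ

/-- The complex projective space `ℙᵏ`, the set of complex lines through `0` in `ℂ^{k+1}`. -/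
abbrev PS (k : ℕ) : Type := ℙ ℂ (V k)

/-- The classical topology of `ℙᵏ`: the quotient topology from `ℂ^{k+1} ∖ {0}`. -/
instance instTopPS (k : ℕ) : TopologicalSpace (PS k) :=
  inferInstanceAs (TopologicalSpace (Quotient (projectivizationSetoid ℂ (V k))))

/-- The vector `(1, x_1, …, x_k)`. -/
def lift1 {k : ℕ} (x : Fin k → ℂ) : V k := Fin.cons 1 x

lemma lift1_ne_zero {k : ℕ} (x : Fin k → ℂ) : lift1 x ≠ 0 := fun h => by
  have := congrFun h 0
  simp [lift1] at this

/-- The embedding `ℂᵏ → ℙᵏ`, `x ↦ [1 : x_1 : … : x_k]`. The complement of its image is the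
hyperplane at infinity `{Z_0 = 0}`. -/
noncomputable def emb {k : ℕ} (x : Fin k → ℂ) : PS k := Projectivization.mk ℂ (lift1 x) (lift1_ne_zero x)

/-- A set `A ⊆ ℙᵏ` (meant to be algebraic) has dimension `d`: `A` meets every linear subspace of
`ℙᵏ` of codimension `d`, and misses some linear subspace of codimension `d + 1`. (A linear subspace
`W` of `ℂ^{k+1}` gives the linear subspace `ℙ(W)` of `ℙᵏ`, whose codimension is
`k + 1 - dim W`.) -/
def HasDim {k : ℕ} (A : Set (PS k)) (d : ℕ) : Prop :=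
  (∀ W : Submodule ℂ (V k), Module.finrank ℂ W + d = k + 1 → ∃ q ∈ A, q.rep ∈ W) ∧
  ∃ W : Submodule ℂ (V k), Module.finrank ℂ W + (d + 1) = k + 1 ∧ ∀ q ∈ A, q.rep ∉ W

/-! ## Smooth forms on `ℙᵏ` -/

/-- Complex valued differential `r`-forms on `ℂ^{k+1}` (regarded as a real vector space): a form
assigns to each point an alternating real multilinear function of `r` vectors. -/
abbrev Form (k r : ℕ) : Type := V k → (V k) [⋀^Fin r]→L[ℝ] ℂ

/-- The form `α` is (the pull-back of) a smooth complex valued `r`-form on `ℙᵏ`. A smooth form on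
`ℙᵏ` is identified with its pull-back `α` to `ℂ^{k+1} ∖ {0}`. The pull-backs are exactly the smooth
forms on `ℂ^{k+1} ∖ {0}` that are invariant under all homotheties `z ↦ c z` and that vanish as soon
as one of the vectors is tangent to the fibre, i.e. a complex multiple of `z`. (The irrelevant value
at `0` is normalised to be `0`.) -/
def IsSmoothForm {k r : ℕ} (α : Form k r) : Prop :=
  α 0 = 0 ∧ ContDiffOn ℝ ∞ α {0}ᶜ ∧
    (∀ c : ℂ, c ≠ 0 → ∀ z : V k, z ≠ 0 → ∀ v : Fin r → V k,
      α (c • z) (fun i => c • v i) = α z v) ∧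
    (∀ z : V k, z ≠ 0 → ∀ v : Fin r → V k, (∃ i, ∃ c : ℂ, v i = c • z) → α z v = 0)

/-- The smooth complex valued `r`-forms on `ℙᵏ`. -/
structure SForm (k r : ℕ) where
  /-- the pull-back to `ℂ^{k+1} ∖ {0}` -/
  form : Form k r
  smooth : IsSmoothForm form

/-- The form `α` is of type `(a, b)`: `α_z(c v_1, …, c v_r) = c^a c̄^b α_z(v_1, …, v_r)` for all
`c ∈ ℂ`. -/
def IsOfType {k r : ℕ} (a b : ℕ) (α : Form k r) : Prop :=
  ∀ z : V k, z ≠ 0 → ∀ c : ℂ, ∀ v : Fin r → V k,
    α z (fun i => c • v i) = c ^ a * (conj c) ^ b * α z v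

/-- The (closed) support in `ℙᵏ` of a form on `ℙᵏ`. -/
def formSupport {k r : ℕ} (α : Form k r) : Set (PS k) := closure {q | α q.rep ≠ 0}

/-- The value `β₁ ∧ … ∧ β_r (v_1, …, v_r) = ∑_σ sgn(σ) ∏_i β_i(v_{σ(i)})` of a wedge product of
`r` complex valued real-linear functionals. -/
noncomputable def wedgeVal {k r : ℕ} (β : Fin r → (V k → ℂ)) (v : Fin r → V k) : ℂ :=
  ∑ σ : Equiv.Perm (Fin r), ((Equiv.Perm.sign σ : ℤ) : ℂ) * ∏ i, β i (v (σ i))

/-- Value of the elementary strongly positive `(m, m)`-form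
`(i b_1 ∧ b̄_1) ∧ … ∧ (i b_m ∧ b̄_m)` at `(v_1, …, v_{2m})`, for complex linear functionals `b_j`. -/
noncomputable def elemPosVal {k m : ℕ} (b : Fin m → (V k →ₗ[ℂ] ℂ)) (v : Fin (2 * m) → V k) : ℂ :=
  Complex.I ^ m * wedgeVal (fun j : Fin (2 * m) =>
    if (j : ℕ) % 2 = 0 then fun u => b ⟨(j : ℕ) / 2, by omega⟩ u
    else fun u => conj (b ⟨(j : ℕ) / 2, by omega⟩ u)) v

/-- A form of degree `2m` is strongly positive if at each point it is a sum of elementary strongly
positive forms (nonnegative coefficients can be absorbed in the functionals). -/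
def IsStronglyPositive {k m : ℕ} (α : Form k (2 * m)) : Prop :=
  ∀ z : V k, z ≠ 0 → ∃ (N : ℕ) (b : Fin N → Fin m → (V k →ₗ[ℂ] ℂ)),
    ∀ v : Fin (2 * m) → V k, α z v = ∑ s, elemPosVal (b s) v

/-- The Hermitian product `⟨u, v⟩ = ∑ ū_j v_j` on `ℂ^{k+1}`. -/
noncomputable def herm {k : ℕ} (u v : V k) : ℂ := ∑ j, conj (u j) * v j

/-- The Fubini-Study form `ω = (i/2π) ∂∂̄ log |z|²`, normalised by `∫_{ℙ¹} ω = 1`, evaluated at the
vectors `u, v`:
`ω_z(u, v) = (1/π) Im((⟨u,v⟩|z|² - ⟨u,z⟩⟨z,v⟩) / |z|⁴)`. -/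
noncomputable def fs {k : ℕ} (z u v : V k) : ℝ :=
  ((herm u v * herm z z - herm u z * herm z v) / (herm z z) ^ 2).im / Real.pi

/-- The form `α` is `ω^m`:
`α_z(v_1, …, v_{2m}) = 2^{-m} ∑_σ sgn(σ) ∏_i ω_z(v_{σ(2i)}, v_{σ(2i+1)})`. -/
def IsFSPower {k m : ℕ} (α : Form k (2 * m)) : Prop :=
  ∀ z : V k, z ≠ 0 → ∀ v : Fin (2 * m) → V k,
    α z v = (1 / 2 ^ m) * ∑ σ : Equiv.Perm (Fin (2 * m)), ((Equiv.Perm.sign σ : ℤ) : ℂ) *
      ∏ i : Fin m, (fs z (v (σ ⟨2 * (i : ℕ), by omega⟩)) (v (σ ⟨2 * (i : ℕ) + 1, by omega⟩)) : ℂ)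

/-! ## Currents on `ℙᵏ` -/

/-- A complex linear functional on the space of smooth `r`-forms on `ℙᵏ`. (The currents of
dimension `r` are the continuous ones. Continuity need not be imposed below: a positive functional
has order zero.) -/
structure Cur (k r : ℕ) where
  /-- the value of the functional -/
  ev : SForm k r → ℂ
  ev_add : ∀ α β γ : SForm k r, (∀ z v, γ.form z v = α.form z v + β.form z v) →
    ev γ = ev α + ev β
  ev_smul : ∀ (c : ℂ) (α β : SForm k r), (∀ z v, β.form z v = c * α.form z v) →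
    ev β = c * ev α

/-- `T` vanishes on the open set `U`: it is zero on all smooth forms with support in `U`. -/
def VanishesOn {k r : ℕ} (T : Cur k r) (U : Set (PS k)) : Prop :=
  ∀ α : SForm k r, formSupport α.form ⊆ U → T.ev α = 0

/-- The support of `T`: the points without open neighbourhood on which `T` vanishes. -/
def curSupport {k r : ℕ} (T : Cur k r) : Set (PS k) :=
  {q | ∀ U : Set (PS k), IsOpen U → q ∈ U → ¬ VanishesOn T U}

/-- `T` is a positive closed current of bidimension `(m, m)` on `ℙᵏ` (that is, of bidegree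
`(k - m, k - m)`), `m ≥ 1`; here `r + 1 = 2 m` is its real dimension. It is a linear functional on
the smooth forms of degree `2m` which is zero on forms of type `(a, b)` with `a ≠ b`, is
nonnegative on strongly positive forms, and is zero on exact forms. -/
structure IsPosClosed {k m : ℕ} (T : Cur k (2 * m)) : Prop where
  bidim : ∀ a b : ℕ, a + b = 2 * m → a ≠ b → ∀ α : SForm k (2 * m),
    IsOfType a b α.form → T.ev α = 0
  pos : ∀ α : SForm k (2 * m), IsStronglyPositive α.form →
    0 ≤ (T.ev α).re ∧ (T.ev α).im = 0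
  closed : ∀ r : ℕ, ∀ h : r + 1 = 2 * m, ∀ γ : SForm k r, ∀ α : SForm k (2 * m),
    (∀ z : V k, z ≠ 0 → ∀ v : Fin (r + 1) → V k,
      α.form z (fun i => v (Fin.cast h.symm i)) = extDeriv γ.form z v) →
    T.ev α = 0

/-- The mass of a positive closed current of bidimension `(m, m)` is `⟨T, ω^m⟩`. -/
def HasMass {k m : ℕ} (T : Cur k (2 * m)) (c : ℝ) : Prop :=
  ∃ α : SForm k (2 * m), IsFSPower α.form ∧ T.ev α = c

/-! ## Polynomial automorphisms of `ℂᵏ` -/

/-- A polynomial map `ℂᵏ → ℂᵏ`, given by its `k` components. -/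
abbrev PolyMap (k : ℕ) : Type := Fin k → MvPolynomial (Fin k) ℂ

/-- Evaluation of a polynomial map. -/
noncomputable def PolyMap.app {k : ℕ} (F : PolyMap k) (x : Fin k → ℂ) : Fin k → ℂ :=
  fun i => MvPolynomial.eval x (F i)

/-- The (algebraic) degree of a polynomial map: the maximal degree of its components. -/
noncomputable def PolyMap.deg {k : ℕ} (F : PolyMap k) : ℕ :=
  Finset.univ.sup fun i => (F i).totalDegree

/-- The homogenisation of the polynomial map `F` of degree `d`: the map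
`Z ↦ (Z_0^d, Z_0^d F(Z_1/Z_0, …, Z_k/Z_0))` of `ℂ^{k+1}`, homogeneous of degree `d`. It induces
the extension `ℙᵏ ⇢ ℙᵏ` of `F`. -/
noncomputable def PolyMap.homog {k : ℕ} (F : PolyMap k) (Z : V k) : V k :=
  Fin.cons (Z 0 ^ F.deg) fun i => ∑ j ∈ Finset.range (F.deg + 1),
    Z 0 ^ (F.deg - j) * MvPolynomial.eval (Fin.tail Z) (MvPolynomial.homogeneousComponent j (F i))

/-- The indeterminacy set in `ℙᵏ` of (the extension to `ℙᵏ` of) the polynomial map `F`: the common
zeros of the components of the homogenisation (these components have no common factor, since one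
of them is a power of `Z_0` and another one is not divisible by `Z_0`). -/
def PolyMap.indet {k : ℕ} (F : PolyMap k) : Set (PS k) := {q | F.homog q.rep = 0}

/-- A polynomial automorphism of `ℂᵏ`: a polynomial map with polynomial inverse. -/
structure PolyAut (k : ℕ) where
  /-- the automorphism -/
  fwd : PolyMap k
  /-- its inverse -/
  bwd : PolyMap k
  left_inv : ∀ x, bwd.app (fwd.app x) = x
  right_inv : ∀ x, fwd.app (bwd.app x) = x

/-- `f` is a Henon-type automorphism of `ℂᵏ` with integer `p`: it is not an automorphism of `ℙᵏ`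
(i.e. no linear automorphism `L` of `ℂ^{k+1}` induces `f` on `ℂᵏ`), `I(f) ∩ I(f⁻¹) = ∅`,
`dim I(f) = k - p - 1` and `dim I(f⁻¹) = p - 1`. -/
structure PolyAut.IsHenonType {k : ℕ} (f : PolyAut k) (p : ℕ) : Prop where
  not_proj : ¬ ∃ L : V k ≃ₗ[ℂ] V k, ∀ x : Fin k → ℂ, ∃ c : ℂ, c ≠ 0 ∧
    L (lift1 x) = c • lift1 (f.fwd.app x)
  disj : Disjoint f.fwd.indet f.bwd.indet
  dim_fwd : HasDim f.fwd.indet (k - p - 1)
  dim_bwd : HasDim f.bwd.indet (p - 1)

/-- `K(f)`: the points of `ℂᵏ` with bounded forward orbit. -/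
def PolyAut.K {k : ℕ} (f : PolyAut k) : Set (Fin k → ℂ) :=
  {x | Bornology.IsBounded (Set.range fun n : ℕ => f.fwd.app^[n] x)}

/-- `T` is the dynamical Green current of `f` (a Henon-type automorphism with integer `p`): it is
a positive closed current of bidegree `(p, p)`, i.e. of bidimension `(k - p, k - p)`, of mass `1`
and with support in the closure of `K(f)` in `ℙᵏ`. (By Dinh and Sibony there is exactly one.) -/
structure IsGreenCurrent {k : ℕ} (f : PolyAut k) (p : ℕ) (T : Cur k (2 * (k - p))) : Prop where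
  posClosed : IsPosClosed T
  mass : HasMass T 1
  supp : curSupport T ⊆ closure (emb '' f.K)

end Pool.Agent.Helper33.Henon
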