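import Mathlib

set_option autoImplicit false

open scoped Topology
open Set Filter

namespace Pool.Agent.Helper33.Henon

/-- The inverse Henon map. -/
noncomputable def gm (z : ℂ × ℂ) : ℂ × ℂ := (2 * z.2 + z.1 ^ 2, 2 * z.1)

/-- The Henon map. -/
noncomputable def hm (z : ℂ × ℂ) : ℂ × ℂ := (z.2 / 2, z.1 / 2 - z.2 ^ 2 / 8)

/-- The linear part of the Henon map at the fixed point. -/
noncomputable def La (z : ℂ × ℂ) : ℂ × ℂ := (z.2 / 2, z.1 / 2)

lemma hm_gm (z : ℂ × ℂ) : hm (gm z) = z := by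
  ext <;> simp [hm, gm] <;> ring

lemma gm_hm (z : ℂ × ℂ) : gm (hm z) = z := by
  ext <;> simp [hm, gm] <;> ring

lemma norm_le_iff' {z : ℂ × ℂ} {t : ℝ} : ‖z‖ ≤ t ↔ ‖z.1‖ ≤ t ∧ ‖z.2‖ ≤ t := by
  rw [Prod.norm_def, max_le_iff]

lemma norm_La (z : ℂ × ℂ) : ‖La z‖ = ‖z‖ / 2 := by
  rw [Prod.norm_def, Prod.norm_def]
  simp only [La, norm_div, RCLike.norm_ofNat]
  rw [max_comm, max_div_div_right (by norm_num : (0:ℝ) ≤ 2)]

lemma norm_La_iter (n : ℕ) (z : ℂ × ℂ) : ‖La^[n] z‖ = ‖z‖ / 2 ^ n := by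
  induction n with
  | zero => simp
  | succ n ih => rw [Function.iterate_succ_apply', norm_La, ih, pow_succ]; ring

lemma norm_gm (z : ℂ × ℂ) : 1 + ‖gm z‖ ≤ (1 + ‖z‖) ^ 2 := by
  have h1 : ‖z.1‖ ≤ ‖z‖ := norm_fst_le z
  have h2 : ‖z.2‖ ≤ ‖z‖ := norm_snd_le z
  have h0 := norm_nonneg z
  have h3 : ‖gm z‖ ≤ 2 * ‖z‖ + ‖z‖ ^ 2 := by
    rw [norm_le_iff']
    constructor
    · calc ‖2 * z.2 + z.1 ^ 2‖ ≤ ‖2 * z.2‖ + ‖z.1 ^ 2‖ := norm_add_le _ _
        _ = 2 * ‖z.2‖ + ‖z.1‖ ^ 2 := by simp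
        _ ≤ _ := by gcongr
    · calc ‖2 * z.1‖ = 2 * ‖z.1‖ := by simp
        _ ≤ 2 * ‖z‖ := by gcongr
        _ ≤ _ := by nlinarith
  nlinarith

lemma norm_gm_iter (n : ℕ) (z : ℂ × ℂ) : 1 + ‖gm^[n] z‖ ≤ (1 + ‖z‖) ^ (2 ^ n) := by
  induction n with
  | zero => simp
  | succ n ih =>
    rw [Function.iterate_succ_apply', pow_succ, pow_mul]
    exact (norm_gm _).trans (pow_le_pow_left₀ (by positivity) ih 2)

lemma gm_lip (z z' : ℂ × ℂ) {t : ℝ} (hz : ‖z‖ ≤ t) (hz' : ‖z'‖ ≤ t) :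
    ‖gm z - gm z'‖ ≤ 2 * (1 + t) * ‖z - z'‖ := by
  have h0 : 0 ≤ t := (norm_nonneg z).trans hz
  have h1 : ‖z.1 - z'.1‖ ≤ ‖z - z'‖ := norm_fst_le (z - z')
  have h2 : ‖z.2 - z'.2‖ ≤ ‖z - z'‖ := norm_snd_le (z - z')
  have h5 := norm_nonneg (z - z')
  rw [norm_le_iff']
  constructor
  · have e : (gm z - gm z').1 = 2 * (z.2 - z'.2) + (z.1 + z'.1) * (z.1 - z'.1) := by
      simp [gm]; ring
    rw [e]
    have h3 : ‖z.1 + z'.1‖ ≤ 2 * t := by
      refine (norm_add_le _ _).trans ?_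
      have := (norm_fst_le z).trans hz
      have := (norm_fst_le z').trans hz'
      linarith
    calc _ ≤ ‖2 * (z.2 - z'.2)‖ + ‖(z.1 + z'.1) * (z.1 - z'.1)‖ := norm_add_le _ _
      _ = 2 * ‖z.2 - z'.2‖ + ‖z.1 + z'.1‖ * ‖z.1 - z'.1‖ := by simp
      _ ≤ 2 * ‖z - z'‖ + (2 * t) * ‖z - z'‖ := by gcongr
      _ = _ := by ring
  · have e : (gm z - gm z').2 = 2 * (z.1 - z'.1) := by simp [gm]; ring
    rw [e]
    calc _ = 2 * ‖z.1 - z'.1‖ := by simp
      _ ≤ 2 * ‖z - z'‖ := by gcongr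
      _ ≤ _ := by nlinarith [mul_nonneg h0 h5]

lemma gm_iter_lip (n : ℕ) (z z' : ℂ × ℂ) {t : ℝ} (hz : ‖z‖ ≤ t) (hz' : ‖z'‖ ≤ t) :
    ‖gm^[n] z - gm^[n] z'‖ ≤ 2 ^ n * (1 + t) ^ (2 ^ n) * ‖z - z'‖ := by
  have h0 : 0 ≤ t := (norm_nonneg z).trans hz
  induction n with
  | zero =>
    simp only [Function.iterate_zero, id, pow_zero, one_mul, pow_one]
    nlinarith [norm_nonneg (z - z'), mul_nonneg h0 (norm_nonneg (z - z'))]
  | succ n ih =>
    rw [Function.iterate_succ_apply', Function.iterate_succ_apply']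
    have h1 : ‖gm^[n] z‖ ≤ (1 + t) ^ (2 ^ n) - 1 := by
      have := (norm_gm_iter n z).trans (pow_le_pow_left₀ (by positivity)
        (by linarith : 1 + ‖z‖ ≤ 1 + t) (2 ^ n))
      linarith
    have h2 : ‖gm^[n] z'‖ ≤ (1 + t) ^ (2 ^ n) - 1 := by
      have := (norm_gm_iter n z').trans (pow_le_pow_left₀ (by positivity)
        (by linarith : 1 + ‖z'‖ ≤ 1 + t) (2 ^ n))
      linarith
    calc _ ≤ 2 * (1 + ((1 + t) ^ (2 ^ n) - 1)) * ‖gm^[n] z - gm^[n] z'‖ := gm_lip _ _ h1 h2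
      _ = 2 * (1 + t) ^ (2 ^ n) * ‖gm^[n] z - gm^[n] z'‖ := by ring
      _ ≤ 2 * (1 + t) ^ (2 ^ n) * (2 ^ n * (1 + t) ^ (2 ^ n) * ‖z - z'‖) := by gcongr
      _ = _ := by
        have e : (1 + t) ^ (2 ^ (n + 1)) = (1 + t) ^ (2 ^ n) * (1 + t) ^ (2 ^ n) := by
          rw [← pow_add]; congr 1; ring
        rw [e]; ring

/-- The approximations `Ψ_n = gⁿ ∘ Λⁿ`. -/
noncomputable def Psn (n : ℕ) (w : ℂ × ℂ) : ℂ × ℂ := gm^[n] (La^[n] w)

/-- `Ψ_{n+1} - Ψ_n`. -/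
noncomputable def Dn (n : ℕ) (w : ℂ × ℂ) : ℂ × ℂ := Psn (n + 1) w - Psn n w

/-- The bound. -/
noncomputable def Bd (ρ : ℝ) (n : ℕ) : ℝ := Real.exp (ρ + ρ ^ 2) * ρ ^ 2 * (1 / 2) ^ n

lemma summable_Bd (ρ : ℝ) : Summable (Bd ρ) :=
  (summable_geometric_of_lt_one (by norm_num) (by norm_num)).mul_left _

lemma norm_Dn (n : ℕ) {w : ℂ × ℂ} {ρ : ℝ} (hw : ‖w‖ ≤ ρ) : ‖Dn n w‖ ≤ Bd ρ n := by
  have h0 : 0 ≤ ρ := (norm_nonneg w).trans hw
  set y := La^[n] w with hy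
  have hyn : ‖y‖ ≤ ρ / 2 ^ n := by rw [hy, norm_La_iter]; gcongr
  have hone : (1:ℝ) ≤ 2 ^ n := one_le_pow₀ (by norm_num)
  have hpos : (0:ℝ) < 2 ^ n := by positivity
  have e1 : Psn (n + 1) w = gm^[n] (gm (La y)) := by
    rw [Psn, Function.iterate_succ_apply, Function.iterate_succ_apply', hy]
  have e2 : gm (La y) - y = ((y.2 / 2) ^ 2, 0) := by
    ext <;> simp [gm, La] <;> ring
  have h1 : ‖gm (La y) - y‖ ≤ ‖y‖ ^ 2 / 4 := by
    rw [e2, norm_le_iff']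
    constructor
    · have := norm_snd_le y
      have h : ‖(y.2 / 2) ^ 2‖ = ‖y.2‖ ^ 2 / 4 := by simp [div_pow]; ring
      change ‖(y.2 / 2) ^ 2‖ ≤ _
      rw [h]
      gcongr
    · simp; positivity
  set t := (ρ + ρ ^ 2) / 2 ^ n with ht
  have hyt : ‖y‖ ≤ t := by
    refine hyn.trans ?_
    rw [ht]
    gcongr
    nlinarith
  have hy2 : ‖y‖ ^ 2 ≤ ρ ^ 2 / 2 ^ n / 2 ^ n := by
    calc ‖y‖ ^ 2 ≤ (ρ / 2 ^ n) ^ 2 := by gcongr
      _ = _ := by ring
  have hy3 : ρ ^ 2 / 2 ^ n / 2 ^ n ≤ ρ ^ 2 / 2 ^ n := div_le_self (by positivity) hone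
  have hgt : ‖gm (La y)‖ ≤ t := by
    have : ‖gm (La y)‖ ≤ ‖gm (La y) - y‖ + ‖y‖ := by
      have := norm_add_le (gm (La y) - y) y
      rwa [sub_add_cancel] at this
    rw [ht, add_div]
    nlinarith [norm_nonneg y]
  have hmain := gm_iter_lip n (gm (La y)) y hgt hyt
  have hexp : (1 + t) ^ (2 ^ n) ≤ Real.exp (ρ + ρ ^ 2) := by
    have h2 : 1 + t ≤ Real.exp t := by linarith [Real.add_one_le_exp t]
    have ht0 : 0 ≤ t := (norm_nonneg y).trans hyt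
    calc (1 + t) ^ (2 ^ n) ≤ (Real.exp t) ^ (2 ^ n) := pow_le_pow_left₀ (by positivity) h2 _
      _ = Real.exp ((2 ^ n : ℕ) * t) := by rw [Real.exp_nat_mul]
      _ = Real.exp (ρ + ρ ^ 2) := by
        congr 1
        rw [ht]; push_cast; field_simp
  have e3 : Dn n w = gm^[n] (gm (La y)) - gm^[n] y := by rw [Dn, e1, Psn]
  rw [e3]
  refine hmain.trans ?_
  calc 2 ^ n * (1 + t) ^ (2 ^ n) * ‖gm (La y) - y‖
      ≤ 2 ^ n * Real.exp (ρ + ρ ^ 2) * (ρ ^ 2 / 2 ^ n / 2 ^ n) := by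
        gcongr
        refine h1.trans ?_
        have : ‖y‖ ^ 2 / 4 ≤ ‖y‖ ^ 2 := by nlinarith [sq_nonneg ‖y‖]
        exact this.trans hy2
    _ = Bd ρ n := by
      rw [Bd, one_div, inv_pow]
      field_simp

lemma differentiable_gm : Differentiable ℂ gm := by
  unfold gm
  fun_prop

lemma differentiable_hm : Differentiable ℂ hm := by
  unfold hm
  fun_prop

lemma differentiable_La : Differentiable ℂ La := by
  unfold La
  fun_prop

lemma differentiable_Psn (n : ℕ) : Differentiable ℂ (Psn n) :=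
  (differentiable_gm.iterate n).comp (differentiable_La.iterate n)

lemma differentiable_Dn (n : ℕ) : Differentiable ℂ (Dn n) :=
  (differentiable_Psn (n + 1)).sub (differentiable_Psn n)

/-- Cauchy estimate for the Frechet derivative. -/
lemma cauchy_fderiv {E F : Type*} [NormedAddCommGroup E] [NormedSpace ℂ E]
    [NormedAddCommGroup F] [NormedSpace ℂ F] {f : E → F} (hf : Differentiable ℂ f) (x : E)
    {M : ℝ} (hM : ∀ y, ‖y - x‖ ≤ 1 → ‖f y‖ ≤ M) : ‖fderiv ℂ f x‖ ≤ M := by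
  have hM0 : 0 ≤ M := (norm_nonneg _).trans (hM x (by simp))
  refine ContinuousLinearMap.opNorm_le_bound _ hM0 fun v => ?_
  by_cases hv : v = 0
  · simp [hv]
  · have hv' : 0 < ‖v‖ := norm_pos_iff.2 hv
    let φ : ℂ → F := fun t => f (x + t • v)
    have hφ : Differentiable ℂ φ := hf.comp ((differentiable_const x).add
      (differentiable_id.smul_const v))
    have h1 : ‖deriv φ 0‖ ≤ M / (1 / ‖v‖) := by
      refine Complex.norm_deriv_le_of_forall_mem_sphere_norm_le (by positivity)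
        hφ.diffContOnCl fun t ht => hM _ ?_
      have : ‖t‖ = 1 / ‖v‖ := by simpa using ht
      rw [add_sub_cancel_left, norm_smul, this]
      field_simp
      exact le_refl _
    have h2 : deriv φ 0 = fderiv ℂ f x v := by
      have h3 : HasDerivAt (fun t : ℂ => x + t • v) v 0 := by
        have := (hasDerivAt_id (0:ℂ)).smul_const v
        simpa using this.const_add x
      have h4 : HasFDerivAt f (fderiv ℂ f x) (x + (0:ℂ) • v) := by
        rw [zero_smul, add_zero]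
        exact (hf x).hasFDerivAt
      exact (h4.comp_hasDerivAt 0 h3).deriv
    rw [← h2]
    refine h1.trans (le_of_eq ?_)
    field_simp

/-- The entire map `Ψ`. -/
noncomputable def Psi (w : ℂ × ℂ) : ℂ × ℂ := w + ∑' n, Dn n w

lemma summable_Dn (w : ℂ × ℂ) : Summable fun n => Dn n w :=
  Summable.of_norm_bounded (summable_Bd ‖w‖) fun n => norm_Dn n le_rfl

lemma differentiable_Psi : Differentiable ℂ Psi := by
  intro w
  set ρ := ‖w‖ + 1 with hρ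
  have hρ0 : 0 < ρ := by positivity
  have hw : w ∈ Metric.ball (0 : ℂ × ℂ) ρ := by simp [hρ]
  have h := hasFDerivAt_tsum_of_isPreconnected (𝕜 := ℂ) (f := fun n y => Dn n y)
    (f' := fun n y => fderiv ℂ (Dn n) y) (summable_Bd (ρ + 1)) Metric.isOpen_ball
    (convex_ball (0 : ℂ × ℂ) ρ).isPreconnected
    (fun n x _ => (differentiable_Dn n x).hasFDerivAt) (fun n x hx => ?_) hw (summable_Dn w) hw
  · exact differentiableAt_id.add h.differentiableAt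
  · apply cauchy_fderiv (differentiable_Dn n)
    intro y hy
    apply norm_Dn
    have hx' : ‖x‖ < ρ := by simpa using hx
    have := norm_add_le (y - x) x
    rw [sub_add_cancel] at this
    linarith

lemma tendsto_Psn (w : ℂ × ℂ) : Tendsto (fun n => Psn n w) atTop (𝓝 (Psi w)) := by
  have h1 := (summable_Dn w).hasSum.tendsto_sum_nat
  have h2 : (fun n => ∑ i ∈ Finset.range n, Dn i w) = fun n => Psn n w - w := by
    funext n
    have := Finset.sum_range_sub (fun i => Psn i w) n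
    simpa [Dn, Psn] using this
  rw [h2] at h1
  have h3 := h1.const_add w
  simpa [Psi] using h3

lemma hm_Psi (w : ℂ × ℂ) : hm (Psi w) = Psi (La w) := by
  have h1 : Tendsto (fun n => hm (Psn (n + 1) w)) atTop (𝓝 (hm (Psi w))) :=
    (differentiable_hm.continuous.tendsto _).comp ((tendsto_Psn w).comp (tendsto_add_atTop_nat 1))
  have h2 : (fun n => hm (Psn (n + 1) w)) = fun n => Psn n (La w) := by
    funext n
    rw [Psn, Function.iterate_succ_apply', hm_gm, Function.iterate_succ_apply]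
    rfl
  rw [h2] at h1
  exact tendsto_nhds_unique h1 (tendsto_Psn (La w))

lemma hm_iter_Psi (n : ℕ) (w : ℂ × ℂ) : hm^[n] (Psi w) = Psi (La^[n] w) := by
  induction n with
  | zero => rfl
  | succ n ih => rw [Function.iterate_succ_apply', ih, hm_Psi, Function.iterate_succ_apply']

lemma Psi_zero : Psi 0 = 0 := by
  have h : ∀ n, Dn n 0 = 0 := by
    intro n
    have := norm_Dn n (w := 0) (ρ := 0) (by simp)
    simp only [Bd] at this
    rw [← norm_le_zero_iff]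
    simpa using this
  simp [Psi, h]

lemma hasFDerivAt_Psi_zero : HasFDerivAt Psi (ContinuousLinearMap.id ℂ (ℂ × ℂ)) 0 := by
  have hb : ∀ w : ℂ × ℂ, ‖w‖ ≤ 1 → ‖Psi w - w‖ ≤ (2 * Real.exp 2) * ‖w‖ ^ 2 := by
    intro w hw
    have h1 : ‖∑' n, Dn n w‖ ≤ ∑' n, Bd ‖w‖ n :=
      tsum_of_norm_bounded (summable_Bd ‖w‖).hasSum fun n => norm_Dn n le_rfl
    have h2 : ∑' n, Bd ‖w‖ n = Real.exp (‖w‖ + ‖w‖ ^ 2) * ‖w‖ ^ 2 * 2 := by
      simp only [Bd]
      rw [tsum_mul_left, tsum_geometric_two]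
    have h3 : Real.exp (‖w‖ + ‖w‖ ^ 2) ≤ Real.exp 2 := by
      apply Real.exp_le_exp.2
      nlinarith [norm_nonneg w]
    have h4 : Psi w - w = ∑' n, Dn n w := by simp [Psi]
    rw [h4]
    refine h1.trans ?_
    rw [h2]
    nlinarith [sq_nonneg ‖w‖, mul_le_mul_of_nonneg_right h3 (sq_nonneg ‖w‖)]
  rw [hasFDerivAt_iff_isLittleO]
  have h5 : (fun w : ℂ × ℂ => Psi w - Psi 0 - (ContinuousLinearMap.id ℂ (ℂ × ℂ)) (w - 0))
      =O[𝓝 0] fun w => ‖w‖ ^ 2 := by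
    apply Asymptotics.IsBigO.of_bound (2 * Real.exp 2)
    filter_upwards [Metric.closedBall_mem_nhds (0 : ℂ × ℂ) one_pos] with w hw
    have hw' : ‖w‖ ≤ 1 := by simpa using hw
    have := hb w hw'
    simp only [Psi_zero, sub_zero, ContinuousLinearMap.id_apply, norm_pow, norm_norm]
    exact this
  refine h5.trans_isLittleO ?_
  rw [Asymptotics.isLittleO_iff]
  intro c hc
  filter_upwards [Metric.closedBall_mem_nhds (0 : ℂ × ℂ) hc] with w hw
  have hw' : ‖w‖ ≤ c := by simpa using hw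
  simp only [sub_zero, norm_pow, norm_norm]
  rw [sq]
  exact mul_le_mul_of_nonneg_right hw' (norm_nonneg _)

/-- Forward orbits in the image of `Ψ` are bounded. -/
lemma bounded_Psi (w : ℂ × ℂ) : ∃ C, ∀ n, ‖hm^[n] (Psi w)‖ ≤ C := by
  have hK : IsCompact (Metric.closedBall (0 : ℂ × ℂ) ‖w‖) := isCompact_closedBall _ _
  obtain ⟨C, hC⟩ := hK.exists_bound_of_continuousOn differentiable_Psi.continuous.continuousOn
  refine ⟨C, fun n => ?_⟩
  rw [hm_iter_Psi]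
  apply hC
  rw [mem_closedBall_zero_iff, norm_La_iter]
  exact div_le_self (norm_nonneg _) (one_le_pow₀ (by norm_num))

/-- A point with bounded forward orbit lies in `{|y| ≤ max(16, |x|)}`. -/
lemma bounded_subset {z : ℂ × ℂ} (hz : ∃ C, ∀ n, ‖hm^[n] z‖ ≤ C) :
    ‖z.2‖ ≤ max 16 ‖z.1‖ := by
  by_contra hcon
  rw [not_le, max_lt_iff] at hcon
  obtain ⟨h16, h1⟩ := hcon
  obtain ⟨C, hC⟩ := hz
  have key : ∀ n, ‖(hm^[n] z).1‖ ≤ ‖(hm^[n] z).2‖ ∧ 16 < ‖(hm^[n] z).2‖ ∧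
      (3 / 2 : ℝ) ^ n ≤ ‖(hm^[n] z).2‖ := by
    intro n
    induction n with
    | zero => exact ⟨h1.le, h16, by simpa using (by linarith : (1:ℝ) ≤ ‖z.2‖)⟩
    | succ n ih =>
      obtain ⟨i1, i2, i3⟩ := ih
      rw [Function.iterate_succ_apply']
      set x := (hm^[n] z).1
      set y := (hm^[n] z).2
      have e1 : ‖(hm (hm^[n] z)).1‖ = ‖y‖ / 2 := by simp [hm, y]
      have e2 : ‖y‖ ^ 2 / 8 - ‖x‖ / 2 ≤ ‖(hm (hm^[n] z)).2‖ := by
        have : (hm (hm^[n] z)).2 = x / 2 - y ^ 2 / 8 := rfl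
        rw [this]
        have h2 := norm_sub_norm_le (y ^ 2 / 8) (x / 2)
        rw [norm_sub_rev] at h2
        simpa using h2
      have e3 : 3 / 2 * ‖y‖ ≤ ‖(hm (hm^[n] z)).2‖ := by
        refine le_trans ?_ e2
        nlinarith
      refine ⟨?_, ?_, ?_⟩
      · rw [e1]; linarith
      · linarith
      · rw [pow_succ]; linarith
  obtain ⟨n, hn⟩ := pow_unbounded_of_one_lt C (by norm_num : (1:ℝ) < 3 / 2)
  have := (key n).2.2
  have h2 := norm_snd_le (hm^[n] z)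
  linarith [hC n]

end Pool.Agent.Helper33.Henon
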