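import Pool.Agent.Helper33.Henon.Vanish

set_option autoImplicit false

open scoped ContDiff LinearAlgebra.Projectivization ComplexConjugate Topology
open Set Filter

namespace Pool.Agent.Helper33.Henon

section
variable {k : ℕ}

/-- Evaluation of a smooth family of multilinear maps at smooth vectors is smooth. -/
lemma contDiffAt_cmm_apply {E W : Type*} [NormedAddCommGroup E] [NormedSpace ℝ E]
    [NormedAddCommGroup W] [NormedSpace ℝ W] {x : E} :
    ∀ (n : ℕ) {A : E → ContinuousMultilinearMap ℝ (fun _ : Fin n => W) ℂ} {w : E → Fin n → W},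
      ContDiffAt ℝ ∞ A x → (∀ i, ContDiffAt ℝ ∞ (fun x => w x i) x) →
      ContDiffAt ℝ ∞ (fun x => A x (w x)) x
  | 0, A, w, hA, _ => by
    have e : (fun x => A x (w x)) =
        fun x => (continuousMultilinearCurryFin0 ℝ W ℂ) (A x) := by
      funext y
      simp only [continuousMultilinearCurryFin0_apply]
      congr 1
      exact Subsingleton.elim _ _
    rw [e]
    exact (continuousMultilinearCurryFin0 ℝ W ℂ).toContinuousLinearEquiv.contDiff.contDiffAt.comp
      x hA
  | n + 1, A, w, hA, hw => by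
    have e : (fun x => A x (w x)) =
        fun x => (continuousMultilinearCurryLeftEquiv ℝ (fun _ : Fin (n + 1) => W) ℂ (A x) (w x 0))
          (Fin.tail (w x)) := by
      funext y
      rw [continuousMultilinearCurryLeftEquiv_apply, Fin.cons_self_tail]
    rw [e]
    refine contDiffAt_cmm_apply n ?_ fun i => hw i.succ
    refine ContDiffAt.clm_apply ?_ (hw 0)
    have hc : ContDiff ℝ ∞ (fun A : ContinuousMultilinearMap ℝ (fun _ : Fin (n + 1) => W) ℂ =>
        continuousMultilinearCurryLeftEquiv ℝ (fun _ : Fin (n + 1) => W) ℂ A) :=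
      LinearIsometryEquiv.contDiff _
    exact hc.contDiffAt.comp x hA

lemma contDiffAt_cam_apply {E W : Type*} [NormedAddCommGroup E] [NormedSpace ℝ E]
    [NormedAddCommGroup W] [NormedSpace ℝ W] {x : E} {n : ℕ}
    {A : E → W [⋀^Fin n]→L[ℝ] ℂ} {w : E → Fin n → W}
    (hA : ContDiffAt ℝ ∞ A x) (hw : ∀ i, ContDiffAt ℝ ∞ (fun x => w x i) x) :
    ContDiffAt ℝ ∞ (fun x => A x (w x)) x := by
  have hc : ContDiff ℝ ∞ (fun B : W [⋀^Fin n]→L[ℝ] ℂ =>
      ContinuousAlternatingMap.toContinuousMultilinearMapCLM ℝ B) :=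
    ContinuousLinearMap.contDiff (𝕜 := ℝ) (E := W [⋀^Fin n]→L[ℝ] ℂ)
      (F := ContinuousMultilinearMap ℝ (fun _ : Fin n => W) ℂ)
      (ContinuousAlternatingMap.toContinuousMultilinearMapCLM ℝ)
  have h1 : ContDiffAt ℝ ∞ (fun x =>
      ContinuousAlternatingMap.toContinuousMultilinearMapCLM ℝ (A x)) x :=
    hc.contDiffAt.comp x hA
  exact contDiffAt_cmm_apply n h1 hw

/-- A family of alternating maps on a finite dimensional space is smooth if its values are. -/
lemma contDiffAt_of_apply {E : Type*} [NormedAddCommGroup E] [NormedSpace ℝ E] {x : E} {n : ℕ}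
    {A : E → (V k) [⋀^Fin n]→L[ℝ] ℂ}
    (hA : ∀ v : Fin n → V k, ContDiffAt ℝ ∞ (fun x => A x v) x) : ContDiffAt ℝ ∞ A x := by
  classical
  let b := Module.finBasis ℝ (V k)
  let L : ((V k) [⋀^Fin n]→L[ℝ] ℂ) →ₗ[ℝ]
      ((Fin n → Fin (Module.finrank ℝ (V k))) → ℂ) :=
    { toFun := fun A s => A (fun i => b (s i))
      map_add' := fun _ _ => rfl
      map_smul' := fun _ _ => rfl }
  have hinj : Function.Injective L := by
    intro A B hAB
    apply ContinuousAlternatingMap.toAlternatingMap_injective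
    refine b.ext_alternating fun s _ => ?_
    exact congrFun hAB s
  have : FiniteDimensional ℝ ((V k) [⋀^Fin n]→L[ℝ] ℂ) := FiniteDimensional.of_injective L hinj
  obtain ⟨g, hg⟩ := LinearMap.exists_leftInverse_of_injective L (LinearMap.ker_eq_bot.2 hinj)
  have hgc : ContDiff ℝ ∞ g := (LinearMap.toContinuousLinearMap g).contDiff
  have e : A = fun x => g (fun s => A x (fun i => b (s i))) := by
    funext y
    exact (LinearMap.congr_fun hg (A y)).symm
  rw [e]
  refine hgc.contDiffAt.comp x ?_
  exact contDiffAt_pi.2 fun s => hA _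

end

end Pool.Agent.Helper33.Henon
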