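import Mathlib
set_option autoImplicit false
set_option linter.unusedSimpArgs false
open Equiv Equiv.Perm
namespace Pool.Agent.Helper33.Henon
/-- Sum over the 24 permutations of `Fin 4`, written out. -/
theorem perm4 (g : Fin 4 → Fin 4 → Fin 4 → Fin 4 → ℂ) : (∑ σ : Equiv.Perm (Fin 4), ((Equiv.Perm.sign σ : ℤ) : ℂ) *
      g (σ 0) (σ 1) (σ 2) (σ 3)) = 
   g 0 1 2 3 - g 0 1 3 2 - g 0 2 1 3 + g 0 2 3 1 + g 0 3 1 2 - g 0 3 2 1 
   - g 1 0 2 3 + g 1 0 3 2 + g 1 2 0 3 - g 1 2 3 0 - g 1 3 0 2 + g 1 3 2 0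
   + g 2 0 1 3 - g 2 0 3 1 - g 2 1 0 3 + g 2 1 3 0 + g 2 3 0 1 - g 2 3 1 0
   - g 3 0 1 2 + g 3 0 2 1 + g 3 1 0 2 - g 3 1 2 0 - g 3 2 0 1 + g 3 2 1 0 := by
  have h1 : (decomposeFin.symm ((0 : Fin 4), decomposeFin.symm ((0 : Fin 3), swap (0 : Fin 2) 1))) (0 : Fin 4) = 0 := by decide
  have h2 : (decomposeFin.symm ((0 : Fin 4), decomposeFin.symm ((0 : Fin 3), swap (0 : Fin 2) 1))) (1 : Fin 4) = 1 := by decide
  have h3 : (decomposeFin.symm ((0 : Fin 4), decomposeFin.symm ((0 : Fin 3), swap (0 : Fin 2) 1))) (2 : Fin 4) = 3 := by decide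
  have h4 : (decomposeFin.symm ((0 : Fin 4), decomposeFin.symm ((0 : Fin 3), swap (0 : Fin 2) 1))) (3 : Fin 4) = 2 := by decide
  have h5 : (decomposeFin.symm ((0 : Fin 4), decomposeFin.symm ((1 : Fin 3), swap (0 : Fin 2) 1))) (0 : Fin 4) = 0 := by decide
  have h6 : (decomposeFin.symm ((0 : Fin 4), decomposeFin.symm ((1 : Fin 3), swap (0 : Fin 2) 1))) (1 : Fin 4) = 2 := by decide
  have h7 : (decomposeFin.symm ((0 : Fin 4), decomposeFin.symm ((1 : Fin 3), swap (0 : Fin 2) 1))) (2 : Fin 4) = 3 := by decide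
  have h8 : (decomposeFin.symm ((0 : Fin 4), decomposeFin.symm ((1 : Fin 3), swap (0 : Fin 2) 1))) (3 : Fin 4) = 1 := by decide
  have h9 : (decomposeFin.symm ((0 : Fin 4), decomposeFin.symm ((2 : Fin 3), swap (0 : Fin 2) 1))) (0 : Fin 4) = 0 := by decide
  have h10 : (decomposeFin.symm ((0 : Fin 4), decomposeFin.symm ((2 : Fin 3), swap (0 : Fin 2) 1))) (1 : Fin 4) = 3 := by decide
  have h11 : (decomposeFin.symm ((0 : Fin 4), decomposeFin.symm ((2 : Fin 3), swap (0 : Fin 2) 1))) (2 : Fin 4) = 1 := by decide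
  have h12 : (decomposeFin.symm ((0 : Fin 4), decomposeFin.symm ((2 : Fin 3), swap (0 : Fin 2) 1))) (3 : Fin 4) = 2 := by decide
  have h13 : (decomposeFin.symm ((0 : Fin 4), swap (0 : Fin 3) 1)) (0 : Fin 4) = 0 := by decide
  have h14 : (decomposeFin.symm ((0 : Fin 4), swap (0 : Fin 3) 1)) (1 : Fin 4) = 2 := by decide
  have h15 : (decomposeFin.symm ((0 : Fin 4), swap (0 : Fin 3) 1)) (2 : Fin 4) = 1 := by decide
  have h16 : (decomposeFin.symm ((0 : Fin 4), swap (0 : Fin 3) 1)) (3 : Fin 4) = 3 := by decide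
  have h17 : (decomposeFin.symm ((0 : Fin 4), swap (0 : Fin 3) 2)) (0 : Fin 4) = 0 := by decide
  have h18 : (decomposeFin.symm ((0 : Fin 4), swap (0 : Fin 3) 2)) (1 : Fin 4) = 3 := by decide
  have h19 : (decomposeFin.symm ((0 : Fin 4), swap (0 : Fin 3) 2)) (2 : Fin 4) = 2 := by decide
  have h20 : (decomposeFin.symm ((0 : Fin 4), swap (0 : Fin 3) 2)) (3 : Fin 4) = 1 := by decide
  have h21 : (decomposeFin.symm ((1 : Fin 4), decomposeFin.symm ((0 : Fin 3), swap (0 : Fin 2) 1))) (0 : Fin 4) = 1 := by decide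
  have h22 : (decomposeFin.symm ((1 : Fin 4), decomposeFin.symm ((0 : Fin 3), swap (0 : Fin 2) 1))) (1 : Fin 4) = 0 := by decide
  have h23 : (decomposeFin.symm ((1 : Fin 4), decomposeFin.symm ((0 : Fin 3), swap (0 : Fin 2) 1))) (2 : Fin 4) = 3 := by decide
  have h24 : (decomposeFin.symm ((1 : Fin 4), decomposeFin.symm ((0 : Fin 3), swap (0 : Fin 2) 1))) (3 : Fin 4) = 2 := by decide
  have h25 : (decomposeFin.symm ((1 : Fin 4), decomposeFin.symm ((1 : Fin 3), swap (0 : Fin 2) 1))) (0 : Fin 4) = 1 := by decide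
  have h26 : (decomposeFin.symm ((1 : Fin 4), decomposeFin.symm ((1 : Fin 3), swap (0 : Fin 2) 1))) (1 : Fin 4) = 2 := by decide
  have h27 : (decomposeFin.symm ((1 : Fin 4), decomposeFin.symm ((1 : Fin 3), swap (0 : Fin 2) 1))) (2 : Fin 4) = 3 := by decide
  have h28 : (decomposeFin.symm ((1 : Fin 4), decomposeFin.symm ((1 : Fin 3), swap (0 : Fin 2) 1))) (3 : Fin 4) = 0 := by decide
  have h29 : (decomposeFin.symm ((1 : Fin 4), decomposeFin.symm ((2 : Fin 3), swap (0 : Fin 2) 1))) (0 : Fin 4) = 1 := by decide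
  have h30 : (decomposeFin.symm ((1 : Fin 4), decomposeFin.symm ((2 : Fin 3), swap (0 : Fin 2) 1))) (1 : Fin 4) = 3 := by decide
  have h31 : (decomposeFin.symm ((1 : Fin 4), decomposeFin.symm ((2 : Fin 3), swap (0 : Fin 2) 1))) (2 : Fin 4) = 0 := by decide
  have h32 : (decomposeFin.symm ((1 : Fin 4), decomposeFin.symm ((2 : Fin 3), swap (0 : Fin 2) 1))) (3 : Fin 4) = 2 := by decide
  have h33 : (decomposeFin.symm ((1 : Fin 4), swap (0 : Fin 3) 1)) (0 : Fin 4) = 1 := by decide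
  have h34 : (decomposeFin.symm ((1 : Fin 4), swap (0 : Fin 3) 1)) (1 : Fin 4) = 2 := by decide
  have h35 : (decomposeFin.symm ((1 : Fin 4), swap (0 : Fin 3) 1)) (2 : Fin 4) = 0 := by decide
  have h36 : (decomposeFin.symm ((1 : Fin 4), swap (0 : Fin 3) 1)) (3 : Fin 4) = 3 := by decide
  have h37 : (decomposeFin.symm ((1 : Fin 4), swap (0 : Fin 3) 2)) (0 : Fin 4) = 1 := by decide
  have h38 : (decomposeFin.symm ((1 : Fin 4), swap (0 : Fin 3) 2)) (1 : Fin 4) = 3 := by decide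
  have h39 : (decomposeFin.symm ((1 : Fin 4), swap (0 : Fin 3) 2)) (2 : Fin 4) = 2 := by decide
  have h40 : (decomposeFin.symm ((1 : Fin 4), swap (0 : Fin 3) 2)) (3 : Fin 4) = 0 := by decide
  have h41 : (decomposeFin.symm ((2 : Fin 4), decomposeFin.symm ((0 : Fin 3), swap (0 : Fin 2) 1))) (0 : Fin 4) = 2 := by decide
  have h42 : (decomposeFin.symm ((2 : Fin 4), decomposeFin.symm ((0 : Fin 3), swap (0 : Fin 2) 1))) (1 : Fin 4) = 1 := by decide
  have h43 : (decomposeFin.symm ((2 : Fin 4), decomposeFin.symm ((0 : Fin 3), swap (0 : Fin 2) 1))) (2 : Fin 4) = 3 := by decide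
  have h44 : (decomposeFin.symm ((2 : Fin 4), decomposeFin.symm ((0 : Fin 3), swap (0 : Fin 2) 1))) (3 : Fin 4) = 0 := by decide
  have h45 : (decomposeFin.symm ((2 : Fin 4), decomposeFin.symm ((1 : Fin 3), swap (0 : Fin 2) 1))) (0 : Fin 4) = 2 := by decide
  have h46 : (decomposeFin.symm ((2 : Fin 4), decomposeFin.symm ((1 : Fin 3), swap (0 : Fin 2) 1))) (1 : Fin 4) = 0 := by decide
  have h47 : (decomposeFin.symm ((2 : Fin 4), decomposeFin.symm ((1 : Fin 3), swap (0 : Fin 2) 1))) (2 : Fin 4) = 3 := by decide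
  have h48 : (decomposeFin.symm ((2 : Fin 4), decomposeFin.symm ((1 : Fin 3), swap (0 : Fin 2) 1))) (3 : Fin 4) = 1 := by decide
  have h49 : (decomposeFin.symm ((2 : Fin 4), decomposeFin.symm ((2 : Fin 3), swap (0 : Fin 2) 1))) (0 : Fin 4) = 2 := by decide
  have h50 : (decomposeFin.symm ((2 : Fin 4), decomposeFin.symm ((2 : Fin 3), swap (0 : Fin 2) 1))) (1 : Fin 4) = 3 := by decide
  have h51 : (decomposeFin.symm ((2 : Fin 4), decomposeFin.symm ((2 : Fin 3), swap (0 : Fin 2) 1))) (2 : Fin 4) = 1 := by decide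
  have h52 : (decomposeFin.symm ((2 : Fin 4), decomposeFin.symm ((2 : Fin 3), swap (0 : Fin 2) 1))) (3 : Fin 4) = 0 := by decide
  have h53 : (decomposeFin.symm ((2 : Fin 4), swap (0 : Fin 3) 1)) (0 : Fin 4) = 2 := by decide
  have h54 : (decomposeFin.symm ((2 : Fin 4), swap (0 : Fin 3) 1)) (1 : Fin 4) = 0 := by decide
  have h55 : (decomposeFin.symm ((2 : Fin 4), swap (0 : Fin 3) 1)) (2 : Fin 4) = 1 := by decide
  have h56 : (decomposeFin.symm ((2 : Fin 4), swap (0 : Fin 3) 1)) (3 : Fin 4) = 3 := by decide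
  have h57 : (decomposeFin.symm ((2 : Fin 4), swap (0 : Fin 3) 2)) (0 : Fin 4) = 2 := by decide
  have h58 : (decomposeFin.symm ((2 : Fin 4), swap (0 : Fin 3) 2)) (1 : Fin 4) = 3 := by decide
  have h59 : (decomposeFin.symm ((2 : Fin 4), swap (0 : Fin 3) 2)) (2 : Fin 4) = 0 := by decide
  have h60 : (decomposeFin.symm ((2 : Fin 4), swap (0 : Fin 3) 2)) (3 : Fin 4) = 1 := by decide
  have h61 : (decomposeFin.symm ((3 : Fin 4), decomposeFin.symm ((0 : Fin 3), swap (0 : Fin 2) 1))) (0 : Fin 4) = 3 := by decide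
  have h62 : (decomposeFin.symm ((3 : Fin 4), decomposeFin.symm ((0 : Fin 3), swap (0 : Fin 2) 1))) (1 : Fin 4) = 1 := by decide
  have h63 : (decomposeFin.symm ((3 : Fin 4), decomposeFin.symm ((0 : Fin 3), swap (0 : Fin 2) 1))) (2 : Fin 4) = 0 := by decide
  have h64 : (decomposeFin.symm ((3 : Fin 4), decomposeFin.symm ((0 : Fin 3), swap (0 : Fin 2) 1))) (3 : Fin 4) = 2 := by decide
  have h65 : (decomposeFin.symm ((3 : Fin 4), decomposeFin.symm ((1 : Fin 3), swap (0 : Fin 2) 1))) (0 : Fin 4) = 3 := by decide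
  have h66 : (decomposeFin.symm ((3 : Fin 4), decomposeFin.symm ((1 : Fin 3), swap (0 : Fin 2) 1))) (1 : Fin 4) = 2 := by decide
  have h67 : (decomposeFin.symm ((3 : Fin 4), decomposeFin.symm ((1 : Fin 3), swap (0 : Fin 2) 1))) (2 : Fin 4) = 0 := by decide
  have h68 : (decomposeFin.symm ((3 : Fin 4), decomposeFin.symm ((1 : Fin 3), swap (0 : Fin 2) 1))) (3 : Fin 4) = 1 := by decide
  have h69 : (decomposeFin.symm ((3 : Fin 4), decomposeFin.symm ((2 : Fin 3), swap (0 : Fin 2) 1))) (0 : Fin 4) = 3 := by decide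
  have h70 : (decomposeFin.symm ((3 : Fin 4), decomposeFin.symm ((2 : Fin 3), swap (0 : Fin 2) 1))) (1 : Fin 4) = 0 := by decide
  have h71 : (decomposeFin.symm ((3 : Fin 4), decomposeFin.symm ((2 : Fin 3), swap (0 : Fin 2) 1))) (2 : Fin 4) = 1 := by decide
  have h72 : (decomposeFin.symm ((3 : Fin 4), decomposeFin.symm ((2 : Fin 3), swap (0 : Fin 2) 1))) (3 : Fin 4) = 2 := by decide
  have h73 : (decomposeFin.symm ((3 : Fin 4), swap (0 : Fin 3) 1)) (0 : Fin 4) = 3 := by decide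
  have h74 : (decomposeFin.symm ((3 : Fin 4), swap (0 : Fin 3) 1)) (1 : Fin 4) = 2 := by decide
  have h75 : (decomposeFin.symm ((3 : Fin 4), swap (0 : Fin 3) 1)) (2 : Fin 4) = 1 := by decide
  have h76 : (decomposeFin.symm ((3 : Fin 4), swap (0 : Fin 3) 1)) (3 : Fin 4) = 0 := by decide
  have h77 : (decomposeFin.symm ((3 : Fin 4), swap (0 : Fin 3) 2)) (0 : Fin 4) = 3 := by decide
  have h78 : (decomposeFin.symm ((3 : Fin 4), swap (0 : Fin 3) 2)) (1 : Fin 4) = 0 := by decide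
  have h79 : (decomposeFin.symm ((3 : Fin 4), swap (0 : Fin 3) 2)) (2 : Fin 4) = 2 := by decide
  have h80 : (decomposeFin.symm ((3 : Fin 4), swap (0 : Fin 3) 2)) (3 : Fin 4) = 1 := by decide
  have h81 : (swap (0 : Fin 4) 1) (0 : Fin 4) = 1 := by decide
  have h82 : (swap (0 : Fin 4) 1) (1 : Fin 4) = 0 := by decide
  have h83 : (swap (0 : Fin 4) 1) (2 : Fin 4) = 2 := by decide
  have h84 : (swap (0 : Fin 4) 1) (3 : Fin 4) = 3 := by decide
  have h85 : (swap (0 : Fin 4) 2) (0 : Fin 4) = 2 := by decide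
  have h86 : (swap (0 : Fin 4) 2) (1 : Fin 4) = 1 := by decide
  have h87 : (swap (0 : Fin 4) 2) (2 : Fin 4) = 0 := by decide
  have h88 : (swap (0 : Fin 4) 2) (3 : Fin 4) = 3 := by decide
  have h89 : (swap (0 : Fin 4) 3) (0 : Fin 4) = 3 := by decide
  have h90 : (swap (0 : Fin 4) 3) (1 : Fin 4) = 1 := by decide
  have h91 : (swap (0 : Fin 4) 3) (2 : Fin 4) = 2 := by decide
  have h92 : (swap (0 : Fin 4) 3) (3 : Fin 4) = 0 := by decide
  rw [Finset.univ_perm_fin_succ, Finset.sum_map]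
  simp only [Fintype.sum_prod_type]
  rw [Finset.univ_perm_fin_succ]
  simp only [Finset.sum_map, Fintype.sum_prod_type]
  rw [Finset.univ_perm_fin_succ]
  simp only [Finset.sum_map, Fintype.sum_prod_type]
  simp [Fin.sum_univ_succ, h1, h2, h3, h4, h5, h6, h7, h8, h9, h10, h11, h12, h13, h14, h15, h16, h17, h18, h19, h20, h21, h22, h23, h24, h25, h26, h27, h28, h29, h30, h31, h32, h33, h34, h35, h36, h37, h38, h39, h40, h41, h42, h43, h44, h45, h46, h47, h48, h49, h50, h51, h52, h53, h54, h55, h56, h57, h58, h59, h60, h61, h62, h63, h64, h65, h66, h67, h68, h69, h70, h71, h72, h73, h74, h75, h76, h77, h78, h79, h80, h81, h82, h83, h84, h85, h86, h87, h88, h89, h90, h91, h92]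
  ring
end Pool.Agent.Helper33.Henon
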