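import Pool.Agent.Helper33.Henon.Leib
import Pool.Agent.Helper33.Henon.Perm4

set_option autoImplicit false

open scoped ContDiff LinearAlgebra.Projectivization ComplexConjugate Topology
open Set Filter ContinuousAlternatingMap

namespace Pool.Agent.Helper33.Henon

section
variable {k : ℕ}

/-- `H_J(u, v) = ∑_{j ∈ J} ū_j v_j`. -/
noncomputable def HJ (J : Finset (Fin (k + 1))) : V k →L[ℝ] V k →L[ℝ] ℂ :=
  ∑ j ∈ J, (ContinuousLinearMap.mul ℝ ℂ).bilinearComp
    ((Complex.conjCLE : ℂ →L[ℝ] ℂ).comp (ContinuousLinearMap.proj j)) (ContinuousLinearMap.proj j)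

lemma HJ_apply (J : Finset (Fin (k + 1))) (u v : V k) :
    HJ J u v = ∑ j ∈ J, conj (u j) * v j := by
  simp [HJ]

lemma HJ_univ (u v : V k) : HJ Finset.univ u v = herm u v := HJ_apply _ _ _

/-- Real part of `H_J`. -/
noncomputable def RJ (J : Finset (Fin (k + 1))) : V k →L[ℝ] V k →L[ℝ] ℝ :=
  (ContinuousLinearMap.compL ℝ (V k) ℂ ℝ Complex.reCLM).comp (HJ J)

/-- Imaginary part of `H_J`. -/
noncomputable def BJ (J : Finset (Fin (k + 1))) : V k →L[ℝ] V k →L[ℝ] ℝ :=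
  (ContinuousLinearMap.compL ℝ (V k) ℂ ℝ Complex.imCLM).comp (HJ J)

lemma RJ_apply (J : Finset (Fin (k + 1))) (u v : V k) : RJ J u v = (HJ J u v).re := rfl
lemma BJ_apply (J : Finset (Fin (k + 1))) (u v : V k) : BJ J u v = (HJ J u v).im := rfl

lemma HJ_conj (J : Finset (Fin (k + 1))) (u v : V k) : HJ J v u = conj (HJ J u v) := by
  rw [HJ_apply, HJ_apply, _root_.map_sum]
  exact Finset.sum_congr rfl fun j _ => by simp [mul_comm]

lemma RJ_symm (J : Finset (Fin (k + 1))) (u v : V k) : RJ J v u = RJ J u v := by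
  rw [RJ_apply, RJ_apply, HJ_conj, Complex.conj_re]

lemma BJ_anti (J : Finset (Fin (k + 1))) (u v : V k) : BJ J v u = - BJ J u v := by
  rw [BJ_apply, BJ_apply, HJ_conj, Complex.conj_im]

lemma HJ_smul_right (J : Finset (Fin (k + 1))) (c : ℂ) (u v : V k) :
    HJ J u (c • v) = c * HJ J u v := by
  rw [HJ_apply, HJ_apply, Finset.mul_sum]
  exact Finset.sum_congr rfl fun j _ => by simp; ring

lemma HJ_smul_left (J : Finset (Fin (k + 1))) (c : ℂ) (u v : V k) :
    HJ J (c • u) v = conj c * HJ J u v := by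
  rw [HJ_apply, HJ_apply, Finset.mul_sum]
  exact Finset.sum_congr rfl fun j _ => by simp; ring

/-- `N_J(z) = ∑_{j ∈ J} |z_j|²`. -/
noncomputable def NJ (J : Finset (Fin (k + 1))) (z : V k) : ℝ := RJ J z z

lemma NJ_apply (J : Finset (Fin (k + 1))) (z : V k) : NJ J z = ∑ j ∈ J, ‖z j‖ ^ 2 := by
  have h : HJ J z z = ((∑ j ∈ J, ‖z j‖ ^ 2 : ℝ) : ℂ) := by
    rw [HJ_apply]
    push_cast
    exact Finset.sum_congr rfl fun j _ => by rw [Complex.conj_mul']
  rw [NJ, RJ_apply, h, Complex.ofReal_re]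

lemma HJ_self (J : Finset (Fin (k + 1))) (z : V k) : HJ J z z = (NJ J z : ℂ) := by
  rw [NJ_apply, HJ_apply]
  push_cast
  exact Finset.sum_congr rfl fun j _ => by rw [Complex.conj_mul']

lemma BJ_self (J : Finset (Fin (k + 1))) (z : V k) : BJ J z z = 0 := by
  rw [BJ_apply, HJ_self, Complex.ofReal_im]

lemma NJ_univ (z : V k) : NJ Finset.univ z = N z := NJ_apply _ _

lemma NJ_nonneg (J : Finset (Fin (k + 1))) (z : V k) : 0 ≤ NJ J z := by
  rw [NJ_apply]; positivity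

lemma NJ_smul (J : Finset (Fin (k + 1))) (c : ℂ) (z : V k) : NJ J (c • z) = ‖c‖ ^ 2 * NJ J z := by
  simp [NJ_apply, mul_pow, Finset.mul_sum]

lemma hasFDerivAt_NJ (J : Finset (Fin (k + 1))) (z : V k) :
    HasFDerivAt (NJ J) ((2 : ℝ) • RJ J z) z := by
  have h := (RJ J).hasFDerivAt_of_bilinear (hasFDerivAt_id z) (hasFDerivAt_id z)
  refine h.congr_fderiv ?_
  ext u
  change RJ J z u + RJ J u z = 2 * RJ J z u
  rw [RJ_symm J z u]
  ring

lemma contDiff_NJ (J : Finset (Fin (k + 1))) : ContDiff ℝ ∞ (NJ J) := by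
  have : ContDiff ℝ ∞ fun z : V k => RJ J z z :=
    (RJ J).contDiff.clm_apply contDiff_id
  exact this

/-- `θ_J(z)(u) = Im H_J(z, u) / (2 π N_J(z))`. -/
noncomputable def thJ (J : Finset (Fin (k + 1))) (z : V k) : V k →L[ℝ] ℝ :=
  (2 * Real.pi * NJ J z)⁻¹ • BJ J z

lemma thJ_apply (J : Finset (Fin (k + 1))) (z u : V k) :
    thJ J z u = BJ J z u / (2 * Real.pi * NJ J z) := by
  simp [thJ, div_eq_inv_mul]

lemma contDiffAt_thJ (J : Finset (Fin (k + 1))) {z : V k} (hz : NJ J z ≠ 0) :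
    ContDiffAt ℝ ∞ (thJ J) z := by
  unfold thJ
  have h1 : ContDiffAt ℝ ∞ (fun z : V k => 2 * Real.pi * NJ J z) z :=
    (contDiff_const.mul (contDiff_NJ J)).contDiffAt
  have h2 : ContDiffAt ℝ ∞ (fun z : V k => (2 * Real.pi * NJ J z)⁻¹) z :=
    h1.inv (mul_ne_zero (mul_ne_zero two_ne_zero Real.pi_ne_zero) hz)
  exact h2.smul (BJ J).contDiff.contDiffAt

/-- The derivative of `θ_J`. -/
noncomputable def thJ' (J : Finset (Fin (k + 1))) (z : V k) : V k →L[ℝ] V k →L[ℝ] ℝ :=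
  fderiv ℝ (thJ J) z

lemma hasFDerivAt_thJ (J : Finset (Fin (k + 1))) {z : V k} (hz : NJ J z ≠ 0) :
    HasFDerivAt (thJ J) (thJ' J z) z :=
  ((contDiffAt_thJ J hz).differentiableAt (by simp)).hasFDerivAt

lemma thJ'_apply (J : Finset (Fin (k + 1))) {z : V k} (hz : NJ J z ≠ 0) (u w : V k) :
    thJ' J z u w = BJ J u w / (2 * Real.pi * NJ J z) -
      2 * RJ J z u * BJ J z w / (2 * Real.pi * NJ J z ^ 2) := by
  have hpi := Real.pi_ne_zero
  have hne : 2 * Real.pi * NJ J z ≠ 0 := mul_ne_zero (mul_ne_zero two_ne_zero hpi) hz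
  have h1 : HasFDerivAt (fun z => 2 * Real.pi * NJ J z) ((2 * Real.pi) • ((2 : ℝ) • RJ J z)) z :=
    (hasFDerivAt_NJ J z).const_mul (2 * Real.pi)
  have h2 := (hasDerivAt_inv hne).comp_hasFDerivAt z h1
  have h3 := h2.smul ((BJ J).hasFDerivAt (x := z))
  have h4 : fderiv ℝ (thJ J) z = _ := h3.fderiv
  rw [thJ', h4]
  simp
  field_simp
  ring

/-- The value of `ω_J = dθ_J`. -/
noncomputable def omJ (J : Finset (Fin (k + 1))) (z u w : V k) : ℝ :=
  ((HJ J u w * HJ J z z - HJ J u z * HJ J z w) / (HJ J z z) ^ 2).im / Real.pi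

lemma omJ_univ (z u w : V k) : omJ Finset.univ z u w = fs z u w := by
  simp only [omJ, fs, HJ_univ]

lemma thJ'_sub (J : Finset (Fin (k + 1))) {z : V k} (hz : NJ J z ≠ 0) (u w : V k) :
    thJ' J z u w - thJ' J z w u = omJ J z u w := by
  have hpi := Real.pi_ne_zero
  rw [thJ'_apply J hz, thJ'_apply J hz, BJ_anti J u w, omJ, HJ_self, HJ_conj J z u]
  have e : ((HJ J u w * (NJ J z : ℂ) - conj (HJ J z u) * HJ J z w) / (NJ J z : ℂ) ^ 2) =
      ((NJ J z ^ 2)⁻¹ : ℝ) • (HJ J u w * (NJ J z : ℂ) - conj (HJ J z u) * HJ J z w) := by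
    rw [Complex.real_smul]
    push_cast
    field_simp
  rw [e, Complex.smul_im]
  simp only [Complex.sub_im, Complex.mul_im, Complex.ofReal_re, Complex.ofReal_im,
    Complex.conj_re, Complex.conj_im, ← RJ_apply, ← BJ_apply, smul_eq_mul]
  field_simp
  ring

end

end Pool.Agent.Helper33.Henon
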