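import Pool.Agent.Helper33.Henon.Top
import Pool.Agent.Helper33.Henon.Dyn

set_option autoImplicit false

open scoped LinearAlgebra.Projectivization Topology
open Set Filter MvPolynomial

namespace Pool.Agent.Helper33.Henon

/-! ## Dimensions -/

lemma hasDim_coord {k m d : ℕ} (e : Fin m → Fin (k + 1)) (he : Function.Injective e)
    (hm : m + (d + 1) = k + 1) : HasDim {q : PS k | ∀ i, q.rep (e i) = 0} d := by
  classical
  let L : V k →ₗ[ℂ] (Fin m → ℂ) := LinearMap.funLeft ℂ ℂ e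
  have hL : Function.Surjective L := LinearMap.funLeft_surjective_of_injective _ _ _ he
  set U : Submodule ℂ (V k) := LinearMap.ker L with hU
  have hUm : ∀ z : V k, z ∈ U ↔ ∀ i, z (e i) = 0 := by
    intro z
    rw [hU, LinearMap.mem_ker, funext_iff]
    rfl
  have hfin : Module.finrank ℂ U = d + 1 := by
    have h1 := LinearMap.finrank_range_add_finrank_ker L
    rw [LinearMap.range_eq_top.2 hL, finrank_top, Module.finrank_fin_fun,
      Module.finrank_fin_fun] at h1
    rw [hU]; omega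
  constructor
  · intro W hW
    have h1 := Submodule.finrank_sup_add_finrank_inf_eq U W
    have h2 := Submodule.finrank_le (U ⊔ W)
    rw [Module.finrank_fin_fun] at h2
    have h3 : 0 < Module.finrank ℂ (U ⊓ W : Submodule ℂ (V k)) := by omega
    obtain ⟨⟨z, hz⟩, hz0⟩ := (Module.finrank_pos_iff_exists_ne_zero (R := ℂ)).1 h3
    have hz0' : z ≠ 0 := fun h => hz0 (by simpa using h)
    obtain ⟨c, hc, hcz⟩ := rep_eq z hz0'
    refine ⟨Projectivization.mk ℂ z hz0', ?_, ?_⟩
    · have : (Projectivization.mk ℂ z hz0').rep ∈ U := by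
        rw [hcz]; exact U.smul_mem c hz.1
      exact (hUm _).1 this
    · rw [hcz]; exact W.smul_mem c hz.2
  · obtain ⟨W, hW⟩ := Submodule.exists_isCompl U
    refine ⟨W, ?_, fun q hq hqW => ?_⟩
    · have h1 := Submodule.finrank_add_eq_of_isCompl hW
      rw [hfin, Module.finrank_fin_fun] at h1
      omega
    · have h1 : q.rep ∈ U := (hUm _).2 hq
      have h2 : q.rep ∈ U ⊓ W := ⟨h1, hqW⟩
      rw [hW.inf_eq_bot] at h2
      exact q.rep_nonzero h2

/-! ## Homogenisation -/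

lemma homog_eq_zero_iff {k : ℕ} (F : PolyMap k) (hd : F.deg ≠ 0) (Z : V k) :
    F.homog Z = 0 ↔ Z 0 = 0 ∧
      ∀ i, eval (Fin.tail Z) (homogeneousComponent F.deg (F i)) = 0 := by
  have key : ∀ i, Z 0 = 0 → (∑ j ∈ Finset.range (F.deg + 1),
      Z 0 ^ (F.deg - j) * eval (Fin.tail Z) (homogeneousComponent j (F i))) =
      eval (Fin.tail Z) (homogeneousComponent F.deg (F i)) := by
    intro i h0
    rw [Finset.sum_range_succ, Finset.sum_eq_zero, h0]
    · simp
    · intro j hj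
      have : F.deg - j ≠ 0 := by
        have := Finset.mem_range.1 hj
        omega
      rw [h0, zero_pow this, zero_mul]
  constructor
  · intro h
    have h0 : Z 0 = 0 := by
      have := congrFun h 0
      simp only [PolyMap.homog, Fin.cons_zero, Pi.zero_apply] at this
      exact eq_zero_of_pow_eq_zero this
    refine ⟨h0, fun i => ?_⟩
    have := congrFun h i.succ
    simp only [PolyMap.homog, Fin.cons_succ, Pi.zero_apply] at this
    rw [← key i h0, this]
  · rintro ⟨h0, h1⟩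
    ext j
    refine Fin.cases ?_ (fun i => ?_) j
    · simp [PolyMap.homog, h0, zero_pow hd]
    · simp only [PolyMap.homog, Fin.cons_succ, Pi.zero_apply]
      rw [key i h0, h1 i]

lemma deg_eq {k d : ℕ} (F : PolyMap k) (h1 : ∀ i, (F i).totalDegree ≤ d) (i₀ : Fin k)
    (h2 : homogeneousComponent d (F i₀) ≠ 0) : F.deg = d := by
  apply le_antisymm
  · exact Finset.sup_le fun i _ => h1 i
  · refine le_trans ?_ (Finset.le_sup (f := fun i => (F i).totalDegree) (Finset.mem_univ i₀))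
    by_contra hcon
    exact h2 (homogeneousComponent_eq_zero _ _ (not_le.1 hcon))

lemma hc_lin {k : ℕ} (a : ℂ) (i : Fin k) :
    homogeneousComponent 2 (C a * X i : MvPolynomial (Fin k) ℂ) = 0 := by
  rw [homogeneousComponent_C_mul,
    homogeneousComponent_of_mem ((mem_homogeneousSubmodule 1 _).2 (isHomogeneous_X ℂ i))]
  simp

lemma hc_sq {k : ℕ} (i : Fin k) :
    homogeneousComponent 2 (X i ^ 2 : MvPolynomial (Fin k) ℂ) = X i ^ 2 := by
  rw [homogeneousComponent_of_mem ((mem_homogeneousSubmodule 2 _).2 (isHomogeneous_X_pow i 2))]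
  simp

lemma td_lin {k : ℕ} (a : ℂ) (i : Fin k) :
    (C a * X i : MvPolynomial (Fin k) ℂ).totalDegree ≤ 2 := by
  refine (totalDegree_mul _ _).trans ?_
  rw [totalDegree_C, totalDegree_X]
  norm_num

lemma td_sq {k : ℕ} (a : ℂ) (i : Fin k) :
    (C a * X i ^ 2 : MvPolynomial (Fin k) ℂ).totalDegree ≤ 2 := by
  refine (totalDegree_mul _ _).trans ?_
  rw [totalDegree_C, totalDegree_X_pow]

/-! ## The product Henon map -/

/-- `f(x₁, y₁, x₂, y₂) = (y₁/2, x₁/2 - y₁²/8, y₂/2, x₂/2 - y₂²/8)`. -/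
noncomputable def fF : PolyMap 4 :=
  ![C (1 / 2) * X 1, C (1 / 2) * X 0 + C (-(1 / 8)) * X 1 ^ 2,
    C (1 / 2) * X 3, C (1 / 2) * X 2 + C (-(1 / 8)) * X 3 ^ 2]

/-- The inverse map. -/
noncomputable def fB : PolyMap 4 :=
  ![C 2 * X 1 + C 1 * X 0 ^ 2, C 2 * X 0, C 2 * X 3 + C 1 * X 2 ^ 2, C 2 * X 2]

lemma fF_app (x : Fin 4 → ℂ) : fF.app x =
    ![x 1 / 2, x 0 / 2 - x 1 ^ 2 / 8, x 3 / 2, x 2 / 2 - x 3 ^ 2 / 8] := by
  ext i
  fin_cases i <;> simp [PolyMap.app, fF] <;> ring

lemma fB_app (x : Fin 4 → ℂ) : fB.app x =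
    ![2 * x 1 + x 0 ^ 2, 2 * x 0, 2 * x 3 + x 2 ^ 2, 2 * x 2] := by
  ext i
  fin_cases i <;> simp [PolyMap.app, fB]

/-- The automorphism `f = h × h`. -/
noncomputable def fA : PolyAut 4 where
  fwd := fF
  bwd := fB
  left_inv x := by
    rw [fF_app, fB_app]
    ext i
    fin_cases i <;> simp <;> ring
  right_inv x := by
    rw [fB_app, fF_app]
    ext i
    fin_cases i <;> simp <;> ring

lemma hc_fF (i : Fin 4) : homogeneousComponent 2 (fF i) =
    ![0, C (-(1 / 8)) * X 1 ^ 2, 0, C (-(1 / 8)) * X 3 ^ 2] i := by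
  fin_cases i
  · exact hc_lin _ _
  · change homogeneousComponent 2 (C (1 / 2) * X 0 + C (-(1 / 8)) * X 1 ^ 2) = C (-(1 / 8)) * X 1 ^ 2
    rw [map_add, hc_lin, homogeneousComponent_C_mul, hc_sq, zero_add]
  · exact hc_lin _ _
  · change homogeneousComponent 2 (C (1 / 2) * X 2 + C (-(1 / 8)) * X 3 ^ 2) = C (-(1 / 8)) * X 3 ^ 2
    rw [map_add, hc_lin, homogeneousComponent_C_mul, hc_sq, zero_add]

lemma hc_fB (i : Fin 4) : homogeneousComponent 2 (fB i) =
    ![C 1 * X 0 ^ 2, 0, C 1 * X 2 ^ 2, 0] i := by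
  fin_cases i
  · change homogeneousComponent 2 (C 2 * X 1 + C 1 * X 0 ^ 2) = C 1 * X 0 ^ 2
    rw [map_add, hc_lin, homogeneousComponent_C_mul, hc_sq, zero_add]
  · exact hc_lin _ _
  · change homogeneousComponent 2 (C 2 * X 3 + C 1 * X 2 ^ 2) = C 1 * X 2 ^ 2
    rw [map_add, hc_lin, homogeneousComponent_C_mul, hc_sq, zero_add]
  · exact hc_lin _ _

lemma deg_fF : fF.deg = 2 := by
  refine deg_eq fF (fun i => ?_) 1 ?_
  · fin_cases i
    · exact td_lin _ _
    · exact (totalDegree_add _ _).trans (max_le (td_lin _ _) (td_sq _ _))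
    · exact td_lin _ _
    · exact (totalDegree_add _ _).trans (max_le (td_lin _ _) (td_sq _ _))
  · rw [hc_fF]
    intro h
    have := congrArg (eval (fun _ => (1:ℂ))) h
    simp at this

lemma deg_fB : fB.deg = 2 := by
  refine deg_eq fB (fun i => ?_) 0 ?_
  · fin_cases i
    · exact (totalDegree_add _ _).trans (max_le (td_lin _ _) (td_sq _ _))
    · exact td_lin _ _
    · exact (totalDegree_add _ _).trans (max_le (td_lin _ _) (td_sq _ _))
    · exact td_lin _ _
  · rw [hc_fB]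
    intro h
    have := congrArg (eval (fun _ => (1:ℂ))) h
    simp at this

lemma indet_fF : fF.indet = {q : PS 4 | ∀ i : Fin 3, q.rep (![0, 2, 4] i) = 0} := by
  ext q
  change fF.homog q.rep = 0 ↔ _
  rw [homog_eq_zero_iff _ (by rw [deg_fF]; norm_num), deg_fF]
  simp only [hc_fF, Set.mem_ofPred_eq, Fin.forall_fin_succ]
  simp [Fin.tail]

lemma indet_fB : fB.indet = {q : PS 4 | ∀ i : Fin 3, q.rep (![0, 1, 3] i) = 0} := by
  ext q
  change fB.homog q.rep = 0 ↔ _
  rw [homog_eq_zero_iff _ (by rw [deg_fB]; norm_num), deg_fB]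
  simp only [hc_fB, Set.mem_ofPred_eq, Fin.forall_fin_succ]
  simp [Fin.tail]

end Pool.Agent.Helper33.Henon
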