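import Pool.Agent.Helper33.Henon.Zero
import Pool.Agent.Helper33.Henon.Poly

set_option autoImplicit false

open scoped LinearAlgebra.Projectivization Topology
open Set Filter

namespace Pool.Agent.Helper33.Henon

/-- `f = h × h` is of Henon type with `p = 2`. -/
theorem fA_henon : fA.IsHenonType 2 where
  not_proj := by
    rintro ⟨L, hL⟩
    have key : ∀ t : ℂ, ∃ c : ℂ, c ≠ 0 ∧
        (L (lift1 (0 : Fin 4 → ℂ)) + t • L (Pi.single 2 1)) = c • lift1 ![t / 2, - t ^ 2 / 8, 0, 0] := by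
      intro t
      obtain ⟨c, hc, hL1⟩ := hL ![0, t, 0, 0]
      refine ⟨c, hc, ?_⟩
      have e1 : (lift1 ![0, t, 0, 0] : V 4) = lift1 (0 : Fin 4 → ℂ) + t • Pi.single 2 1 := by
        have l : ∀ j : Fin 4, (lift1 (0 : Fin 4 → ℂ) : V 4) j.succ = 0 := fun j => rfl
        ext i
        refine Fin.cases ?_ (fun j => ?_) i
        · simp [lift1]
        · rw [Pi.add_apply, l j]
          change (![0, t, 0, 0] : Fin 4 → ℂ) j = _
          fin_cases j <;> simp
      have e2 : fA.fwd.app ![0, t, 0, 0] = ![t / 2, - t ^ 2 / 8, 0, 0] := by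
        change fF.app _ = _
        rw [fF_app]
        ext i
        fin_cases i <;> simp
        ring
      rw [e1, e2, map_add, map_smul] at hL1
      exact hL1
    set a := L (lift1 (0 : Fin 4 → ℂ)) with ha
    set b := L (Pi.single 2 1) with hb
    have h0 : ∀ t : ℂ, (a 0 + t * b 0) ≠ 0 ∧ a 2 + t * b 2 = (a 0 + t * b 0) * (- t ^ 2 / 8) := by
      intro t
      obtain ⟨c, hc, h⟩ := key t
      have e0 := congrFun h 0
      have e2 := congrFun h 2
      simp [lift1] at e0 e2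
      rw [e0]
      exact ⟨hc, e2⟩
    have i0 := (h0 0).2
    have i1 := (h0 1).2
    have i2 := (h0 (-1)).2
    have i3 := (h0 2).2
    apply (h0 0).1
    ring_nf at i0 i1 i2 i3 ⊢
    linear_combination (4:ℂ) * (i1 + i2 - 2 * i0)
  disj := by
    change Disjoint fF.indet fB.indet
    rw [indet_fF, indet_fB, Set.disjoint_left]
    intro q h1 h2
    apply q.rep_nonzero
    ext i
    have a0 := h1 0
    have a1 := h1 1
    have a2 := h1 2
    have b1 := h2 1
    have b2 := h2 2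
    fin_cases i
    · exact a0
    · exact b1
    · exact a1
    · exact b2
    · exact a2
  dim_fwd := by
    change HasDim fF.indet _
    rw [indet_fF]
    exact hasDim_coord _ (by decide) (by norm_num)
  dim_bwd := by
    change HasDim fB.indet _
    rw [indet_fB]
    exact hasDim_coord _ (by decide) (by norm_num)

/-- The embedding of the first factor. -/
noncomputable def iot : (ℂ × ℂ) →L[ℂ] (Fin 4 → ℂ) :=
  ContinuousLinearMap.pi ![ContinuousLinearMap.fst ℂ ℂ ℂ, ContinuousLinearMap.snd ℂ ℂ ℂ, 0, 0]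

lemma iot_apply (z : ℂ × ℂ) : iot z = ![z.1, z.2, 0, 0] := by
  ext i
  fin_cases i <;> simp [iot]

/-- The identification of `Fin 2 → ℂ` with `ℂ × ℂ`. -/
noncomputable def kap : (Fin 2 → ℂ) →L[ℂ] (ℂ × ℂ) :=
  (ContinuousLinearMap.proj 0).prod (ContinuousLinearMap.proj 1)

lemma kap_apply (w : Fin 2 → ℂ) : kap w = (w 0, w 1) := rfl

/-- The entire map `τ(w) = (Ψ(w), 0, 0)`. -/
noncomputable def tau (w : Fin 2 → ℂ) : Fin 4 → ℂ := iot (Psi (kap w))

lemma tau_differentiable : Differentiable ℂ tau :=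
  iot.differentiable.comp (differentiable_Psi.comp kap.differentiable)

lemma tau_nondeg : Function.Injective (fderiv ℂ tau 0) := by
  have h1 : HasFDerivAt Psi (ContinuousLinearMap.id ℂ (ℂ × ℂ)) (kap 0) := by
    rw [map_zero]
    exact hasFDerivAt_Psi_zero
  have h2 := iot.hasFDerivAt.comp (0 : Fin 2 → ℂ) (h1.comp (0 : Fin 2 → ℂ) kap.hasFDerivAt)
  have h3 : fderiv ℂ tau 0 = _ := h2.fderiv
  rw [h3]
  intro u v huv
  have huv' : iot (kap u) = iot (kap v) := huv
  rw [iot_apply, iot_apply] at huv'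
  have e0 := congrFun huv' 0
  have e1 := congrFun huv' 1
  ext i
  fin_cases i
  · exact e0
  · exact e1

lemma app_iot (z : ℂ × ℂ) : fA.fwd.app (iot z) = iot (hm z) := by
  change fF.app (iot z) = iot (hm z)
  rw [iot_apply, iot_apply, fF_app]
  ext i
  fin_cases i <;> simp [hm]

lemma app_iter_iot (n : ℕ) (z : ℂ × ℂ) : fA.fwd.app^[n] (iot z) = iot (hm^[n] z) := by
  induction n with
  | zero => rfl
  | succ n ih => rw [Function.iterate_succ_apply', ih, app_iot, Function.iterate_succ_apply']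

lemma tau_mem_K (w : Fin 2 → ℂ) : tau w ∈ fA.K := by
  obtain ⟨C, hC⟩ := bounded_Psi (kap w)
  change Bornology.IsBounded (Set.range fun n : ℕ => fA.fwd.app^[n] (tau w))
  rw [isBounded_iff_forall_norm_le]
  refine ⟨‖iot‖ * C, ?_⟩
  rintro _ ⟨n, rfl⟩
  simp only [tau, app_iter_iot]
  exact (iot.le_opNorm _).trans (mul_le_mul_of_nonneg_left (hC n) (norm_nonneg _))

lemma tP_tau (w : Fin 2 → ℂ) : (1 / 257 : ℝ) ≤ tP J01 (lift1 (tau w)) := by
  have h := bounded_subset (bounded_Psi (kap w))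
  set z := Psi (kap w) with hz
  have e1 : NJ J01 (lift1 (tau w)) = 1 + ‖z.1‖ ^ 2 := by
    rw [NJ_apply, J01, Finset.sum_pair (by decide), tau, iot_apply]
    simp [lift1, hz]
  have e2 : N (lift1 (tau w)) = 1 + ‖z.1‖ ^ 2 + ‖z.2‖ ^ 2 := by
    rw [N, tau, iot_apply]
    simp [lift1, hz, Fin.sum_univ_succ]
    ring
  rw [tP, e1, e2, le_div_iff₀ (by positivity)]
  have h3 : ‖z.2‖ ^ 2 ≤ 256 + ‖z.1‖ ^ 2 := by
    rcases le_max_iff.1 h with h4 | h4
    · nlinarith [norm_nonneg z.2, sq_nonneg ‖z.1‖]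
    · nlinarith [norm_nonneg z.2, norm_nonneg z.1]
  nlinarith [sq_nonneg ‖z.1‖]

lemma closure_tau (q : PS 4) (hq : q ∈ closure (Set.range (emb ∘ tau))) :
    (1 / 257 : ℝ) ≤ tP J01 q.rep := by
  have hcl : IsClosed {q : PS 4 | (1 / 257 : ℝ) ≤ tP J01 q.rep} :=
    isClosed_le continuous_const (continuous_tP J01)
  refine closure_minimal ?_ hcl hq
  rintro _ ⟨w, rfl⟩
  obtain ⟨c, hc, hcz⟩ := rep_eq (lift1 (tau w)) (lift1_ne_zero _)
  change (1 / 257 : ℝ) ≤ tP J01 (Projectivization.mk ℂ (lift1 (tau w)) (lift1_ne_zero _)).rep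
  rw [hcz, tP_smul J01 hc]
  exact tP_tau w

end Pool.Agent.Helper33.Henon
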