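import Pool.Agent.Helper33.Henon.Defs

set_option autoImplicit false

open scoped ContDiff LinearAlgebra.Projectivization ComplexConjugate Topology
open Set Filter

namespace Pool.Agent.Helper33.Henon

/-- The complex vector space of smooth `r`-forms on `ℙᵏ`. -/
def smoothForms (k r : ℕ) : Submodule ℂ (Form k r) where
  carrier := {α | IsSmoothForm α}
  add_mem' := by
    rintro α β ⟨h1, h2, h3, h4⟩ ⟨h1', h2', h3', h4'⟩
    refine ⟨by simp [h1, h1'], h2.add h2', fun c hc z hz v => ?_, fun z hz v hv => ?_⟩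
    · simp [h3 c hc z hz v, h3' c hc z hz v]
    · simp [h4 z hz v hv, h4' z hz v hv]
  zero_mem' := ⟨rfl, contDiffOn_const, fun _ _ _ _ _ => rfl, fun _ _ _ _ => rfl⟩
  smul_mem' := by
    rintro a α ⟨h1, h2, h3, h4⟩
    refine ⟨by simp [h1], h2.const_smul a, fun c hc z hz v => ?_, fun z hz v hv => ?_⟩
    · simp [h3 c hc z hz v]
    · simp [h4 z hz v hv]

/-- `T` vanishes on the open set `U` (linear functional version). -/
def VanishesOnL {k r : ℕ} (T : smoothForms k r →ₗ[ℂ] ℂ) (U : Set (PS k)) : Prop :=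
  ∀ α : smoothForms k r, formSupport (α : Form k r) ⊆ U → T α = 0

/-- The support of `T` (linear functional version). -/
def curSupportL {k r : ℕ} (T : smoothForms k r →ₗ[ℂ] ℂ) : Set (PS k) :=
  {q | ∀ U : Set (PS k), IsOpen U → q ∈ U → ¬ VanishesOnL T U}

/-- The linear functional of a current. -/
noncomputable def Cur.toLin {k r : ℕ} (T : Cur k r) : smoothForms k r →ₗ[ℂ] ℂ where
  toFun α := T.ev ⟨α, α.2⟩
  map_add' α β := T.ev_add _ _ _ fun _ _ => rfl
  map_smul' c α := T.ev_smul c _ _ fun _ _ => rfl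

lemma curSupportL_toLin {k r : ℕ} (T : Cur k r) : curSupportL T.toLin = curSupport T := by
  have h : ∀ U : Set (PS k), VanishesOnL T.toLin U ↔ VanishesOn T U := by
    intro U
    constructor
    · intro h α hα
      exact h ⟨α.form, α.smooth⟩ hα
    · intro h α hα
      exact h ⟨α, α.2⟩ hα
  ext q
  simp only [curSupportL, curSupport, h]

lemma two_le_infty : minSmoothness ℝ 2 ≤ ∞ := by
  rw [minSmoothness_of_isRCLikeNormedField]
  exact WithTop.coe_le_coe.2 (le_top : (2:ℕ∞) ≤ ⊤)

section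
variable {k r : ℕ}

lemma smul_zero_form (t : ℝ) : t • (0 : (V k) [⋀^Fin r]→L[ℝ] ℂ) = 0 := by ext v; simp

lemma mem_smoothForms {α : Form k r} : α ∈ smoothForms k r ↔ (α 0 = 0 ∧ ContDiffOn ℝ ∞ α {0}ᶜ ∧
    (∀ c : ℂ, c ≠ 0 → ∀ z : V k, z ≠ 0 → ∀ v : Fin r → V k,
      α (c • z) (fun i => c • v i) = α z v) ∧
    (∀ z : V k, z ≠ 0 → ∀ v : Fin r → V k, (∃ i, ∃ c : ℂ, v i = c • z) → α z v = 0)) := Iff.rfl

/-- Functions on `ℙᵏ`: smooth functions on `ℂ^{k+1} ∖ 0` invariant under homotheties. -/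
def IsFun (χ : V k → ℝ) : Prop :=
  ContDiffOn ℝ ∞ χ {0}ᶜ ∧ ∀ c : ℂ, c ≠ 0 → ∀ z : V k, z ≠ 0 → χ (c • z) = χ z

lemma isOpen_compl_zero : IsOpen ({0}ᶜ : Set (V k)) := isOpen_compl_singleton

/-- Multiplication of a form by a function. -/
lemma IsFun.smul_mem {χ : V k → ℝ} (hχ : IsFun χ) {α : Form k r} (hα : α ∈ smoothForms k r) :
    (fun z => χ z • α z) ∈ smoothForms k r := by
  obtain ⟨h1, h2, h3, h4⟩ := hα
  refine ⟨?_, hχ.1.smul h2, fun c hc z hz v => ?_, fun z hz v hv => ?_⟩
  · simp only [h1]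
    exact smul_zero_form _
  · simp [h3 c hc z hz v, hχ.2 c hc z hz]
  · simp [h4 z hz v hv]

/-- The values of a form on `ℙᵏ` do not depend on adding vertical vectors. -/
lemma map_add_vertical {α : Form k r} (hα : α ∈ smoothForms k r) {z : V k} (hz : z ≠ 0)
    (v : Fin r → V k) (c : Fin r → ℂ) : α z (fun i => v i + c i • z) = α z v := by
  obtain ⟨h1, h2, h3, h4⟩ := hα
  have h := (α z).toMultilinearMap.map_add_univ v (fun i => c i • z)
  have h' : α z (fun i => v i + c i • z) = ∑ s : Finset (Fin r),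
      α z (s.piecewise v (fun i => c i • z)) := h
  rw [h', Finset.sum_eq_single Finset.univ]
  · simp
  · intro s _ hs
    obtain ⟨i, hi⟩ : ∃ i, i ∉ s := by
      by_contra hcon
      push Not at hcon
      exact hs (Finset.eq_univ_iff_forall.2 hcon)
    apply h4 z hz
    exact ⟨i, c i, by simp [Finset.piecewise_eq_of_notMem _ _ _ hi]⟩
  · intro h
    exact absurd (Finset.mem_univ _) h

/-- The exterior derivative, normalised at `0`. -/
noncomputable def dF (γ : Form k r) : Form k (r + 1) := fun z => if z = 0 then 0 else extDeriv γ z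

lemma dF_apply {γ : Form k r} {z : V k} (hz : z ≠ 0) : dF γ z = extDeriv γ z := if_neg hz

lemma differentiableAt_of_mem {γ : Form k r} (hγ : γ ∈ smoothForms k r) {z : V k} (hz : z ≠ 0) :
    ContDiffAt ℝ ∞ γ z := hγ.2.1.contDiffAt (isOpen_compl_zero.mem_nhds hz)

lemma extDeriv_smooth {γ : Form k r} (hγ : ContDiffOn ℝ ∞ γ {0}ᶜ) :
    ContDiffOn ℝ ∞ (extDeriv γ) {0}ᶜ := by
  have h1 : ContDiffOn ℝ ∞ (fun z => fderiv ℝ γ z) {0}ᶜ :=
    hγ.fderiv_of_isOpen isOpen_compl_zero (by simp)
  exact (ContinuousAlternatingMap.alternatizeUncurryFinCLM ℝ (V k) ℂ).contDiff.comp_contDiffOn h1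

lemma dF_mem {γ : Form k r} (hγ : γ ∈ smoothForms k r) : dF γ ∈ smoothForms k (r + 1) := by
  have hγ' := hγ
  obtain ⟨h1, h2, h3, h4⟩ := hγ
  refine ⟨if_pos rfl, ?_, ?_, ?_⟩
  · exact (extDeriv_smooth h2).congr fun z hz => dF_apply hz
  · intro c hc z hz v
    have hcz : c • z ≠ 0 := smul_ne_zero hc hz
    rw [dF_apply hcz, dF_apply hz]
    let L : V k →L[ℝ] V k := (c • ContinuousLinearMap.id ℂ (V k)).restrictScalars ℝ
    have hL : ∀ x, L x = c • x := fun x => rfl
    have hd : DifferentiableAt ℝ γ (L z) :=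
      (differentiableAt_of_mem hγ' hcz).differentiableAt (by simp)
    have hpull := extDeriv_pullback (f := fun x => L x) (x := z) (r := ∞)
      hd L.contDiff.contDiffAt two_le_infty
    have hfd : ∀ x, fderiv ℝ (fun x => L x) x = L := fun x => L.fderiv
    simp only [hfd] at hpull
    have heq : (fun x => (γ (L x)).compContinuousLinearMap L) =ᶠ[𝓝 z] γ := by
      filter_upwards [isOpen_compl_zero.mem_nhds hz] with x hx
      ext w
      exact h3 c hc x hx w
    rw [heq.extDeriv_eq] at hpull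
    rw [hpull]
    rfl
  · intro z hz v ⟨i, c, hi⟩
    rw [dF_apply hz]
    -- pull back under `(s, x) ↦ s x`
    let F : ℂ × V k → V k := fun p => p.1 • p.2
    have hF : ContDiff ℝ ∞ F := contDiff_fst.smul contDiff_snd
    have hFz : F (1, z) = z := one_smul _ _
    have hFd : ∀ p : ℂ × V k, ∀ q : ℂ × V k, fderiv ℝ F p q = p.1 • q.2 + q.1 • p.2 := by
      intro p q
      have := (hasFDerivAt_fst (𝕜 := ℝ) (p := p)).smul (hasFDerivAt_snd (𝕜 := ℝ) (p := p))
      have h' : fderiv ℝ F p = _ := this.fderiv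
      rw [h']
      simp
    have hd : DifferentiableAt ℝ γ z :=
      (differentiableAt_of_mem hγ' hz).differentiableAt (by simp)
    have hd1 : DifferentiableAt ℝ γ (F (1, z)) := by rw [hFz]; exact hd
    have hpull := extDeriv_pullback (f := F) (x := (1, z)) (r := ∞)
      hd1 hF.contDiffAt two_le_infty
    have hd2 : DifferentiableAt ℝ γ ((fun p : ℂ × V k => p.2) (1, z)) := hd
    have hpull2 := extDeriv_pullback (f := fun p : ℂ × V k => p.2) (x := (1, z)) (r := ∞)
      hd2 contDiff_snd.contDiffAt two_le_infty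
    have heq : (fun p => (γ (F p)).compContinuousLinearMap (fderiv ℝ F p)) =ᶠ[𝓝 (1, z)]
        (fun p : ℂ × V k => (γ p.2).compContinuousLinearMap
          (fderiv ℝ (fun p : ℂ × V k => p.2) p)) := by
      have ho : IsOpen {p : ℂ × V k | p.1 ≠ 0 ∧ p.2 ≠ 0} :=
        (isOpen_ne_fun continuous_fst continuous_const).inter
          (isOpen_ne_fun continuous_snd continuous_const)
      filter_upwards [ho.mem_nhds ⟨one_ne_zero, hz⟩] with p hp
      ext w
      have e1 : fderiv ℝ (fun p : ℂ × V k => p.2) p = ContinuousLinearMap.snd ℝ ℂ (V k) :=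
        fderiv_snd
      simp only [ContinuousAlternatingMap.compContinuousLinearMap_apply, e1]
      have e2 : (fun i => fderiv ℝ F p (w i)) =
          fun i => p.1 • ((w i).2 + ((w i).1 * p.1⁻¹) • p.2) := by
        ext i
        rw [hFd, smul_add, smul_smul]
        congr 3
        field_simp [hp.1]
      have e3 : (⇑(fderiv ℝ F p) ∘ w) =
          fun i => p.1 • ((w i).2 + ((w i).1 * p.1⁻¹) • p.2) := e2
      rw [e3]
      change γ (p.1 • p.2) _ = _
      rw [h3 p.1 hp.1 p.2 hp.2, map_add_vertical hγ' hp.2]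
      rfl
    rw [heq.extDeriv_eq, hpull2] at hpull
    -- evaluate on suitable vectors
    let u : Fin (r + 1) → ℂ × V k := fun j => if j = i then (c, 0) else (0, v j)
    have hu := congrArg (fun A => A u) hpull
    simp only [ContinuousAlternatingMap.compContinuousLinearMap_apply] at hu
    have e1 : (⇑(fderiv ℝ F (1, z)) ∘ u) = v := by
      ext1 j
      simp only [Function.comp_apply, hFd, u]
      by_cases hj : j = i
      · subst hj
        simp [hi]
      · simp [hj]
    rw [e1, hFz] at hu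
    rw [← hu]
    apply ContinuousAlternatingMap.map_coord_zero _ i
    have e2 : fderiv ℝ (fun p : ℂ × V k => p.2) (1, z) = ContinuousLinearMap.snd ℝ ℂ (V k) :=
      fderiv_snd
    rw [e2]
    simp [u]

/-- Exterior derivative as an element of `smoothForms`. -/
noncomputable def dForm (γ : smoothForms k r) : smoothForms k (r + 1) := ⟨dF γ, dF_mem γ.2⟩

/-- Multiplication of a smooth form with a function. -/
noncomputable def mulForm {χ : V k → ℝ} (hχ : IsFun χ) (α : smoothForms k r) : smoothForms k r :=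
  ⟨fun z => χ z • (α : Form k r) z, hχ.smul_mem α.2⟩

end

end Pool.Agent.Helper33.Henon
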