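import Pool.Agent.Helper33.Henon.Vanish

set_option autoImplicit false

open scoped ContDiff LinearAlgebra.Projectivization ComplexConjugate Topology
open Set Filter

namespace Pool.Agent.Helper33.Henon

section
variable {k : ℕ} (A : (V k) [⋀^Fin 4]→L[ℝ] ℂ)

lemma upd0 (a b c d x : V k) : Function.update ![a, b, c, d] 0 x = ![x, b, c, d] := by
  ext i j; fin_cases i <;> rfl
lemma upd1 (a b c d x : V k) : Function.update ![a, b, c, d] 1 x = ![a, x, c, d] := by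
  ext i j; fin_cases i <;> rfl
lemma upd2 (a b c d x : V k) : Function.update ![a, b, c, d] 2 x = ![a, b, x, d] := by
  ext i j; fin_cases i <;> rfl
lemma upd3 (a b c d x : V k) : Function.update ![a, b, c, d] 3 x = ![a, b, c, x] := by
  ext i j; fin_cases i <;> rfl

lemma A_add0 (a a' b c d : V k) : A ![a + a', b, c, d] = A ![a, b, c, d] + A ![a', b, c, d] := by
  have := A.map_update_add ![a, b, c, d] 0 a a'
  rwa [upd0, upd0, upd0] at this
lemma A_add1 (a b b' c d : V k) : A ![a, b + b', c, d] = A ![a, b, c, d] + A ![a, b', c, d] := by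
  have := A.map_update_add ![a, b, c, d] 1 b b'
  rwa [upd1, upd1, upd1] at this
lemma A_add2 (a b c c' d : V k) : A ![a, b, c + c', d] = A ![a, b, c, d] + A ![a, b, c', d] := by
  have := A.map_update_add ![a, b, c, d] 2 c c'
  rwa [upd2, upd2, upd2] at this
lemma A_add3 (a b c d d' : V k) : A ![a, b, c, d + d'] = A ![a, b, c, d] + A ![a, b, c, d'] := by
  have := A.map_update_add ![a, b, c, d] 3 d d'
  rwa [upd3, upd3, upd3] at this

lemma A_smul0 (r : ℝ) (a b c d : V k) : A ![r • a, b, c, d] = (r : ℂ) * A ![a, b, c, d] := by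
  have := A.map_update_smul ![a, b, c, d] 0 r a
  rwa [upd0, upd0, Complex.real_smul] at this
lemma A_smul1 (r : ℝ) (a b c d : V k) : A ![a, r • b, c, d] = (r : ℂ) * A ![a, b, c, d] := by
  have := A.map_update_smul ![a, b, c, d] 1 r b
  rwa [upd1, upd1, Complex.real_smul] at this
lemma A_smul2 (r : ℝ) (a b c d : V k) : A ![a, b, r • c, d] = (r : ℂ) * A ![a, b, c, d] := by
  have := A.map_update_smul ![a, b, c, d] 2 r c
  rwa [upd2, upd2, Complex.real_smul] at this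
lemma A_smul3 (r : ℝ) (a b c d : V k) : A ![a, b, c, r • d] = (r : ℂ) * A ![a, b, c, d] := by
  have := A.map_update_smul ![a, b, c, d] 3 r d
  rwa [upd3, upd3, Complex.real_smul] at this

lemma A_eq01 (a c d : V k) : A ![a, a, c, d] = 0 :=
  A.map_eq_zero_of_eq _ (show ![a, a, c, d] 0 = ![a, a, c, d] 1 from rfl) (by decide)
lemma A_eq02 (a b d : V k) : A ![a, b, a, d] = 0 :=
  A.map_eq_zero_of_eq _ (show ![a, b, a, d] 0 = ![a, b, a, d] 2 from rfl) (by decide)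
lemma A_eq03 (a b c : V k) : A ![a, b, c, a] = 0 :=
  A.map_eq_zero_of_eq _ (show ![a, b, c, a] 0 = ![a, b, c, a] 3 from rfl) (by decide)
lemma A_eq12 (a b d : V k) : A ![a, b, b, d] = 0 :=
  A.map_eq_zero_of_eq _ (show ![a, b, b, d] 1 = ![a, b, b, d] 2 from rfl) (by decide)
lemma A_eq13 (a b c : V k) : A ![a, b, c, b] = 0 :=
  A.map_eq_zero_of_eq _ (show ![a, b, c, b] 1 = ![a, b, c, b] 3 from rfl) (by decide)
lemma A_eq23 (a b c : V k) : A ![a, b, c, c] = 0 :=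
  A.map_eq_zero_of_eq _ (show ![a, b, c, c] 2 = ![a, b, c, c] 3 from rfl) (by decide)

lemma A_swap01 (a b c d : V k) : A ![b, a, c, d] = - A ![a, b, c, d] := by
  have h := A_eq01 A (a + b) c d
  rw [A_add0, A_add1, A_add1, A_eq01, A_eq01, zero_add, add_zero] at h
  linear_combination h

lemma A_swap02 (a b c d : V k) : A ![c, b, a, d] = - A ![a, b, c, d] := by
  have h := A_eq02 A (a + c) b d
  rw [A_add0, A_add2, A_add2, A_eq02, A_eq02, zero_add, add_zero] at h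
  linear_combination h

lemma A_swap13 (a b c d : V k) : A ![a, d, c, b] = - A ![a, b, c, d] := by
  have h := A_eq13 A a (b + d) c
  rw [A_add1, A_add3, A_add3, A_eq13, A_eq13, zero_add, add_zero] at h
  linear_combination h

lemma A_swap_pairs (a b c d : V k) : A ![c, d, a, b] = A ![a, b, c, d] := by
  rw [A_swap02, A_swap13, neg_neg]

lemma csmul_eq (l : ℂ) (a : V k) : l • a = l.re • a + l.im • (Complex.I • a) := by
  ext j
  simp only [Pi.smul_apply, Pi.add_apply, smul_eq_mul, Complex.real_smul]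
  conv_lhs => rw [← Complex.re_add_im l]
  ring

lemma csmul_eq' (l : ℂ) (a : V k) :
    l • (Complex.I • a) = l.re • (Complex.I • a) + (-l.im) • a := by
  ext j
  simp only [Pi.smul_apply, Pi.add_apply, smul_eq_mul, Complex.real_smul]
  conv_lhs => rw [← Complex.re_add_im l]
  push_cast
  linear_combination (l.im * a j : ℂ) * Complex.I_mul_I

/-- `Q(a, b) = A(a, i a, b, i b)`. -/
noncomputable def Q (a b : V k) : ℂ := A ![a, Complex.I • a, b, Complex.I • b]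

lemma Q_symm (a b : V k) : Q A b a = Q A a b := A_swap_pairs A _ _ _ _

lemma Q_smul (l : ℂ) (a b : V k) : Q A (l • a) b = ((‖l‖ ^ 2 : ℝ) : ℂ) * Q A a b := by
  have e : Complex.I • l • a = l • (Complex.I • a) := smul_comm _ _ _
  rw [Q, Q, e, csmul_eq l a, csmul_eq' l a]
  simp only [A_add0, A_add1, A_smul0, A_smul1, A_eq01, A_swap01 A a (Complex.I • a)]
  have : ‖l‖ ^ 2 = l.re * l.re + l.im * l.im := by
    rw [← Complex.normSq_eq_norm_sq, Complex.normSq_apply]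
  rw [this]
  push_cast
  ring

lemma Q_add (a b : V k) (l : ℂ) : Q A (a + l • b) b = Q A a b := by
  have e : Complex.I • (a + l • b) = Complex.I • a + l • (Complex.I • b) := by
    rw [smul_add, smul_comm]
  rw [Q, Q, e, csmul_eq l b, csmul_eq' l b]
  simp only [A_add0, A_add1, A_smul0, A_smul1, A_eq01, A_eq02, A_eq03, A_eq12, A_eq13,
    A_eq23]
  ring

lemma Q_add' (a b : V k) (l : ℂ) : Q A a (b + l • a) = Q A a b := by
  rw [Q_symm, Q_add, Q_symm]

lemma Q_smul' (l : ℂ) (a b : V k) : Q A a (l • b) = ((‖l‖ ^ 2 : ℝ) : ℂ) * Q A a b := by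
  rw [Q_symm, Q_smul, Q_symm]

/-- Vertical vectors do not matter. -/
lemma Q_vert {z : V k} (hz : ∀ v : Fin 4 → V k, (∃ i, ∃ c : ℂ, v i = c • z) → A v = 0)
    (a b : V k) (l : ℂ) : Q A (a + l • z) b = Q A a b := by
  have e : Complex.I • (a + l • z) = Complex.I • a + (Complex.I * l) • z := by
    rw [smul_add, smul_smul]
  have h0 : ∀ (c : ℂ) (y u v : V k), A ![c • z, y, u, v] = 0 := fun c y u v =>
    hz _ ⟨0, c, rfl⟩
  have h1 : ∀ (c : ℂ) (y u v : V k), A ![y, c • z, u, v] = 0 := fun c y u v =>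
    hz _ ⟨1, c, rfl⟩
  rw [Q, Q, e, A_add0, A_add1, A_add1, h0, h1, h0]
  ring

lemma Q_vert' {z : V k} (hz : ∀ v : Fin 4 → V k, (∃ i, ∃ c : ℂ, v i = c • z) → A v = 0)
    (a b : V k) (l : ℂ) : Q A a (b + l • z) = Q A a b := by
  rw [Q_symm, Q_vert A hz, Q_symm]

lemma norm_Q_le {M : ℝ} (hM : ∀ v : Fin 4 → V k, ‖A v‖ ≤ M * ∏ i, ‖v i‖) (a b : V k) :
    ‖Q A a b‖ ≤ M * (‖a‖ ^ 2 * ‖b‖ ^ 2) := by
  have h := hM ![a, Complex.I • a, b, Complex.I • b]
  have e : ∏ i, ‖(![a, Complex.I • a, b, Complex.I • b] : Fin 4 → V k) i‖ = ‖a‖ ^ 2 * ‖b‖ ^ 2 := by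
    rw [Fin.prod_univ_four]
    simp [norm_smul]
    ring
  rwa [e] at h

/-- The bound for horizontal forms of degree four on `ℂ³`, in the affine chart. -/
lemma hor_bound (A : (V 2) [⋀^Fin 4]→L[ℝ] ℂ) (e0 e1 e2 : V 2) (h0 : ‖e0‖ ≤ 1) (h1 : ‖e1‖ ≤ 1)
    (h2 : ‖e2‖ ≤ 1) (c1 c2 : ℂ)
    (hz : ∀ v : Fin 4 → V 2, (∃ i, ∃ c : ℂ, v i = c • (e0 + c1 • e1 + c2 • e2)) → A v = 0)
    {M : ℝ} (hM0 : 0 ≤ M) (hM : ∀ v : Fin 4 → V 2, ‖A v‖ ≤ M * ∏ i, ‖v i‖) :
    ‖Q A e1 e2‖ * (1 + ‖c1‖ ^ 2 + ‖c2‖ ^ 2) ≤ 3 * M := by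
  set z := e0 + c1 • e1 + c2 • e2 with hzdef
  have hb : ∀ a b : V 2, ‖a‖ ≤ 1 → ‖b‖ ≤ 1 → ‖Q A a b‖ ≤ M := by
    intro a b ha hb
    refine (norm_Q_le A hM a b).trans ?_
    have h3 : ‖a‖ ^ 2 ≤ 1 := pow_le_one₀ (norm_nonneg _) ha
    have h4 : ‖b‖ ^ 2 ≤ 1 := pow_le_one₀ (norm_nonneg _) hb
    have h5 : ‖a‖ ^ 2 * ‖b‖ ^ 2 ≤ 1 := mul_le_one₀ h3 (by positivity) h4
    nlinarith
  have k1 : ((‖c1‖ ^ 2 : ℝ) : ℂ) * Q A e1 e2 = Q A e0 e2 := by
    rw [← Q_smul]
    have e : c1 • e1 = (-1 : ℂ) • e0 + (-c2) • e2 + (1 : ℂ) • z := by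
      rw [hzdef]
      module
    rw [e, Q_vert A hz, Q_add, Q_smul]
    simp
  have k2 : ((‖c2‖ ^ 2 : ℝ) : ℂ) * Q A e1 e2 = Q A e1 e0 := by
    rw [← Q_smul']
    have e : c2 • e2 = (-1 : ℂ) • e0 + (-c1) • e1 + (1 : ℂ) • z := by
      rw [hzdef]
      module
    rw [e, Q_vert' A hz, Q_add', Q_smul']
    simp
  have n1 : ‖c1‖ ^ 2 * ‖Q A e1 e2‖ ≤ M := by
    have := congrArg norm k1
    rw [norm_mul, Complex.norm_real, Real.norm_eq_abs, abs_of_nonneg (by positivity)] at this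
    rw [this]
    exact hb _ _ h0 h2
  have n2 : ‖c2‖ ^ 2 * ‖Q A e1 e2‖ ≤ M := by
    have := congrArg norm k2
    rw [norm_mul, Complex.norm_real, Real.norm_eq_abs, abs_of_nonneg (by positivity)] at this
    rw [this]
    exact hb _ _ h1 h0
  have n0 := hb _ _ h1 h2
  linarith

end

end Pool.Agent.Helper33.Henon
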