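import Pool.Agent.Helper33.Henon.Seq

set_option autoImplicit false

open scoped ContDiff LinearAlgebra.Projectivization ComplexConjugate Topology
open Set Filter MeasureTheory

namespace Pool.Agent.Helper33.Henon

/-- The approximating functionals. -/
noncomputable def tn (n : ℕ) (α : Form 4 4) : ℂ :=
  (∫ x, dens (pull (Ph n) α) x) / (mas n : ℂ)

lemma pull_dens (n : ℕ) (α : Form 4 4) (x : ℂ × ℂ) : dens (pull (Ph n) α) x =
    Q (α (Ph n (pt x))) (fderiv ℝ (Ph n) (pt x) b1) (fderiv ℝ (Ph n) (pt x) b2) :=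
  (homMap_Ph n).dens_pull α x

lemma Ph_pt_ne (n : ℕ) (x : ℂ × ℂ) : Ph n (pt x) ≠ 0 := (homMap_Ph n).ne _ (pt_ne_zero x)

lemma tn_bound {α : Form 4 4} (hα : α ∈ smoothForms 4 4) : ∃ C, ∀ n, ‖tn n α‖ ≤ C := by
  obtain ⟨C, hC0, hC⟩ := wirtinger hα
  refine ⟨C * Real.pi ^ 2 / 2, fun n => ?_⟩
  have hm := mas_pos n
  have h1 : ∀ x, ‖dens (pull (Ph n) α) x‖ ≤ (C * Real.pi ^ 2 / 2) * md n x := by
    intro x
    rw [pull_dens]
    refine (hC _ (Ph_pt_ne n x) _ _).trans (le_of_eq ?_)
    have hN := (N_pos (Ph_pt_ne n x)).ne'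
    have hpi := Real.pi_ne_zero
    rw [md]
    field_simp
  have h2 : ‖∫ x, dens (pull (Ph n) α) x‖ ≤ (C * Real.pi ^ 2 / 2) * mas n := by
    rw [mas, ← integral_const_mul]
    exact norm_integral_le_of_norm_le ((integrable_md n).const_mul _) (Eventually.of_forall h1)
  rw [tn, norm_div, Complex.norm_real, Real.norm_eq_abs, abs_of_pos hm, div_le_iff₀ hm]
  exact h2

lemma exists_lim {α : Form 4 4} (hα : α ∈ smoothForms 4 4) :
    ∃ l : ℂ, Tendsto (fun n => tn n α) (hyperfilter ℕ : Filter ℕ) (𝓝 l) := by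
  obtain ⟨C, hC⟩ := tn_bound hα
  have hK : IsCompact (Metric.closedBall (0:ℂ) C) := isCompact_closedBall _ _
  have hle : (((hyperfilter ℕ).map fun n => tn n α : Ultrafilter ℂ) : Filter ℂ) ≤
      𝓟 (Metric.closedBall (0:ℂ) C) := by
    rw [le_principal_iff, Ultrafilter.coe_map, mem_map]
    exact Eventually.of_forall fun n => by simpa using hC n
  obtain ⟨l, _, hl⟩ := hK.ultrafilter_le_nhds _ hle
  exact ⟨l, hl⟩

/-- The limit functional. -/
noncomputable def evT (α : SForm 4 4) : ℂ := Classical.choose (exists_lim (α := α.form) α.smooth)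

lemma evT_lim (α : SForm 4 4) :
    Tendsto (fun n => tn n α.form) (hyperfilter ℕ : Filter ℕ) (𝓝 (evT α)) :=
  Classical.choose_spec (exists_lim (α := α.form) α.smooth)

lemma evT_eq {α : SForm 4 4} {l : ℂ}
    (h : Tendsto (fun n => tn n α.form) (hyperfilter ℕ : Filter ℕ) (𝓝 l)) : evT α = l :=
  tendsto_nhds_unique (evT_lim α) h

lemma evT_eq_zero {α : SForm 4 4} (h : ∀ n, tn n α.form = 0) : evT α = 0 := by
  apply evT_eq
  simp only [h]
  exact tendsto_const_nhds

/-- The Green current. -/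
noncomputable def TG : Cur 4 (2 * (4 - 2)) where
  ev := evT
  ev_add α β γ h := by
    apply evT_eq
    have e : ∀ n, tn n γ.form = tn n α.form + tn n β.form := by
      intro n
      have h1 : ∀ x, dens (pull (Ph n) γ.form) x =
          dens (pull (Ph n) α.form) x + dens (pull (Ph n) β.form) x := by
        intro x
        rw [pull_dens, pull_dens, pull_dens]
        exact h _ _
      rw [tn, tn, tn]
      simp only [h1]
      rw [integral_add (integrable_dens ((homMap_Ph n).pull_mem α.smooth))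
        (integrable_dens ((homMap_Ph n).pull_mem β.smooth)), add_div]
    simp only [e]
    exact (evT_lim α).add (evT_lim β)
  ev_smul c α β h := by
    apply evT_eq
    have e : ∀ n, tn n β.form = c * tn n α.form := by
      intro n
      have h1 : ∀ x, dens (pull (Ph n) β.form) x = c * dens (pull (Ph n) α.form) x := by
        intro x
        rw [pull_dens, pull_dens]
        exact h _ _
      rw [tn, tn]
      simp only [h1]
      rw [integral_const_mul, mul_div_assoc]
    simp only [e]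
    exact (evT_lim α).const_mul c

/-- `Q` vanishes on forms of type different from `(2, 2)`. -/
lemma Q_type {α : Form 4 4} {p q : ℕ} (hpq : p + q = 4) (hne : p ≠ q)
    (hα : IsOfType (k := 4) (r := 4) p q α) {Z : V 4} (hZ : Z ≠ 0) (a b : V 4) :
    Q (α Z) a b = 0 := by
  have key : ∀ c : ℂ, ‖c‖ = 1 → c ^ p * (conj c) ^ q = -1 → Q (α Z) a b = 0 := by
    intro c hc hc1
    have h1 : Q (α Z) (c • a) (c • b) = Q (α Z) a b := by
      rw [Q_smul, Q_smul', hc]
      simp
    have h2 : Q (α Z) (c • a) (c • b) = c ^ p * (conj c) ^ q * Q (α Z) a b := by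
      rw [Q, Q, ← hα Z hZ c]
      congr 1
      ext1 i
      fin_cases i
      · rfl
      · exact smul_comm _ _ _
      · rfl
      · exact smul_comm _ _ _
    rw [hc1, h1] at h2
    linear_combination (1 / 2 : ℂ) * h2
  have hI2 : Complex.I ^ 2 = -1 := Complex.I_sq
  have hI3 : Complex.I ^ 3 = -Complex.I := by rw [pow_succ, hI2]; ring
  let ζ : ℂ := Complex.exp (((Real.pi / 4 : ℝ) : ℂ) * Complex.I)
  have hζ : ‖ζ‖ = 1 := Complex.norm_exp_ofReal_mul_I _
  have hζ4 : ζ ^ 4 = -1 := by
    have : ζ ^ 4 = Complex.exp (Real.pi * Complex.I) := by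
      rw [← Complex.exp_nat_mul]
      congr 1
      push_cast
      ring
    rw [this, Complex.exp_pi_mul_I]
  have hζ4' : (conj ζ) ^ 4 = -1 := by rw [← map_pow, hζ4]; simp
  have hp : p ≤ 4 := by omega
  interval_cases p
  · obtain rfl : q = 4 := by omega
    exact key ζ hζ (by rw [hζ4']; ring)
  · obtain rfl : q = 3 := by omega
    refine key Complex.I (by simp) ?_
    rw [Complex.conj_I, Odd.neg_pow (by decide), hI3]
    linear_combination hI2
  · omega
  · obtain rfl : q = 1 := by omega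
    refine key Complex.I (by simp) ?_
    rw [Complex.conj_I, hI3]
    linear_combination hI2
  · obtain rfl : q = 0 := by omega
    exact key ζ hζ (by rw [hζ4]; ring)

lemma elemPos_value (β : Fin (4 - 2) → (V 4 →ₗ[ℂ] ℂ)) (a b : V 4) :
    elemPosVal (m := 4 - 2) β ![a, Complex.I • a, b, Complex.I • b] =
      ((4 * ‖β 0 a * β 1 b - β 0 b * β 1 a‖ ^ 2 : ℝ) : ℂ) := by
  let w : Fin 4 → V 4 := ![a, Complex.I • a, b, Complex.I • b]
  let g : Fin 4 → Fin 4 → Fin 4 → Fin 4 → ℂ := fun i j k l =>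
    β 0 (w i) * conj (β 0 (w j)) * β 1 (w k) * conj (β 1 (w l))
  have h1 : elemPosVal (m := 4 - 2) β ![a, Complex.I • a, b, Complex.I • b] =
      Complex.I ^ 2 * ∑ σ : Equiv.Perm (Fin 4), ((Equiv.Perm.sign σ : ℤ) : ℂ) *
      g (σ 0) (σ 1) (σ 2) (σ 3) := by
    unfold elemPosVal wedgeVal
    congr 1
    refine Finset.sum_congr rfl fun σ _ => ?_
    congr 1
    exact Fin.prod_univ_four _
  have h3 := h1.trans (congrArg (fun t => Complex.I ^ 2 * t) (perm4 g))
  rw [h3]
  simp only [g, w]
  simp only [Matrix.cons_val_zero, Matrix.cons_val_one, Matrix.cons_val, map_smul, smul_eq_mul,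
    map_mul, Complex.conj_I]
  have h2 : ((4 * ‖β 0 a * β 1 b - β 0 b * β 1 a‖ ^ 2 : ℝ) : ℂ) =
      4 * ((β 0 a * β 1 b - β 0 b * β 1 a) *
        (conj (β 0 a) * conj (β 1 b) - conj (β 0 b) * conj (β 1 a))) := by
    have : conj (β 0 a) * conj (β 1 b) - conj (β 0 b) * conj (β 1 a) =
      conj (β 0 a * β 1 b - β 0 b * β 1 a) := by simp
    rw [this, Complex.mul_conj']
    push_cast
    ring
  rw [h2]
  have hI2 : Complex.I ^ 2 = -1 := Complex.I_sq
  have hI4 : Complex.I ^ 4 = 1 := Complex.I_pow_four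
  ring_nf
  simp only [hI4]
  ring

theorem TG_posClosed : IsPosClosed (m := 4 - 2) TG where
  bidim p q hpq hne α hα := by
    refine evT_eq_zero fun n => ?_
    have h : ∀ x, dens (pull (Ph n) α.form) x = 0 := fun x => by
      rw [pull_dens]
      exact Q_type hpq hne hα (Ph_pt_ne n x) _ _
    simp [tn, h]
  pos α hα := by
    have hcl : IsClosed {z : ℂ | 0 ≤ z.re ∧ z.im = 0} :=
      (isClosed_le continuous_const Complex.continuous_re).inter
        (isClosed_eq Complex.continuous_im continuous_const)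
    refine hcl.mem_of_tendsto (evT_lim α) (Eventually.of_forall fun n => ?_)
    have h : ∀ x, ∃ ρ : ℝ, 0 ≤ ρ ∧ dens (pull (Ph n) α.form) x = (ρ : ℂ) := by
      intro x
      rw [pull_dens]
      obtain ⟨M, β, hβ⟩ := hα (Ph n (pt x)) (Ph_pt_ne n x)
      set a := fderiv ℝ (Ph n) (pt x) b1
      set b := fderiv ℝ (Ph n) (pt x) b2
      refine ⟨∑ s, 4 * ‖β s 0 a * β s 1 b - β s 0 b * β s 1 a‖ ^ 2,
        Finset.sum_nonneg fun _ _ => by positivity, ?_⟩
      have h1 : Q (α.form (Ph n (pt x))) a b = _ := hβ ![a, Complex.I • a, b, Complex.I • b]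
      rw [h1]
      push_cast
      refine Finset.sum_congr rfl fun s _ => ?_
      have := elemPos_value (β s) a b
      rw [this]
      push_cast
      rfl
    choose ρ hρ0 hρ using h
    have e : tn n α.form = (((∫ x, ρ x) / mas n : ℝ) : ℂ) := by
      rw [tn]
      simp only [hρ]
      rw [integral_complex_ofReal]
      push_cast
      rfl
    rw [e]
    refine ⟨?_, Complex.ofReal_im _⟩
    rw [Complex.ofReal_re]
    exact div_nonneg (integral_nonneg hρ0) (mas_pos n).le
  closed r hr γ α hα := by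
    have hr3 : r = 3 := by omega
    subst hr3
    refine evT_eq_zero fun n => ?_
    have h : ∀ x, dens (pull (Ph n) α.form) x = dens (pull (Ph n) (dF γ.form)) x := by
      intro x
      have e1 : dens (pull (Ph n) (dF γ.form)) x = Q (dF γ.form (Ph n (pt x)))
          (fderiv ℝ (Ph n) (pt x) b1) (fderiv ℝ (Ph n) (pt x) b2) :=
        (homMap_Ph n).dens_pull _ x
      rw [pull_dens, e1, dF_apply (Ph_pt_ne n x)]
      exact hα _ (Ph_pt_ne n x) ![fderiv ℝ (Ph n) (pt x) b1, Complex.I • fderiv ℝ (Ph n) (pt x) b1,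
        fderiv ℝ (Ph n) (pt x) b2, Complex.I • fderiv ℝ (Ph n) (pt x) b2]
    have h2 : ∫ x, dens (pull (Ph n) α.form) x = 0 := by
      simp only [h]
      exact (homMap_Ph n).integral_pull_dF γ.smooth
    rw [tn, h2, zero_div]

theorem TG_mass : HasMass (m := 4 - 2) TG 1 := by
  refine ⟨omS, omS_fsPower, ?_⟩
  apply evT_eq
  have e : ∀ n, tn n omS.form = ((1 : ℝ) : ℂ) := by
    intro n
    have h1 : ∀ x, dens (pull (Ph n) omS.form) x = (md n x : ℂ) := dens_OmSq n
    rw [tn]
    simp only [h1]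
    rw [integral_complex_ofReal, ← mas, div_self]
    · simp
    · exact_mod_cast (mas_pos n).ne'
  simp only [e]
  exact tendsto_const_nhds

end Pool.Agent.Helper33.Henon
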