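import Pool.Agent.Helper33.Henon.Top

set_option autoImplicit false

open scoped ContDiff LinearAlgebra.Projectivization ComplexConjugate Topology
open Set Filter ContinuousAlternatingMap

namespace Pool.Agent.Helper33.Henon

section
variable {k : ℕ}

/-- The real-linear functional `φ`, as a complex valued `1`-form. -/
noncomputable def oneF : (V k →L[ℝ] ℝ) →L[ℝ] ((V k) [⋀^Fin 1]→L[ℝ] ℂ) :=
  (((ofSubsingletonLIE (𝕜 := ℝ) (E := V k) (F := ℂ) (0 : Fin 1)).toContinuousLinearEquiv :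
    (V k →L[ℝ] ℂ) ≃L[ℝ] ((V k) [⋀^Fin 1]→L[ℝ] ℂ)) : (V k →L[ℝ] ℂ) →L[ℝ] _).comp
    (ContinuousLinearMap.compL ℝ (V k) ℝ ℂ Complex.ofRealCLM)

lemma oneF_apply (φ : V k →L[ℝ] ℝ) (v : Fin 1 → V k) : oneF φ v = (φ (v 0) : ℂ) := rfl

/-- The wedge product of a real `1`-form with an `n`-form. -/
noncomputable def wedgeL (n : ℕ) : (V k →L[ℝ] ℝ) →L[ℝ] ((V k) [⋀^Fin n]→L[ℝ] ℂ) →L[ℝ]
    ((V k) [⋀^Fin (n + 1)]→L[ℝ] ℂ) :=
  (ContinuousLinearMap.compL ℝ ((V k) [⋀^Fin n]→L[ℝ] ℂ)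
    (V k →L[ℝ] ((V k) [⋀^Fin n]→L[ℝ] ℂ)) ((V k) [⋀^Fin (n + 1)]→L[ℝ] ℂ)
    (alternatizeUncurryFinCLM ℝ (V k) ℂ)).comp
  (ContinuousLinearMap.smulRightL ℝ (V k) ((V k) [⋀^Fin n]→L[ℝ] ℂ))

lemma wedgeL_apply (n : ℕ) (φ : V k →L[ℝ] ℝ) (α : (V k) [⋀^Fin n]→L[ℝ] ℂ)
    (v : Fin (n + 1) → V k) :
    wedgeL n φ α v =
      ∑ i : Fin (n + 1), (-1 : ℂ) ^ (i : ℕ) * ((φ (v i) : ℂ) * α (i.removeNth v)) := by
  change alternatizeUncurryFin (φ.smulRight α) v = _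
  rw [alternatizeUncurryFin_apply]
  refine Finset.sum_congr rfl fun i _ => ?_
  simp

lemma removeNth3_0 (v : Fin 3 → V k) : (0 : Fin 3).removeNth v = ![v 1, v 2] := by
  ext i; fin_cases i <;> rfl
lemma removeNth3_1 (v : Fin 3 → V k) : (1 : Fin 3).removeNth v = ![v 0, v 2] := by
  ext i; fin_cases i <;> rfl
lemma removeNth3_2 (v : Fin 3 → V k) : (2 : Fin 3).removeNth v = ![v 0, v 1] := by
  ext i; fin_cases i <;> rfl
lemma removeNth2_0 (v : Fin 2 → V k) : (0 : Fin 2).removeNth v = ![v 1] := by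
  ext i; fin_cases i <;> rfl
lemma removeNth2_1 (v : Fin 2 → V k) : (1 : Fin 2).removeNth v = ![v 0] := by
  ext i; fin_cases i <;> rfl
lemma removeNth4_0 (v : Fin 4 → V k) : (0 : Fin 4).removeNth v = ![v 1, v 2, v 3] := by
  ext i; fin_cases i <;> rfl
lemma removeNth4_1 (v : Fin 4 → V k) : (1 : Fin 4).removeNth v = ![v 0, v 2, v 3] := by
  ext i; fin_cases i <;> rfl
lemma removeNth4_2 (v : Fin 4 → V k) : (2 : Fin 4).removeNth v = ![v 0, v 1, v 3] := by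
  ext i; fin_cases i <;> rfl
lemma removeNth4_3 (v : Fin 4 → V k) : (3 : Fin 4).removeNth v = ![v 0, v 1, v 2] := by
  ext i; fin_cases i <;> rfl

lemma wedgeL_two (φ : V k →L[ℝ] ℝ) (α : (V k) [⋀^Fin 2]→L[ℝ] ℂ) (v : Fin 3 → V k) :
    wedgeL 2 φ α v = (φ (v 0) : ℂ) * α ![v 1, v 2] - (φ (v 1) : ℂ) * α ![v 0, v 2] +
      (φ (v 2) : ℂ) * α ![v 0, v 1] := by
  rw [wedgeL_apply, Fin.sum_univ_three, removeNth3_0, removeNth3_1, removeNth3_2]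
  simp
  ring

/-- Value of the exterior derivative of a `1`-form. -/
lemma extDeriv_oneF {θ : V k → (V k →L[ℝ] ℝ)} {θ' : V k →L[ℝ] V k →L[ℝ] ℝ} {z : V k}
    (hθ : HasFDerivAt θ θ' z) (v : Fin 2 → V k) :
    extDeriv (fun z => oneF (θ z)) z v = ((θ' (v 0) (v 1) - θ' (v 1) (v 0) : ℝ) : ℂ) := by
  have h1 : HasFDerivAt (fun z => oneF (θ z)) (oneF.comp θ') z :=
    (oneF (k := k)).hasFDerivAt.comp z hθ
  unfold extDeriv
  rw [h1.fderiv, alternatizeUncurryFin_apply, Fin.sum_univ_two, removeNth2_0, removeNth2_1]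
  simp [oneF_apply]
  ring

/-- Value of the exterior derivative of a `2`-form. -/
lemma extDeriv_two {η : Form k 2} {η' : V k →L[ℝ] (V k) [⋀^Fin 2]→L[ℝ] ℂ} {z : V k}
    (hη : HasFDerivAt η η' z) (v : Fin 3 → V k) :
    extDeriv η z v = η' (v 0) ![v 1, v 2] - η' (v 1) ![v 0, v 2] + η' (v 2) ![v 0, v 1] := by
  unfold extDeriv
  rw [hη.fderiv, alternatizeUncurryFin_apply, Fin.sum_univ_three, removeNth3_0, removeNth3_1,
    removeNth3_2]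
  simp
  ring

/-- Leibniz rule for the wedge product of a `1`-form with a closed `2`-form. -/
lemma extDeriv_wedge {θ : V k → (V k →L[ℝ] ℝ)} {θ' : V k →L[ℝ] V k →L[ℝ] ℝ} {z : V k}
    (hθ : HasFDerivAt θ θ' z) {η : Form k 2} {η' : V k →L[ℝ] (V k) [⋀^Fin 2]→L[ℝ] ℂ}
    (hη : HasFDerivAt η η' z) (hcl : extDeriv η z = 0) (v : Fin 4 → V k) :
    extDeriv (fun z => wedgeL 2 (θ z) (η z)) z v =
      ((θ' (v 0) (v 1) - θ' (v 1) (v 0) : ℝ) : ℂ) * η z ![v 2, v 3]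
      - ((θ' (v 0) (v 2) - θ' (v 2) (v 0) : ℝ) : ℂ) * η z ![v 1, v 3]
      + ((θ' (v 0) (v 3) - θ' (v 3) (v 0) : ℝ) : ℂ) * η z ![v 1, v 2]
      + ((θ' (v 1) (v 2) - θ' (v 2) (v 1) : ℝ) : ℂ) * η z ![v 0, v 3]
      - ((θ' (v 1) (v 3) - θ' (v 3) (v 1) : ℝ) : ℂ) * η z ![v 0, v 2]
      + ((θ' (v 2) (v 3) - θ' (v 3) (v 2) : ℝ) : ℂ) * η z ![v 0, v 1] := by
  have h1 := (wedgeL (k := k) 2).hasFDerivAt_of_bilinear hθ hη
  have h2 : fderiv ℝ (fun z => wedgeL 2 (θ z) (η z)) z = _ := h1.fderiv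
  have hc : ∀ a b c : V k, η' a ![b, c] - η' b ![a, c] + η' c ![a, b] = 0 := by
    intro a b c
    have := extDeriv_two hη ![a, b, c]
    rw [hcl] at this
    simpa using this.symm
  have h3 : ∀ (a : V k) (w : Fin 3 → V k),
      fderiv ℝ (fun z => wedgeL 2 (θ z) (η z)) z a w =
      wedgeL 2 (θ z) (η' a) w + wedgeL 2 (θ' a) (η z) w := by
    intro a w
    rw [h2]
    rfl
  unfold extDeriv
  rw [alternatizeUncurryFin_apply, Fin.sum_univ_four, removeNth4_0, removeNth4_1,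
    removeNth4_2, removeNth4_3, h3, h3, h3, h3]
  simp only [wedgeL_two]
  have e0 := hc (v 1) (v 2) (v 3)
  have e1 := hc (v 0) (v 2) (v 3)
  have e2 := hc (v 0) (v 1) (v 3)
  have e3 := hc (v 0) (v 1) (v 2)
  simp
  linear_combination (-(θ z (v 0) : ℂ)) * e0 + (θ z (v 1) : ℂ) * e1 - (θ z (v 2) : ℂ) * e2
    + (θ z (v 3) : ℂ) * e3

end

end Pool.Agent.Helper33.Henon
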