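import Pool.Agent.Helper33.Henon.Zero
import Pool.Agent.Helper33.Henon.Four
import Pool.Agent.Helper33.Henon.Ev

set_option autoImplicit false

open scoped ContDiff LinearAlgebra.Projectivization ComplexConjugate Topology
open Set Filter

namespace Pool.Agent.Helper33.Henon

section
variable {k : ℕ}

/-- The Fubini-Study form. -/
noncomputable def Om : Form k 2 := extDeriv fun z => oneF (thJ Finset.univ z)

lemma NJ_univ_ne' {z : V k} (hz : z ≠ 0) : NJ Finset.univ z ≠ 0 := by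
  rw [NJ_univ]; exact (N_pos hz).ne'

lemma Om_apply {z : V k} (hz : z ≠ 0) (v : Fin 2 → V k) : Om z v = (fs z (v 0) (v 1) : ℂ) := by
  rw [Om, extDeriv_oneF (hasFDerivAt_thJ _ (NJ_univ_ne' hz)), thJ'_sub _ (NJ_univ_ne' hz),
    omJ_univ]

lemma contDiffAt_Om {z : V k} (hz : z ≠ 0) : ContDiffAt ℝ ∞ (Om (k := k)) z := by
  have h0 : ContDiffOn ℝ ∞ (fun z : V k => oneF (thJ Finset.univ z)) {0}ᶜ := fun w hw =>
    ((oneF (k := k)).contDiff.contDiffAt.comp w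
      (contDiffAt_thJ _ (NJ_univ_ne' hw))).contDiffWithinAt
  exact (extDeriv_smooth' isOpen_compl_zero h0).contDiffAt (isOpen_compl_zero.mem_nhds hz)

lemma wedge_wedge (φ ψ : V k →L[ℝ] ℝ) (α : (V k) [⋀^Fin 2]→L[ℝ] ℂ) (v : Fin 4 → V k) :
    wedgeL 3 φ (wedgeL 2 ψ α) v =
      ((φ (v 0) * ψ (v 1) - φ (v 1) * ψ (v 0) : ℝ) : ℂ) * α ![v 2, v 3]
      - ((φ (v 0) * ψ (v 2) - φ (v 2) * ψ (v 0) : ℝ) : ℂ) * α ![v 1, v 3]
      + ((φ (v 0) * ψ (v 3) - φ (v 3) * ψ (v 0) : ℝ) : ℂ) * α ![v 1, v 2]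
      + ((φ (v 1) * ψ (v 2) - φ (v 2) * ψ (v 1) : ℝ) : ℂ) * α ![v 0, v 3]
      - ((φ (v 1) * ψ (v 3) - φ (v 3) * ψ (v 1) : ℝ) : ℂ) * α ![v 0, v 2]
      + ((φ (v 2) * ψ (v 3) - φ (v 3) * ψ (v 2) : ℝ) : ℂ) * α ![v 0, v 1] := by
  rw [wedgeL_apply, Fin.sum_univ_four, removeNth4_0, removeNth4_1, removeNth4_2, removeNth4_3,
    wedgeL_two, wedgeL_two, wedgeL_two, wedgeL_two]
  simp
  ring

/-- `Re z_j`. -/
noncomputable def xj (j : Fin (k + 1)) : V k →L[ℝ] ℝ :=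
  Complex.reCLM.comp (ContinuousLinearMap.proj j)
/-- `Im z_j`. -/
noncomputable def yj (j : Fin (k + 1)) : V k →L[ℝ] ℝ :=
  Complex.imCLM.comp (ContinuousLinearMap.proj j)

/-- The form `ω ∧ ω`. -/
noncomputable def OmSq (z : V k) : (V k) [⋀^Fin 4]→L[ℝ] ℂ :=
  (∑ j : Fin (k + 1), (Real.pi * N z)⁻¹ • wedgeL 3 (xj j) (wedgeL 2 (yj j) (Om z))) -
    (Real.pi * N z ^ 2)⁻¹ • wedgeL 3 (RJ Finset.univ z) (wedgeL 2 (BJ Finset.univ z) (Om z))

lemma fs_eq {z : V k} (hz : z ≠ 0) (a b : V k) : fs z a b =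
    (Real.pi * N z)⁻¹ * ∑ j, (xj j a * yj j b - xj j b * yj j a) -
      (Real.pi * N z ^ 2)⁻¹ * (RJ Finset.univ z a * BJ Finset.univ z b -
        RJ Finset.univ z b * BJ Finset.univ z a) := by
  have hN : N z ≠ 0 := (N_pos hz).ne'
  have hpi := Real.pi_ne_zero
  have h1 := thJ'_sub Finset.univ (NJ_univ_ne' hz) a b
  rw [omJ_univ, thJ'_apply _ (NJ_univ_ne' hz), thJ'_apply _ (NJ_univ_ne' hz),
    BJ_anti Finset.univ a b] at h1
  have h2 : ∑ j : Fin (k + 1), (xj j a * yj j b - xj j b * yj j a) = BJ Finset.univ a b := by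
    rw [BJ_apply, HJ_apply, Complex.im_sum]
    refine Finset.sum_congr rfl fun j _ => ?_
    simp [xj, yj]
    ring
  rw [h2, ← h1, NJ_univ]
  field_simp
  ring

lemma OmSq_apply {z : V k} (hz : z ≠ 0) (v : Fin 4 → V k) : OmSq z v =
      2 * (((fs z (v 0) (v 1) : ℂ) * fs z (v 2) (v 3)) - (fs z (v 0) (v 2) : ℂ) * fs z (v 1) (v 3)
        + (fs z (v 0) (v 3) : ℂ) * fs z (v 1) (v 2)) := by
  rw [OmSq]
  simp only [ContinuousAlternatingMap.sub_apply, ContinuousAlternatingMap.sum_apply,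
    ContinuousAlternatingMap.smul_apply, wedge_wedge, Om_apply hz]
  simp only [Matrix.cons_val_zero, Matrix.cons_val_one, Complex.real_smul]
  have key : ∀ a b : V k, (fs z a b : ℂ) = ((Real.pi * N z)⁻¹ : ℝ) *
      ∑ j, ((xj j a * yj j b - xj j b * yj j a : ℝ) : ℂ) -
      ((Real.pi * N z ^ 2)⁻¹ : ℝ) * ((RJ Finset.univ z a * BJ Finset.univ z b -
        RJ Finset.univ z b * BJ Finset.univ z a : ℝ) : ℂ) := by
    intro a b
    rw [fs_eq hz a b]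
    push_cast
    ring
  have hsum : ∑ j : Fin (k + 1), (((Real.pi * N z)⁻¹ : ℝ) : ℂ) *
      (((xj j (v 0) * yj j (v 1) - xj j (v 1) * yj j (v 0) : ℝ) : ℂ) * (fs z (v 2) (v 3) : ℂ)
      - ((xj j (v 0) * yj j (v 2) - xj j (v 2) * yj j (v 0) : ℝ) : ℂ) * (fs z (v 1) (v 3) : ℂ)
      + ((xj j (v 0) * yj j (v 3) - xj j (v 3) * yj j (v 0) : ℝ) : ℂ) * (fs z (v 1) (v 2) : ℂ)
      + ((xj j (v 1) * yj j (v 2) - xj j (v 2) * yj j (v 1) : ℝ) : ℂ) * (fs z (v 0) (v 3) : ℂ)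
      - ((xj j (v 1) * yj j (v 3) - xj j (v 3) * yj j (v 1) : ℝ) : ℂ) * (fs z (v 0) (v 2) : ℂ)
      + ((xj j (v 2) * yj j (v 3) - xj j (v 3) * yj j (v 2) : ℝ) : ℂ) * (fs z (v 0) (v 1) : ℂ)) =
      (((Real.pi * N z)⁻¹ : ℝ) : ℂ) *
      ((∑ j : Fin (k + 1), ((xj j (v 0) * yj j (v 1) - xj j (v 1) * yj j (v 0) : ℝ) : ℂ)) *
        (fs z (v 2) (v 3) : ℂ)
      - (∑ j : Fin (k + 1), ((xj j (v 0) * yj j (v 2) - xj j (v 2) * yj j (v 0) : ℝ) : ℂ)) *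
        (fs z (v 1) (v 3) : ℂ)
      + (∑ j : Fin (k + 1), ((xj j (v 0) * yj j (v 3) - xj j (v 3) * yj j (v 0) : ℝ) : ℂ)) *
        (fs z (v 1) (v 2) : ℂ)
      + (∑ j : Fin (k + 1), ((xj j (v 1) * yj j (v 2) - xj j (v 2) * yj j (v 1) : ℝ) : ℂ)) *
        (fs z (v 0) (v 3) : ℂ)
      - (∑ j : Fin (k + 1), ((xj j (v 1) * yj j (v 3) - xj j (v 3) * yj j (v 1) : ℝ) : ℂ)) *
        (fs z (v 0) (v 2) : ℂ)
      + (∑ j : Fin (k + 1), ((xj j (v 2) * yj j (v 3) - xj j (v 3) * yj j (v 2) : ℝ) : ℂ)) *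
        (fs z (v 0) (v 1) : ℂ)) := by
    simp only [Finset.mul_sum, Finset.sum_mul, mul_add, mul_sub, Finset.sum_add_distrib,
      Finset.sum_sub_distrib]
  rw [hsum]
  have k01 := key (v 0) (v 1)
  have k02 := key (v 0) (v 2)
  have k03 := key (v 0) (v 3)
  have k12 := key (v 1) (v 2)
  have k13 := key (v 1) (v 3)
  have k23 := key (v 2) (v 3)
  linear_combination (-(fs z (v 2) (v 3) : ℂ)) * k01 + (fs z (v 1) (v 3) : ℂ) * k02 -
    (fs z (v 1) (v 2) : ℂ) * k03 - (fs z (v 0) (v 3) : ℂ) * k12 + (fs z (v 0) (v 2) : ℂ) * k13 -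
    (fs z (v 0) (v 1) : ℂ) * k23

lemma fs_vert_left (z : V k) (c : ℂ) (w : V k) : fs z (c • z) w = 0 := by
  rw [← omJ_univ]; exact omJ_vertical_left _ _ _ _

lemma fs_vert_right (z : V k) (c : ℂ) (w : V k) : fs z w (c • z) = 0 := by
  rw [← omJ_univ]; exact omJ_vertical_right _ _ _ _

lemma fs_homothety {c : ℂ} (hc : c ≠ 0) (z u w : V k) :
    fs (c • z) (c • u) (c • w) = fs z u w := by
  rw [← omJ_univ, ← omJ_univ]; exact omJ_homothety _ hc _ _ _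

lemma OmSq_zero : OmSq (0 : V k) = 0 := by
  have hN : N (0 : V k) = 0 := by simp [N]
  ext v
  simp [OmSq, hN]

lemma OmSq_mem : (OmSq (k := k) : Form k 4) ∈ smoothForms k 4 := by
  refine ⟨OmSq_zero, ?_, ?_, ?_⟩
  · intro z hz
    apply ContDiffAt.contDiffWithinAt
    apply contDiffAt_of_apply
    intro v
    have h : ∀ a b : V k, ContDiffAt ℝ ∞ (fun x => Om x ![a, b]) z := fun a b =>
      contDiffAt_cam_apply (contDiffAt_Om hz) fun i => contDiffAt_const (c := ![a, b] i)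
    have h3 : ContDiffAt ℝ ∞ (fun x => 2 * ((Om x ![v 0, v 1] * Om x ![v 2, v 3]) -
        Om x ![v 0, v 2] * Om x ![v 1, v 3] + Om x ![v 0, v 3] * Om x ![v 1, v 2])) z :=
      contDiffAt_const.mul ((((h _ _).mul (h _ _)).sub ((h _ _).mul (h _ _))).add
        ((h _ _).mul (h _ _)))
    refine h3.congr_of_eventuallyEq ?_
    filter_upwards [isOpen_compl_zero.mem_nhds hz] with w hw
    rw [OmSq_apply hw]
    simp only [Om_apply hw]
    rfl
  · intro c hc z hz v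
    rw [OmSq_apply (smul_ne_zero hc hz), OmSq_apply hz]
    simp only [fs_homothety hc]
  · rintro z hz v ⟨i, c, hi⟩
    rw [OmSq_apply hz]
    fin_cases i
    · have hi' : v 0 = c • z := hi
      simp [hi', fs_vert_left]
    · have hi' : v 1 = c • z := hi
      simp [hi', fs_vert_left, fs_vert_right]
    · have hi' : v 2 = c • z := hi
      simp [hi', fs_vert_left, fs_vert_right]
    · have hi' : v 3 = c • z := hi
      simp [hi', fs_vert_right]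

end

/-- `ω²` on `ℙ⁴`. -/
noncomputable def omS : SForm 4 (2 * (4 - 2)) := ⟨OmSq (k := 4), OmSq_mem⟩

lemma omS_fsPower : IsFSPower (m := 4 - 2) omS.form := by
  intro z hz v
  have h2 : (∑ σ : Equiv.Perm (Fin (2 * (4 - 2))), ((Equiv.Perm.sign σ : ℤ) : ℂ) *
      ∏ i : Fin (4 - 2), (fs z (v (σ ⟨2 * (i : ℕ), by omega⟩))
        (v (σ ⟨2 * (i : ℕ) + 1, by omega⟩)) : ℂ)) =
      ∑ σ : Equiv.Perm (Fin 4), ((Equiv.Perm.sign σ : ℤ) : ℂ) *
      (fun a b c d : Fin 4 => (fs z (v a) (v b) : ℂ) * (fs z (v c) (v d) : ℂ))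
        (σ 0) (σ 1) (σ 2) (σ 3) := by
    refine Finset.sum_congr rfl fun σ _ => ?_
    congr 1
    exact Fin.prod_univ_two _
  have h3 := h2.trans (perm4 (fun a b c d : Fin 4 => (fs z (v a) (v b) : ℂ) *
    (fs z (v c) (v d) : ℂ)))
  rw [h3]
  have h4 : omS.form z v = _ := OmSq_apply (k := 4) hz v
  rw [h4]
  have a10 := fs_anti z (v 0) (v 1)
  have a20 := fs_anti z (v 0) (v 2)
  have a30 := fs_anti z (v 0) (v 3)
  have a21 := fs_anti z (v 1) (v 2)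
  have a31 := fs_anti z (v 1) (v 3)
  have a32 := fs_anti z (v 2) (v 3)
  simp only [a10, a20, a30, a21, a31, a32]
  push_cast
  ring

end Pool.Agent.Helper33.Henon
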