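import Pool.Agent.Helper33.Henon.Ev
import Pool.Agent.Helper33.Henon.Four

set_option autoImplicit false

open scoped ContDiff LinearAlgebra.Projectivization ComplexConjugate Topology
open Set Filter MeasureTheory

namespace Pool.Agent.Helper33.Henon

/-! ## Uniform bounds for smooth forms -/

lemma sup_bound {k r : ℕ} {β : Form k r} (hβ : β ∈ smoothForms k r) :
    ∃ C, 0 ≤ C ∧ ∀ z, z ≠ 0 → ∀ v : Fin r → V k, ‖β z v‖ ≤ (C * ‖z‖⁻¹ ^ r) * ∏ i, ‖v i‖ := by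
  have hS : IsCompact (Metric.sphere (0 : V k) 1) := isCompact_sphere _ _
  have hc : ContinuousOn β (Metric.sphere (0 : V k) 1) :=
    hβ.2.1.continuousOn.mono fun z hz => by
      rintro rfl
      simp at hz
  obtain ⟨C, hC⟩ := hS.exists_bound_of_continuousOn hc
  refine ⟨max C 0, le_max_right _ _, fun z hz v => ?_⟩
  have hn : ‖z‖ ≠ 0 := norm_ne_zero_iff.2 hz
  have hc0 : ((‖z‖⁻¹ : ℝ) : ℂ) ≠ 0 := by simpa using hz
  have h1 := hβ.2.2.1 _ hc0 z hz v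
  rw [← h1]
  have h2 : ‖((‖z‖⁻¹ : ℝ) : ℂ) • z‖ = 1 := by
    rw [norm_smul, Complex.norm_real, norm_inv, norm_norm]
    field_simp
  have h3 := hC (((‖z‖⁻¹ : ℝ) : ℂ) • z) (by simpa using h2)
  refine ((β _).le_opNorm _).trans ?_
  have h4 : ∏ i, ‖((‖z‖⁻¹ : ℝ) : ℂ) • v i‖ = ‖z‖⁻¹ ^ r * ∏ i, ‖v i‖ := by
    simp only [norm_smul, Finset.prod_mul_distrib]
    rw [Finset.prod_const, Finset.card_univ, Fintype.card_fin, Complex.norm_real, norm_inv,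
      norm_norm]
  rw [h4, ← mul_assoc]
  have h5 : ‖β (((‖z‖⁻¹ : ℝ) : ℂ) • z)‖ ≤ max C 0 := h3.trans (le_max_left _ _)
  gcongr

/-! ## The affine chart of `ℙ²` -/

/-- `e₀`. -/
noncomputable def b0 : V 2 := ![1, 0, 0]
/-- `e₁`. -/
noncomputable def b1 : V 2 := ![0, 1, 0]
/-- `e₂`. -/
noncomputable def b2 : V 2 := ![0, 0, 1]

lemma norm_b0 : ‖b0‖ ≤ 1 := by
  rw [pi_norm_le_iff_of_nonneg zero_le_one]; intro i; fin_cases i <;> simp [b0]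
lemma norm_b1 : ‖b1‖ ≤ 1 := by
  rw [pi_norm_le_iff_of_nonneg zero_le_one]; intro i; fin_cases i <;> simp [b1]
lemma norm_b2 : ‖b2‖ ≤ 1 := by
  rw [pi_norm_le_iff_of_nonneg zero_le_one]; intro i; fin_cases i <;> simp [b2]

/-- The affine chart `(s, t) ↦ (1, s, t)`. -/
noncomputable def pt (x : ℂ × ℂ) : V 2 := b0 + x.1 • b1 + x.2 • b2

/-- Its linear part. -/
noncomputable def ptL : (ℂ × ℂ) →L[ℝ] V 2 :=
  ((ContinuousLinearMap.fst ℂ ℂ ℂ).smulRight b1 +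
    (ContinuousLinearMap.snd ℂ ℂ ℂ).smulRight b2).restrictScalars ℝ

lemma ptL_apply (x : ℂ × ℂ) : ptL x = x.1 • b1 + x.2 • b2 := rfl

lemma pt_eq (x : ℂ × ℂ) : pt x = b0 + ptL x := by rw [pt, ptL_apply, add_assoc]

lemma hasFDerivAt_pt (x : ℂ × ℂ) : HasFDerivAt pt ptL x := by
  have e : pt = fun x => b0 + ptL x := funext pt_eq
  rw [e]
  exact ptL.hasFDerivAt.const_add b0

lemma contDiff_pt : ContDiff ℝ ∞ pt := by
  have e : pt = fun x => b0 + ptL x := funext pt_eq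
  rw [e]
  exact contDiff_const.add ptL.contDiff

lemma pt_zero (x : ℂ × ℂ) : pt x 0 = 1 := by simp [pt, b0, b1, b2]
lemma pt_one (x : ℂ × ℂ) : pt x 1 = x.1 := by simp [pt, b0, b1, b2]
lemma pt_two (x : ℂ × ℂ) : pt x 2 = x.2 := by simp [pt, b0, b1, b2]

lemma pt_ne_zero (x : ℂ × ℂ) : pt x ≠ 0 := fun h => by
  have := congrFun h 0
  rw [pt_zero] at this
  exact one_ne_zero this

lemma one_le_norm_pt (x : ℂ × ℂ) : 1 ≤ ‖pt x‖ := by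
  have := norm_le_pi_norm (pt x) 0
  rwa [pt_zero, norm_one] at this

lemma norm_le_norm_pt (x : ℂ × ℂ) : ‖x‖ ≤ ‖pt x‖ := by
  rw [Prod.norm_def, max_le_iff]
  have h1 := norm_le_pi_norm (pt x) 1
  have h2 := norm_le_pi_norm (pt x) 2
  rw [pt_one] at h1
  rw [pt_two] at h2
  exact ⟨h1, h2⟩

lemma norm_pt_le (x : ℂ × ℂ) : ‖pt x‖ ^ 2 ≤ 1 + ‖x.1‖ ^ 2 + ‖x.2‖ ^ 2 := by
  have h : ‖pt x‖ ≤ Real.sqrt (1 + ‖x.1‖ ^ 2 + ‖x.2‖ ^ 2) := by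
    rw [pi_norm_le_iff_of_nonneg (Real.sqrt_nonneg _)]
    intro i
    apply Real.le_sqrt_of_sq_le
    fin_cases i
    · change ‖pt x 0‖ ^ 2 ≤ _
      rw [pt_zero, norm_one]; nlinarith [sq_nonneg ‖x.1‖, sq_nonneg ‖x.2‖]
    · change ‖pt x 1‖ ^ 2 ≤ _
      rw [pt_one]; nlinarith [sq_nonneg ‖x.1‖, sq_nonneg ‖x.2‖]
    · change ‖pt x 2‖ ^ 2 ≤ _
      rw [pt_two]; nlinarith [sq_nonneg ‖x.1‖, sq_nonneg ‖x.2‖]
  calc ‖pt x‖ ^ 2 ≤ (Real.sqrt (1 + ‖x.1‖ ^ 2 + ‖x.2‖ ^ 2)) ^ 2 := by gcongr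
    _ = _ := Real.sq_sqrt (by positivity)

/-- The real frame of the chart. -/
noncomputable def fr : Fin 4 → V 2 := ![b1, Complex.I • b1, b2, Complex.I • b2]

/-- The real coordinate directions of `ℂ × ℂ`. -/
noncomputable def ub : Fin 4 → ℂ × ℂ := ![(1, 0), (Complex.I, 0), (0, 1), (0, Complex.I)]

lemma ptL_ub (i : Fin 4) : ptL (ub i) = fr i := by
  fin_cases i <;> simp [ptL_apply, ub, fr]

lemma N_pt (x : ℂ × ℂ) : N (pt x) = 1 + ‖x.1‖ ^ 2 + ‖x.2‖ ^ 2 := by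
  rw [N, Fin.sum_univ_three, pt_zero, pt_one, pt_two, norm_one]
  ring

instance instHaarCC : (volume : Measure (ℂ × ℂ)).IsAddHaarMeasure :=
  inferInstanceAs ((volume : Measure ℂ).prod (volume : Measure ℂ)).IsAddHaarMeasure

/-- The integrable comparison function. -/
noncomputable def Jb (x : ℂ × ℂ) : ℝ := (1 + ‖x‖ ^ 2) ^ (-(5 : ℝ) / 2)

lemma integrable_Jb : Integrable Jb := by
  unfold Jb
  apply integrable_rpow_neg_one_add_norm_sq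
  rw [Module.finrank_prod, Complex.finrank_real_complex]
  norm_num

lemma Jb_pos (x : ℂ × ℂ) : 0 < Jb x := by unfold Jb; positivity

lemma comp_Jb (x : ℂ × ℂ) : ‖pt x‖⁻¹ ^ 3 * (1 + ‖x.1‖ ^ 2 + ‖x.2‖ ^ 2)⁻¹ ≤ 3 * Jb x := by
  set p := ‖pt x‖ with hp
  set A := 1 + ‖x‖ ^ 2 with hA
  have hp1 : 1 ≤ p := one_le_norm_pt x
  have hpx : ‖x‖ ≤ p := norm_le_norm_pt x
  have hA0 : 0 < A := by positivity
  have hA2 : A ≤ 2 * p ^ 2 := by nlinarith [norm_nonneg x]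
  have hs : Real.sqrt A ≤ 3 / 2 * p := by
    rw [Real.sqrt_le_left (by positivity)]
    nlinarith
  have hJ : Jb x = (A ^ 2 * Real.sqrt A)⁻¹ := by
    rw [Jb, ← hA, show -(5:ℝ)/2 = -(2 + 1/2) by norm_num, Real.rpow_neg hA0.le,
      Real.rpow_add hA0, Real.sqrt_eq_rpow]
    norm_num
  have hAB : A ≤ 1 + ‖x.1‖ ^ 2 + ‖x.2‖ ^ 2 := by
    rcases le_total ‖x.1‖ ‖x.2‖ with h | h
    · have : ‖x‖ = ‖x.2‖ := by rw [Prod.norm_def, max_eq_right h]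
      rw [hA, this]; nlinarith [sq_nonneg ‖x.1‖]
    · have : ‖x‖ = ‖x.1‖ := by rw [Prod.norm_def, max_eq_left h]
      rw [hA, this]; nlinarith [sq_nonneg ‖x.2‖]
  have h1 : (1 + ‖x.1‖ ^ 2 + ‖x.2‖ ^ 2)⁻¹ ≤ A⁻¹ := inv_anti₀ hA0 hAB
  have hsA : 0 < Real.sqrt A := Real.sqrt_pos.2 hA0
  calc p⁻¹ ^ 3 * (1 + ‖x.1‖ ^ 2 + ‖x.2‖ ^ 2)⁻¹ ≤ p⁻¹ ^ 3 * A⁻¹ := by gcongr
    _ ≤ 3 * (A ^ 2 * Real.sqrt A)⁻¹ := by
      rw [inv_pow, ← mul_inv, ← div_eq_mul_inv, inv_eq_one_div,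
        div_le_div_iff₀ (by positivity) (by positivity)]
      have h2 : A * Real.sqrt A ≤ 3 * p ^ 3 := by
        calc A * Real.sqrt A ≤ (2 * p ^ 2) * (3 / 2 * p) := by gcongr
          _ = 3 * p ^ 3 := by ring
      nlinarith
    _ = 3 * Jb x := by rw [hJ]

/-- The general bound for horizontal forms in the chart. -/
lemma chart_bound (x : ℂ × ℂ) (A : (V 2) [⋀^Fin 4]→L[ℝ] ℂ)
    (hz : ∀ v : Fin 4 → V 2, (∃ i, ∃ c : ℂ, v i = c • pt x) → A v = 0)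
    {C : ℝ} (hC0 : 0 ≤ C) (hC : ∀ v : Fin 4 → V 2, ‖A v‖ ≤ (C * ‖pt x‖⁻¹ ^ 3) * ∏ i, ‖v i‖) :
    ‖A fr‖ ≤ 9 * C * Jb x := by
  have hp : 0 < ‖pt x‖ := by linarith [one_le_norm_pt x]
  have h := hor_bound A b0 b1 b2 norm_b0 norm_b1 norm_b2 x.1 x.2 hz
    (M := C * ‖pt x‖⁻¹ ^ 3) (by positivity) hC
  have e : Q A b1 b2 = A fr := rfl
  rw [e] at h
  have hpos : 0 < 1 + ‖x.1‖ ^ 2 + ‖x.2‖ ^ 2 := by positivity
  have h1 : ‖A fr‖ ≤ 3 * (C * ‖pt x‖⁻¹ ^ 3) * (1 + ‖x.1‖ ^ 2 + ‖x.2‖ ^ 2)⁻¹ := by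
    rw [← div_eq_mul_inv, le_div_iff₀ hpos]
    exact h
  refine h1.trans ?_
  have h2 := comp_Jb x
  nlinarith

/-- The density of a `4`-form in the chart. -/
noncomputable def dens (β : Form 2 4) (x : ℂ × ℂ) : ℂ := β (pt x) fr

lemma dens_bound {β : Form 2 4} (hβ : β ∈ smoothForms 2 4) :
    ∃ C, 0 ≤ C ∧ ∀ x, ‖dens β x‖ ≤ C * Jb x := by
  obtain ⟨C, hC0, hC⟩ := sup_bound hβ
  refine ⟨9 * C, by positivity, fun x => ?_⟩
  refine chart_bound x (β (pt x)) (fun v hv => hβ.2.2.2 _ (pt_ne_zero x) v hv) hC0 fun v => ?_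
  refine (hC _ (pt_ne_zero x) v).trans ?_
  have hp := one_le_norm_pt x
  have : ‖pt x‖⁻¹ ^ 4 ≤ ‖pt x‖⁻¹ ^ 3 :=
    pow_le_pow_of_le_one (by positivity) (inv_le_one_of_one_le₀ hp) (by norm_num)
  gcongr

lemma contDiff_comp_pt {r : ℕ} {β : Form 2 r} (hβ : β ∈ smoothForms 2 r) (v : Fin r → V 2) :
    ContDiff ℝ ∞ (fun x => β (pt x) v) := by
  rw [contDiff_iff_contDiffAt]
  intro x
  have h1 : ContDiffAt ℝ ∞ (fun x => β (pt x)) x :=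
    (differentiableAt_of_mem hβ (pt_ne_zero x)).comp x contDiff_pt.contDiffAt
  exact contDiffAt_cam_apply h1 fun i => contDiffAt_const

lemma continuous_dens {β : Form 2 4} (hβ : β ∈ smoothForms 2 4) : Continuous (dens β) :=
  (contDiff_comp_pt hβ fr).continuous

lemma integrable_dens {β : Form 2 4} (hβ : β ∈ smoothForms 2 4) : Integrable (dens β) := by
  obtain ⟨C, _, hC⟩ := dens_bound hβ
  exact (integrable_Jb.const_mul C).mono' (continuous_dens hβ).aestronglyMeasurable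
    (Eventually.of_forall hC)

end Pool.Agent.Helper33.Henon
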