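import Pool.Agent.Helper33.Henon.Stokes

set_option autoImplicit false

open scoped ContDiff LinearAlgebra.Projectivization ComplexConjugate Topology
open Set Filter MeasureTheory

namespace Pool.Agent.Helper33.Henon

/-- Homogeneous holomorphic maps without zeros outside the origin. -/
structure HomMap {k : ℕ} (Φ : V 2 → V k) (D : ℕ) : Prop where
  diff : ContDiff ℂ ∞ Φ
  hom : ∀ (c : ℂ) (z : V 2), Φ (c • z) = c ^ D • Φ z
  ne : ∀ z : V 2, z ≠ 0 → Φ z ≠ 0

section
variable {k r D : ℕ} {Φ : V 2 → V k}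

lemma HomMap.diffR (h : HomMap Φ D) : ContDiff ℝ ∞ Φ := h.diff.restrict_scalars ℝ

lemma HomMap.fderiv_eq (h : HomMap Φ D) (z v : V 2) : fderiv ℝ Φ z v = fderiv ℂ Φ z v := by
  rw [((h.diff.differentiable (by simp)) z).fderiv_restrictScalars ℝ]
  rfl

lemma HomMap.fderiv_smul (h : HomMap Φ D) (z v : V 2) (c : ℂ) :
    fderiv ℝ Φ z (c • v) = c • fderiv ℝ Φ z v := by
  rw [h.fderiv_eq, h.fderiv_eq, map_smul]

lemma HomMap.hasFDerivAt (h : HomMap Φ D) (z : V 2) : HasFDerivAt Φ (fderiv ℂ Φ z) z :=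
  ((h.diff.differentiable (by simp)) z).hasFDerivAt

lemma HomMap.fderiv_homothety (h : HomMap Φ D) (c : ℂ) (z v : V 2) :
    fderiv ℝ Φ (c • z) (c • v) = c ^ D • fderiv ℝ Φ z v := by
  rw [h.fderiv_eq, h.fderiv_eq]
  have h1 : HasFDerivAt (fun z : V 2 => c • z) (c • ContinuousLinearMap.id ℂ (V 2)) z :=
    (hasFDerivAt_id z).const_smul c
  have h2 := (h.hasFDerivAt (c • z)).comp z h1
  have h3 : HasFDerivAt (fun z => c ^ D • Φ z) (c ^ D • fderiv ℂ Φ z) z :=
    (h.hasFDerivAt z).const_smul (c ^ D)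
  have e : (Φ ∘ fun z : V 2 => c • z) = fun z => c ^ D • Φ z := funext fun w => h.hom c w
  rw [e] at h2
  have h4 := h2.unique h3
  have h5 := congrArg (fun L => L v) h4
  exact h5

/-- Euler's identity. -/
lemma HomMap.euler (h : HomMap Φ D) (z : V 2) (c : ℂ) :
    fderiv ℝ Φ z (c • z) = ((D : ℂ) * c) • Φ z := by
  rw [h.fderiv_smul, h.fderiv_eq]
  have h1 : HasDerivAt (fun t : ℂ => t • z) z 1 := by
    simpa using (hasDerivAt_id (1:ℂ)).smul_const z
  have h2 : HasFDerivAt Φ (fderiv ℂ Φ z) ((1:ℂ) • z) := by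
    rw [one_smul]; exact h.hasFDerivAt z
  have h3 := h2.comp_hasDerivAt (1:ℂ) h1
  have e : (Φ ∘ fun t : ℂ => t • z) = fun t => t ^ D • Φ z := funext fun t => h.hom t z
  rw [e] at h3
  have h4 : HasDerivAt (fun t : ℂ => t ^ D • Φ z) (((D : ℂ) * 1 ^ (D - 1)) • Φ z) 1 :=
    (hasDerivAt_pow D (1:ℂ)).smul_const (Φ z)
  have h5 := h3.unique h4
  rw [h5, one_pow, mul_one, smul_smul, mul_comm]

/-- Pull-back of forms. -/
noncomputable def pull (Φ : V 2 → V k) (α : Form k r) : Form 2 r := fun z =>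
  if z = 0 then 0 else (α (Φ z)).compContinuousLinearMap (fderiv ℝ Φ z)

lemma pull_apply (α : Form k r) {z : V 2} (hz : z ≠ 0) (v : Fin r → V 2) :
    pull Φ α z v = α (Φ z) (fun i => fderiv ℝ Φ z (v i)) := by
  rw [pull, if_neg hz]
  rfl

lemma HomMap.pull_mem (h : HomMap Φ D) {α : Form k r} (hα : α ∈ smoothForms k r) :
    pull Φ α ∈ smoothForms 2 r := by
  refine ⟨if_pos rfl, ?_, ?_, ?_⟩
  · intro z hz
    apply ContDiffAt.contDiffWithinAt
    apply contDiffAt_of_apply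
    intro v
    have h1 : ContDiffAt ℝ ∞ (fun x => α (Φ x)) z :=
      (differentiableAt_of_mem hα (h.ne z hz)).comp z h.diffR.contDiffAt
    have h2 : ∀ i, ContDiffAt ℝ ∞ (fun x => fderiv ℝ Φ x (v i)) z := fun i =>
      ((h.diffR.fderiv_right (m := ∞) (by simp)).clm_apply contDiff_const).contDiffAt
    have h3 := contDiffAt_cam_apply h1 h2
    refine h3.congr_of_eventuallyEq ?_
    filter_upwards [isOpen_compl_zero.mem_nhds hz] with w hw
    exact pull_apply α hw v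
  · intro c hc z hz v
    rw [pull_apply α (smul_ne_zero hc hz), pull_apply α hz, h.hom]
    simp only [h.fderiv_homothety]
    exact hα.2.2.1 _ (pow_ne_zero D hc) _ (h.ne z hz) _
  · rintro z hz v ⟨i, c, hi⟩
    rw [pull_apply α hz]
    apply hα.2.2.2 _ (h.ne z hz)
    exact ⟨i, _, by rw [hi, h.euler]⟩

lemma HomMap.dF_pull (h : HomMap Φ D) {γ : Form k r} (hγ : γ ∈ smoothForms k r) :
    dF (pull Φ γ) = pull Φ (dF γ) := by
  funext z
  by_cases hz : z = 0
  · subst hz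
    rw [dF, if_pos rfl, pull, if_pos rfl]
  · rw [dF_apply hz]
    have he : pull Φ γ =ᶠ[𝓝 z] fun x => (γ (Φ x)).compContinuousLinearMap (fderiv ℝ Φ x) := by
      filter_upwards [isOpen_compl_zero.mem_nhds hz] with w hw
      exact if_neg hw
    rw [he.extDeriv_eq, extDeriv_pullback (r := ∞)
      ((differentiableAt_of_mem hγ (h.ne z hz)).differentiableAt (by simp))
      h.diffR.contDiffAt two_le_infty, pull, if_neg hz, dF_apply (h.ne z hz)]

lemma HomMap.dens_pull (h : HomMap Φ D) (α : Form k 4) (x : ℂ × ℂ) :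
    dens (pull Φ α) x = Q (α (Φ (pt x))) (fderiv ℝ Φ (pt x) b1) (fderiv ℝ Φ (pt x) b2) := by
  rw [dens, pull_apply α (pt_ne_zero x), Q]
  congr 1
  ext1 i
  fin_cases i
  · rfl
  · exact h.fderiv_smul _ _ _
  · rfl
  · exact h.fderiv_smul _ _ _

lemma HomMap.integral_pull_dF (h : HomMap Φ D) {γ : Form k 3} (hγ : γ ∈ smoothForms k 3) :
    ∫ x, dens (pull Φ (dF γ)) x = 0 := by
  rw [← h.dF_pull hγ]
  exact stokes (h.pull_mem hγ)

end

end Pool.Agent.Helper33.Henon
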