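import Pool.Agent.Helper33.Henon.Wirt
import Pool.Agent.Helper33.Henon.Pull
import Pool.Agent.Helper33.Henon.Final

set_option autoImplicit false

open scoped ContDiff LinearAlgebra.Projectivization ComplexConjugate Topology
open Set Filter MeasureTheory

namespace Pool.Agent.Helper33.Henon

lemma gram_nonneg {k : ℕ} (Z a b : V k) : 0 ≤ gram Z a b := by
  have h : ‖herm (hp Z a) (hp Z b)‖ ^ 2 ≤ N (hp Z a) * N (hp Z b) := by
    rw [herm_eq_inner, ← norm_toLp_sq, ← norm_toLp_sq, ← mul_pow]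
    exact pow_le_pow_left₀ (norm_nonneg _) (norm_inner_le_norm _ _) 2
  rw [gram]; linarith

/-- The homogenisation of `f⁻¹`. -/
noncomputable def Fh (Z : V 4) : V 4 :=
  ![Z 0 ^ 2, 2 * Z 0 * Z 2 + Z 1 ^ 2, 2 * Z 0 * Z 1, 2 * Z 0 * Z 4 + Z 3 ^ 2, 2 * Z 0 * Z 3]

/-- The plane `{y₁ = y₂ = 0}`. -/
noncomputable def S0 (z : V 2) : V 4 := ![z 0, z 1, 0, z 2, 0]

/-- Homogeneous parametrisation of `f^{-n}` of the plane. -/
noncomputable def Ph (n : ℕ) (z : V 2) : V 4 := Fh^[n] (S0 z)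

lemma Ph_succ (n : ℕ) (z : V 2) : Ph (n + 1) z = Fh (Ph n z) := Function.iterate_succ_apply' _ _ _

lemma contDiff_Fh : ContDiff ℂ ∞ Fh := by
  rw [contDiff_pi]
  intro i
  have h : ∀ j, ContDiff ℂ ∞ (fun Z : V 4 => Z j) := fun j => contDiff_apply ℂ ℂ j
  fin_cases i
  · exact (h 0).pow 2
  · exact ((contDiff_const.mul (h 0)).mul (h 2)).add ((h 1).pow 2)
  · exact (contDiff_const.mul (h 0)).mul (h 1)
  · exact ((contDiff_const.mul (h 0)).mul (h 4)).add ((h 3).pow 2)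
  · exact (contDiff_const.mul (h 0)).mul (h 3)

lemma contDiff_S0 : ContDiff ℂ ∞ S0 := by
  rw [contDiff_pi]
  intro i
  have h : ∀ j, ContDiff ℂ ∞ (fun Z : V 2 => Z j) := fun j => contDiff_apply ℂ ℂ j
  fin_cases i
  · exact h 0
  · exact h 1
  · exact contDiff_const
  · exact h 2
  · exact contDiff_const

lemma Fh_smul (c : ℂ) (Z : V 4) : Fh (c • Z) = c ^ 2 • Fh Z := by
  ext i
  fin_cases i <;> simp [Fh] <;> ring

lemma S0_smul (c : ℂ) (z : V 2) : S0 (c • z) = c • S0 z := by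
  ext i
  fin_cases i <;> simp [S0]

lemma Ph_smul (n : ℕ) (c : ℂ) (z : V 2) : Ph n (c • z) = c ^ (2 ^ n) • Ph n z := by
  induction n with
  | zero => simp [Ph, S0_smul]
  | succ n ih => rw [Ph_succ, ih, Fh_smul, ← pow_mul, ← pow_succ, Ph_succ]

lemma Ph_zero_coord (n : ℕ) (z : V 2) : Ph n z 0 = z 0 ^ (2 ^ n) := by
  induction n with
  | zero => simp [Ph, S0]
  | succ n ih =>
    rw [Ph_succ, pow_succ 2 n, pow_mul, ← ih]
    rfl

lemma Ph_inf (n : ℕ) (z : V 2) (hz : z 0 = 0) :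
    Ph n z = ![0, z 1 ^ (2 ^ n), 0, z 2 ^ (2 ^ n), 0] := by
  induction n with
  | zero => simp [Ph, S0, hz]
  | succ n ih =>
    rw [Ph_succ, ih]
    ext i
    fin_cases i <;> simp [Fh, ← pow_mul, ← pow_succ]

lemma contDiff_Ph (n : ℕ) : ContDiff ℂ ∞ (Ph n) := by
  induction n with
  | zero => exact contDiff_S0
  | succ n ih =>
    have e : Ph (n + 1) = Fh ∘ Ph n := funext fun z => Ph_succ n z
    rw [e]
    exact contDiff_Fh.comp ih

lemma homMap_Ph (n : ℕ) : HomMap (Ph n) (2 ^ n) where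
  diff := contDiff_Ph n
  hom := Ph_smul n
  ne z hz := by
    by_cases h0 : z 0 = 0
    · rw [Ph_inf n z h0]
      intro h
      apply hz
      have h1 := congrFun h 1
      have h3 := congrFun h 3
      simp at h1 h3
      ext i
      fin_cases i
      · exact h0
      · exact h1
      · exact h3
    · intro h
      have h1 := Ph_zero_coord n z
      rw [h] at h1
      exact pow_ne_zero _ h0 h1.symm

/-- A pair of points of `ℂ²` as a point of `ℂ⁴`. -/
noncomputable def io2 (u v : ℂ × ℂ) : Fin 4 → ℂ := ![u.1, u.2, v.1, v.2]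

lemma lift1_io2 (u v : ℂ × ℂ) : lift1 (io2 u v) = (![1, u.1, u.2, v.1, v.2] : V 4) := by
  ext i
  refine Fin.cases ?_ (fun j => ?_) i
  · rfl
  · fin_cases j <;> rfl

lemma Fh_lift (u v : ℂ × ℂ) : Fh (lift1 (io2 u v)) = lift1 (io2 (gm u) (gm v)) := by
  rw [lift1_io2, lift1_io2]
  ext i
  fin_cases i <;> simp [Fh, gm]

lemma Ph_pt (n : ℕ) (x : ℂ × ℂ) :
    Ph n (pt x) = lift1 (io2 (gm^[n] (x.1, 0)) (gm^[n] (x.2, 0))) := by
  induction n with
  | zero =>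
    rw [lift1_io2]
    ext i
    fin_cases i <;> simp [Ph, S0, pt_zero, pt_one, pt_two]
  | succ n ih => rw [Ph_succ, ih, Fh_lift, Function.iterate_succ_apply',
      Function.iterate_succ_apply']

lemma hm_gm_iter (n : ℕ) (z : ℂ × ℂ) : hm^[n] (gm^[n] z) = z := by
  have h : Function.LeftInverse hm gm := hm_gm
  exact h.iterate n z

lemma gm_curve (n : ℕ) (s : ℂ) : ∃ v : ℂ × ℂ, v ≠ 0 ∧
    HasDerivAt (fun s : ℂ => gm^[n] (s, 0)) v s := by
  have h1 : HasDerivAt (fun s : ℂ => ((s, 0) : ℂ × ℂ)) (1, 0) s :=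
    (hasDerivAt_id s).prodMk (hasDerivAt_const s (0:ℂ))
  have h2 : HasFDerivAt gm^[n] (fderiv ℂ gm^[n] (s, 0)) (s, 0) :=
    ((differentiable_gm.iterate n) (s, 0)).hasFDerivAt
  have h3 := h2.comp_hasDerivAt s h1
  refine ⟨_, ?_, h3⟩
  intro h0
  have h4 : HasFDerivAt hm^[n] (fderiv ℂ hm^[n] (gm^[n] (s, 0))) (gm^[n] (s, 0)) :=
    ((differentiable_hm.iterate n) _).hasFDerivAt
  have h5 := h4.comp_hasDerivAt s h3
  rw [h0, map_zero] at h5
  have e : (hm^[n] ∘ fun s : ℂ => gm^[n] (s, 0)) = fun s => (s, 0) :=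
    funext fun s => hm_gm_iter n (s, 0)
  have h6 : HasDerivAt (fun s : ℂ => ((s, 0) : ℂ × ℂ)) 0 s := by
    rw [← e]; exact h5
  have h7 := h6.unique h1
  have h8 := congrArg Prod.fst h7
  simp at h8

lemma fderiv_Ph_b1 (n : ℕ) (x : ℂ × ℂ) : ∃ v : ℂ × ℂ, v ≠ 0 ∧
    fderiv ℝ (Ph n) (pt x) b1 = ![0, v.1, v.2, 0, 0] := by
  obtain ⟨v, hv, hd⟩ := gm_curve n x.1
  refine ⟨v, hv, ?_⟩
  rw [(homMap_Ph n).fderiv_eq]
  have h1 : HasDerivAt (fun s : ℂ => pt (s, x.2)) b1 x.1 := by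
    have h := (hasDerivAt_id x.1).smul_const b1
    have h' := (h.const_add b0).add_const (x.2 • b2)
    simpa [pt] using h'
  have h2 : HasFDerivAt (Ph n) (fderiv ℂ (Ph n) (pt x)) (pt (x.1, x.2)) :=
    (homMap_Ph n).hasFDerivAt (pt x)
  have h3 := h2.comp_hasDerivAt x.1 h1
  have e : (Ph n ∘ fun s : ℂ => pt (s, x.2)) =
      fun s => (![1, (gm^[n] (s, 0)).1, (gm^[n] (s, 0)).2, (gm^[n] (x.2, 0)).1,
        (gm^[n] (x.2, 0)).2] : V 4) := by
    funext s
    rw [Function.comp_apply, Ph_pt, lift1_io2]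
  rw [e] at h3
  have h4 : HasDerivAt (fun s => (![1, (gm^[n] (s, 0)).1, (gm^[n] (s, 0)).2,
      (gm^[n] (x.2, 0)).1, (gm^[n] (x.2, 0)).2] : V 4)) ![0, v.1, v.2, 0, 0] x.1 := by
    rw [hasDerivAt_pi]
    intro i
    fin_cases i
    · exact hasDerivAt_const _ _
    · exact hd.fst
    · exact hd.snd
    · exact hasDerivAt_const _ _
    · exact hasDerivAt_const _ _
  exact h3.unique h4

lemma fderiv_Ph_b2 (n : ℕ) (x : ℂ × ℂ) : ∃ v : ℂ × ℂ, v ≠ 0 ∧
    fderiv ℝ (Ph n) (pt x) b2 = ![0, 0, 0, v.1, v.2] := by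
  obtain ⟨v, hv, hd⟩ := gm_curve n x.2
  refine ⟨v, hv, ?_⟩
  rw [(homMap_Ph n).fderiv_eq]
  have h1 : HasDerivAt (fun s : ℂ => pt (x.1, s)) b2 x.2 := by
    have h := (hasDerivAt_id x.2).smul_const b2
    have h' := h.const_add (b0 + x.1 • b1)
    simpa [pt] using h'
  have h2 : HasFDerivAt (Ph n) (fderiv ℂ (Ph n) (pt x)) (pt (x.1, x.2)) :=
    (homMap_Ph n).hasFDerivAt (pt x)
  have h3 := h2.comp_hasDerivAt x.2 h1
  have e : (Ph n ∘ fun s : ℂ => pt (x.1, s)) =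
      fun s => (![1, (gm^[n] (x.1, 0)).1, (gm^[n] (x.1, 0)).2, (gm^[n] (s, 0)).1,
        (gm^[n] (s, 0)).2] : V 4) := by
    funext s
    rw [Function.comp_apply, Ph_pt, lift1_io2]
  rw [e] at h3
  have h4 : HasDerivAt (fun s => (![1, (gm^[n] (x.1, 0)).1, (gm^[n] (x.1, 0)).2,
      (gm^[n] (s, 0)).1, (gm^[n] (s, 0)).2] : V 4)) ![0, 0, 0, v.1, v.2] x.2 := by
    rw [hasDerivAt_pi]
    intro i
    fin_cases i
    · exact hasDerivAt_const _ _
    · exact hasDerivAt_const _ _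
    · exact hasDerivAt_const _ _
    · exact hd.fst
    · exact hd.snd
  exact h3.unique h4

/-- The mass density. -/
noncomputable def md (n : ℕ) (x : ℂ × ℂ) : ℝ :=
  2 * (Real.pi * N (Ph n (pt x)))⁻¹ ^ 2 *
    gram (Ph n (pt x)) (fderiv ℝ (Ph n) (pt x) b1) (fderiv ℝ (Ph n) (pt x) b2)

lemma dens_OmSq (n : ℕ) (x : ℂ × ℂ) : dens (pull (Ph n) (OmSq (k := 4))) x = (md n x : ℂ) := by
  rw [(homMap_Ph n).dens_pull, Q_OmSq ((homMap_Ph n).ne _ (pt_ne_zero x))]
  rfl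

lemma md_nonneg (n : ℕ) (x : ℂ × ℂ) : 0 ≤ md n x := by
  have := gram_nonneg (Ph n (pt x)) (fderiv ℝ (Ph n) (pt x) b1) (fderiv ℝ (Ph n) (pt x) b2)
  unfold md
  positivity

lemma gm_iter_zero (n : ℕ) : gm^[n] (0, 0) = 0 := by
  induction n with
  | zero => rfl
  | succ n ih => rw [Function.iterate_succ_apply', ih]; simp [gm]

lemma md_pos (n : ℕ) : 0 < md n 0 := by
  obtain ⟨v, hv, hv'⟩ := fderiv_Ph_b1 n 0
  obtain ⟨w, hw, hw'⟩ := fderiv_Ph_b2 n 0
  have hZ : Ph n (pt 0) = (![1, 0, 0, 0, 0] : V 4) := by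
    rw [Ph_pt, lift1_io2]
    have := gm_iter_zero n
    simp [this]
  have hZ0 : (![1, 0, 0, 0, 0] : V 4) ≠ 0 := fun h => by
    have := congrFun h 0
    simp at this
  have hNZ := N_pos hZ0
  have ha : hp (![1, 0, 0, 0, 0] : V 4) ![0, v.1, v.2, 0, 0] = ![0, v.1, v.2, 0, 0] := by
    rw [hp]
    have : herm (![1, 0, 0, 0, 0] : V 4) ![0, v.1, v.2, 0, 0] = 0 := by
      simp [herm, Fin.sum_univ_succ]
    rw [this]
    simp
  have hb : hp (![1, 0, 0, 0, 0] : V 4) ![0, 0, 0, w.1, w.2] = ![0, 0, 0, w.1, w.2] := by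
    rw [hp]
    have : herm (![1, 0, 0, 0, 0] : V 4) ![0, 0, 0, w.1, w.2] = 0 := by
      simp [herm, Fin.sum_univ_succ]
    rw [this]
    simp
  have hc : herm (![0, v.1, v.2, 0, 0] : V 4) ![0, 0, 0, w.1, w.2] = 0 := by
    simp [herm, Fin.sum_univ_succ]
  have hva : (![0, v.1, v.2, 0, 0] : V 4) ≠ 0 := fun h => by
    apply hv
    have h1 := congrFun h 1
    have h2 := congrFun h 2
    exact Prod.ext h1 h2
  have hwb : (![0, 0, 0, w.1, w.2] : V 4) ≠ 0 := fun h => by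
    apply hw
    have h1 := congrFun h 3
    have h2 := congrFun h 4
    exact Prod.ext h1 h2
  have h1 := N_pos hva
  have h2 := N_pos hwb
  rw [md, hv', hw', hZ, gram, ha, hb, hc]
  have hpi := Real.pi_pos
  simp only [norm_zero, ne_eq, OfNat.ofNat_ne_zero, not_false_eq_true, zero_pow, sub_zero]
  positivity

lemma continuous_md (n : ℕ) : Continuous (md n) := by
  have h := Complex.continuous_re.comp (continuous_dens ((homMap_Ph n).pull_mem OmSq_mem))
  have e : md n = Complex.re ∘ dens (pull (Ph n) (OmSq (k := 4))) := by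
    funext x
    rw [Function.comp_apply, dens_OmSq, Complex.ofReal_re]
  rw [e]
  exact h

lemma integrable_md (n : ℕ) : Integrable (md n) := by
  have h := (integrable_dens ((homMap_Ph n).pull_mem OmSq_mem)).re
  refine h.congr (Eventually.of_forall fun x => ?_)
  simp only [dens_OmSq]
  exact Complex.ofReal_re _

/-- The mass. -/
noncomputable def mas (n : ℕ) : ℝ := ∫ x, md n x

lemma mas_pos (n : ℕ) : 0 < mas n := by
  rw [mas, integral_pos_iff_support_of_nonneg (md_nonneg n) (integrable_md n)]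
  have ho : IsOpen (Function.support (md n)) := (continuous_md n).isOpen_support
  exact ho.measure_pos _ ⟨0, (md_pos n).ne'⟩

end Pool.Agent.Helper33.Henon
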