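import Pool.Agent.Helper33.Henon.PTwo

set_option autoImplicit false

open scoped ContDiff LinearAlgebra.Projectivization ComplexConjugate Topology
open Set Filter MeasureTheory

namespace Pool.Agent.Helper33.Henon

lemma smoothTransition_deriv_bound : ∃ K, 0 ≤ K ∧ ∀ u, |deriv Real.smoothTransition u| ≤ K := by
  have hc : Continuous (deriv Real.smoothTransition) :=
    (Real.smoothTransition.contDiff (n := 1)).continuous_deriv le_rfl
  obtain ⟨K, hK⟩ := (isCompact_Icc (a := (0:ℝ)) (b := 1)).exists_bound_of_continuousOn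
    hc.continuousOn
  refine ⟨max K 0, le_max_right _ _, fun u => ?_⟩
  by_cases hu : u ∈ Icc (0:ℝ) 1
  · exact (hK u hu).trans (le_max_left _ _)
  · have : deriv Real.smoothTransition u = 0 := by
      rw [mem_Icc, not_and_or, not_le, not_le] at hu
      rcases hu with h | h
      · have he : Real.smoothTransition =ᶠ[𝓝 u] fun _ => 0 := by
          filter_upwards [gt_mem_nhds h] with w hw
          exact Real.smoothTransition.zero_of_nonpos hw.le
        rw [he.deriv_eq, deriv_const]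
      · have he : Real.smoothTransition =ᶠ[𝓝 u] fun _ => 1 := by
          filter_upwards [lt_mem_nhds h] with w hw
          exact Real.smoothTransition.one_of_one_le hw.le
        rw [he.deriv_eq, deriv_const]
    rw [this, abs_zero]
    exact le_max_right _ _

lemma smoothTransition_deriv_zero {u : ℝ} (hu : u ∉ Icc (0:ℝ) 1) :
    deriv Real.smoothTransition u = 0 := by
  rw [mem_Icc, not_and_or, not_le, not_le] at hu
  rcases hu with h | h
  · have he : Real.smoothTransition =ᶠ[𝓝 u] fun _ => 0 := by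
      filter_upwards [gt_mem_nhds h] with w hw
      exact Real.smoothTransition.zero_of_nonpos hw.le
    rw [he.deriv_eq, deriv_const]
  · have he : Real.smoothTransition =ᶠ[𝓝 u] fun _ => 1 := by
      filter_upwards [lt_mem_nhds h] with w hw
      exact Real.smoothTransition.one_of_one_le hw.le
    rw [he.deriv_eq, deriv_const]

/-- The index set `{0}`. -/
def J0 : Finset (Fin (2 + 1)) := {0}

lemma NJ_J0 (x : ℂ × ℂ) : NJ J0 (pt x) = 1 := by
  rw [NJ_apply, J0, Finset.sum_singleton, pt_zero]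
  simp

lemma tP_pt (x : ℂ × ℂ) : tP J0 (pt x) = (N (pt x))⁻¹ := by
  rw [tP, NJ_J0, one_div]

lemma one_le_N_pt (x : ℂ × ℂ) : 1 ≤ N (pt x) := by
  rw [N_pt]; nlinarith [sq_nonneg ‖x.1‖, sq_nonneg ‖x.2‖]

lemma norm_pt_le_N (x : ℂ × ℂ) : ‖pt x‖ ≤ N (pt x) := by
  have h1 := norm_pt_le x
  rw [← N_pt] at h1
  have h2 := one_le_norm_pt x
  nlinarith

lemma RJ_bound (z v : V 2) : |RJ Finset.univ z v| ≤ 3 * ‖z‖ * ‖v‖ := by
  rw [RJ_apply]
  refine (Complex.abs_re_le_norm _).trans ?_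
  rw [HJ_apply, Fin.sum_univ_three]
  have h : ∀ i : Fin 3, ‖conj (z i) * v i‖ ≤ ‖z‖ * ‖v‖ := by
    intro i
    rw [norm_mul, RCLike.norm_conj]
    exact mul_le_mul (norm_le_pi_norm z i) (norm_le_pi_norm v i) (norm_nonneg _) (norm_nonneg _)
  have h0 := h 0
  have h1 := h 1
  have h2 := h 2
  have t1 := norm_add_le (conj (z 0) * v 0 + conj (z 1) * v 1) (conj (z 2) * v 2)
  have t2 := norm_add_le (conj (z 0) * v 0) (conj (z 1) * v 1)
  linarith

lemma RJ0_bound (x : ℂ × ℂ) (v : V 2) : |RJ J0 (pt x) v| ≤ ‖v‖ := by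
  rw [RJ_apply]
  refine (Complex.abs_re_le_norm _).trans ?_
  rw [HJ_apply, J0, Finset.sum_singleton, pt_zero, map_one, one_mul]
  exact norm_le_pi_norm v 0

/-- The derivative of `|z₀|² / |z|²` in the chart. -/
lemma hasFDerivAt_tP (x : ℂ × ℂ) : ∃ D : V 2 →L[ℝ] ℝ, HasFDerivAt (tP J0) D (pt x) ∧
    ‖D‖ ≤ 8 * (N (pt x))⁻¹ := by
  have hN := one_le_N_pt x
  have hne : N (pt x) ≠ 0 := by linarith
  have h1 := hasFDerivAt_NJ J0 (pt x)
  have h2 : HasFDerivAt (N (k := 2)) ((2 : ℝ) • RJ Finset.univ (pt x)) (pt x) := by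
    have e : (N : V 2 → ℝ) = NJ Finset.univ := funext fun z => (NJ_univ z).symm
    rw [e]
    exact hasFDerivAt_NJ Finset.univ (pt x)
  have h3 := (hasDerivAt_inv hne).comp_hasFDerivAt (pt x) h2
  have h4 := h1.mul h3
  have e : (tP J0 : V 2 → ℝ) = (NJ J0) * ((fun y => y⁻¹) ∘ N) := by
    funext z
    simp [tP, div_eq_mul_inv]
  rw [← e] at h4
  refine ⟨_, h4, ?_⟩
  refine ContinuousLinearMap.opNorm_le_bound _ (by positivity) fun v => ?_
  simp only [_root_.add_apply, _root_.smul_apply, smul_eq_mul, Function.comp_apply, NJ_J0,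
    one_mul, Real.norm_eq_abs]
  have a1 := RJ_bound (pt x) v
  have a2 := RJ0_bound x v
  have a3 := norm_pt_le_N x
  have hv := norm_nonneg v
  have hN0 : 0 < N (pt x) := by linarith
  have t1 : |(-(N (pt x) ^ 2)⁻¹) * (2 * RJ Finset.univ (pt x) v)| ≤
      6 * (N (pt x))⁻¹ * ‖v‖ := by
    rw [abs_mul, abs_neg, abs_of_pos (by positivity : (0:ℝ) < (N (pt x) ^ 2)⁻¹), abs_mul,
      abs_of_pos (by norm_num : (0:ℝ) < 2)]
    calc (N (pt x) ^ 2)⁻¹ * (2 * |RJ Finset.univ (pt x) v|)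
        ≤ (N (pt x) ^ 2)⁻¹ * (2 * (3 * N (pt x) * ‖v‖)) := by
          have : 3 * ‖pt x‖ * ‖v‖ ≤ 3 * N (pt x) * ‖v‖ := by gcongr
          gcongr
          exact a1.trans this
      _ = 6 * (N (pt x))⁻¹ * ‖v‖ := by field_simp; ring
  have t2 : |(N (pt x))⁻¹ * (2 * RJ J0 (pt x) v)| ≤ 2 * (N (pt x))⁻¹ * ‖v‖ := by
    rw [abs_mul, abs_of_pos (by positivity : (0:ℝ) < (N (pt x))⁻¹), abs_mul,
      abs_of_pos (by norm_num : (0:ℝ) < 2)]
    calc (N (pt x))⁻¹ * (2 * |RJ J0 (pt x) v|) ≤ (N (pt x))⁻¹ * (2 * ‖v‖) := by gcongr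
      _ = _ := by ring
  refine (abs_add_le _ _).trans ?_
  linarith

/-- Uniform bound for the derivative of the cut-off functions. -/
lemma cut_fderiv_bound : ∃ K, 0 ≤ K ∧ ∀ δ : ℝ, 0 < δ → ∀ x : ℂ × ℂ,
    ‖fderiv ℝ (cut J0 δ) (pt x)‖ ≤ K := by
  obtain ⟨K, hK0, hK⟩ := smoothTransition_deriv_bound
  refine ⟨16 * K, by positivity, fun δ hδ x => ?_⟩
  obtain ⟨D, hD, hDn⟩ := hasFDerivAt_tP x
  have hN := one_le_N_pt x
  have hN0 : 0 < N (pt x) := by linarith
  set u := (tP J0 (pt x) - δ / 2) / (δ / 2) with hu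
  have h1 : HasFDerivAt (fun z => (tP J0 z - δ / 2) / (δ / 2)) ((δ / 2)⁻¹ • D) (pt x) := by
    have := (hD.sub_const (δ / 2)).const_mul (δ / 2)⁻¹
    exact this.congr_of_eventuallyEq (Eventually.of_forall fun z => div_eq_inv_mul _ _)
  have h2 : HasDerivAt Real.smoothTransition (deriv Real.smoothTransition u) u :=
    ((Real.smoothTransition.contDiff (n := 1)).differentiable one_ne_zero u).hasDerivAt
  have h3 : HasFDerivAt (cut J0 δ) (deriv Real.smoothTransition u • ((δ / 2)⁻¹ • D)) (pt x) :=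
    h2.comp_hasFDerivAt (pt x) h1
  rw [h3.fderiv, norm_smul, norm_smul, Real.norm_eq_abs, Real.norm_eq_abs,
    abs_of_pos (by positivity : (0:ℝ) < (δ / 2)⁻¹)]
  by_cases hu' : u ∈ Icc (0:ℝ) 1
  · have h5 : tP J0 (pt x) ≤ δ := by
      have := hu'.2
      rw [hu, div_le_one (by positivity)] at this
      linarith
    rw [tP_pt] at h5
    have h6 : (δ / 2)⁻¹ * (8 * (N (pt x))⁻¹) ≤ 16 := by
      rw [inv_mul_le_iff₀ (by positivity)]
      linarith
    calc |deriv Real.smoothTransition u| * ((δ / 2)⁻¹ * ‖D‖)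
        ≤ K * ((δ / 2)⁻¹ * (8 * (N (pt x))⁻¹)) := by
          gcongr
          exact hK u
      _ ≤ K * 16 := by gcongr
      _ = 16 * K := by ring
  · rw [smoothTransition_deriv_zero hu', abs_zero, zero_mul]
    positivity

/-- The derivative of a function on `ℙᵏ` vanishes on vertical vectors. -/
lemma fderiv_vertical {k : ℕ} {χ : V k → ℝ} (hχ : IsFun χ) {z : V k} (hz : z ≠ 0) (c : ℂ) :
    fderiv ℝ χ z (c • z) = 0 := by
  have h1 : HasDerivAt (fun t : ℝ => z + t • (c • z)) (c • z) 0 := by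
    have := (hasDerivAt_id (0:ℝ)).smul_const (c • z)
    simpa using this.const_add z
  have h2 : HasFDerivAt χ (fderiv ℝ χ z) (z + (0:ℝ) • (c • z)) := by
    rw [zero_smul, add_zero]
    exact ((hχ.1.contDiffAt (isOpen_compl_zero.mem_nhds hz)).differentiableAt
      (by simp)).hasFDerivAt
  have h3 := h2.comp_hasDerivAt (0:ℝ) h1
  have h4 : (χ ∘ fun t : ℝ => z + t • (c • z)) =ᶠ[𝓝 0] fun _ => χ z := by
    have ho : ∀ᶠ t : ℝ in 𝓝 0, (1 + (t : ℂ) * c) ≠ 0 := by
      have hc : ContinuousAt (fun t : ℝ => 1 + (t : ℂ) * c) 0 := by fun_prop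
      apply hc.eventually_ne
      simp
    filter_upwards [ho] with t ht
    have e : z + t • (c • z) = (1 + (t : ℂ) * c) • z := by
      ext j
      simp
      ring
    change χ (z + t • (c • z)) = χ z
    rw [e, hχ.2 _ ht z hz]
  have h5 : HasDerivAt (χ ∘ fun t : ℝ => z + t • (c • z)) 0 0 :=
    (hasDerivAt_const (0:ℝ) (χ z)).congr_of_eventuallyEq h4
  exact h3.unique h5

lemma integral_fderiv_zero {G : ℂ × ℂ → ℂ} (hG : ContDiff ℝ 1 G) (hc : HasCompactSupport G)
    (v : ℂ × ℂ) : ∫ x, fderiv ℝ G x v = 0 := by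
  have hcf : Continuous (fun x => fderiv ℝ G x v) :=
    (hG.continuous_fderiv one_ne_zero).clm_apply continuous_const
  have hcs : HasCompactSupport (fun x => fderiv ℝ G x v) := hc.fderiv_apply (𝕜 := ℝ) v
  have h := integral_smul_fderiv_eq_neg_fderiv_smul_of_integrable (μ := (volume : Measure (ℂ × ℂ)))
    (f := fun _ : ℂ × ℂ => (1:ℝ)) (g := G) (v := v) (by simp)
    (by simpa using hcf.integrable_of_hasCompactSupport hcs)
    (by simpa using hG.continuous.integrable_of_hasCompactSupport hc)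
    (fun x _ => differentiableAt_const _) (fun x _ => hG.differentiable one_ne_zero x)
  simpa using h

/-- The error term `(dχ ∧ γ)(frame)`. -/
noncomputable def Wd (γ : Form 2 3) (δ : ℝ) (x : ℂ × ℂ) : ℂ :=
  wedgeL 3 (fderiv ℝ (cut J0 δ) (pt x)) (γ (pt x)) fr

lemma Wd_bound {γ : Form 2 3} (hγ : γ ∈ smoothForms 2 3) :
    ∃ C, ∀ δ : ℝ, 0 < δ → ∀ x, ‖Wd γ δ x‖ ≤ C * Jb x := by
  obtain ⟨C, hC0, hC⟩ := sup_bound hγ
  obtain ⟨K, hK0, hK⟩ := cut_fderiv_bound
  refine ⟨9 * (4 * (K * C)), fun δ hδ x => ?_⟩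
  refine chart_bound x _ ?_ (by positivity) ?_
  · rintro v ⟨i, c, hi⟩
    rw [wedgeL_apply]
    refine Finset.sum_eq_zero fun j _ => ?_
    by_cases hj : j = i
    · rw [hj, hi, fderiv_vertical (cut_isFun J0 δ) (pt_ne_zero x) c]
      simp
    · have h0 : γ (pt x) (j.removeNth v) = 0 := by
        apply hγ.2.2.2 _ (pt_ne_zero x)
        obtain ⟨l, hl⟩ := Fin.exists_succAbove_eq (Ne.symm hj)
        refine ⟨l, c, ?_⟩
        rw [← hi, ← hl]
        rfl
      rw [h0]
      simp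
  · intro v
    rw [wedgeL_apply]
    have h1 : ∀ j : Fin 4, ‖(-1 : ℂ) ^ (j : ℕ) * ((fderiv ℝ (cut J0 δ) (pt x) (v j) : ℂ) *
        γ (pt x) (j.removeNth v))‖ ≤ (K * C) * ‖pt x‖⁻¹ ^ 3 * ∏ i, ‖v i‖ := by
      intro j
      rw [norm_mul, norm_pow, norm_neg, norm_one, one_pow, one_mul, norm_mul, Complex.norm_real]
      have h2 : ‖fderiv ℝ (cut J0 δ) (pt x) (v j)‖ ≤ K * ‖v j‖ :=
        ((fderiv ℝ (cut J0 δ) (pt x)).le_opNorm _).trans
          (mul_le_mul_of_nonneg_right (hK δ hδ x) (norm_nonneg _))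
      have h3 := hC (pt x) (pt_ne_zero x) (j.removeNth v)
      have h4 : ∏ i, ‖v i‖ = ‖v j‖ * ∏ i, ‖(j.removeNth v) i‖ :=
        Fin.prod_univ_succAbove (fun i => ‖v i‖) j
      rw [h4]
      calc _ ≤ (K * ‖v j‖) * ((C * ‖pt x‖⁻¹ ^ 3) * ∏ i, ‖(j.removeNth v) i‖) := by gcongr
        _ = _ := by ring
    refine (norm_sum_le _ _).trans ?_
    refine (Finset.sum_le_sum fun j _ => h1 j).trans ?_
    rw [Finset.sum_const, Finset.card_univ, Fintype.card_fin]
    simp only [nsmul_eq_mul]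
    push_cast
    linarith

/-- The chart components of a `3`-form. -/
noncomputable def Fc (γ : Form 2 3) (i : Fin 4) (x : ℂ × ℂ) : ℂ := γ (pt x) (i.removeNth fr)

/-- The cut-off function in the chart. -/
noncomputable def Xc (δ : ℝ) (x : ℂ × ℂ) : ℝ := cut J0 δ (pt x)

lemma contDiff_Xc (δ : ℝ) : ContDiff ℝ ∞ (Xc δ) := by
  rw [contDiff_iff_contDiffAt]
  intro x
  exact ((cut_isFun J0 δ).1.contDiffAt (isOpen_compl_zero.mem_nhds (pt_ne_zero x))).comp x
    contDiff_pt.contDiffAt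

lemma hasFDerivAt_Xc (δ : ℝ) (x : ℂ × ℂ) :
    HasFDerivAt (Xc δ) ((fderiv ℝ (cut J0 δ) (pt x)).comp ptL) x := by
  have h : HasFDerivAt (cut J0 δ) (fderiv ℝ (cut J0 δ) (pt x)) (pt x) :=
    (((cut_isFun J0 δ).1.contDiffAt (isOpen_compl_zero.mem_nhds (pt_ne_zero x))).differentiableAt
      (by simp)).hasFDerivAt
  exact h.comp x (hasFDerivAt_pt x)

lemma hasFDerivAt_Fc {γ : Form 2 3} (hγ : γ ∈ smoothForms 2 3) (i : Fin 4) (x : ℂ × ℂ) :
    HasFDerivAt (Fc γ i) ((ContinuousAlternatingMap.apply ℝ (V 2) ℂ (i.removeNth fr)).comp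
      ((fderiv ℝ γ (pt x)).comp ptL)) x := by
  have h : HasFDerivAt γ (fderiv ℝ γ (pt x)) (pt x) :=
    ((differentiableAt_of_mem hγ (pt_ne_zero x)).differentiableAt (by simp)).hasFDerivAt
  exact (ContinuousAlternatingMap.apply ℝ (V 2) ℂ (i.removeNth fr)).hasFDerivAt.comp x
    (h.comp x (hasFDerivAt_pt x))

lemma Xc_zero {δ : ℝ} (hδ : 0 < δ) {x : ℂ × ℂ} (hx : 2 / δ < ‖x‖) : Xc δ x = 0 := by
  apply cut_eq_zero hδ
  rw [tP_pt]
  have h1 : ‖x‖ ≤ N (pt x) := (norm_le_norm_pt x).trans (norm_pt_le_N x)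
  have h2 : 2 / δ ≤ N (pt x) := hx.le.trans h1
  have h3 : (0:ℝ) < 2 / δ := by positivity
  calc (N (pt x))⁻¹ ≤ (2 / δ)⁻¹ := inv_anti₀ h3 h2
    _ = δ / 2 := by rw [inv_div]

/-- Stokes' theorem on `ℙ²` for smooth `3`-forms. -/
theorem stokes {γ : Form 2 3} (hγ : γ ∈ smoothForms 2 3) : ∫ x, dens (dF γ) x = 0 := by
  -- the cut-off identity
  have hcut : ∀ δ : ℝ, 0 < δ → Continuous (fun x => Wd γ δ x + (Xc δ x : ℂ) * dens (dF γ) x) ∧
      ∫ x, (Wd γ δ x + (Xc δ x : ℂ) * dens (dF γ) x) = 0 := by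
    intro δ hδ
    have hG : ∀ i : Fin 4, ContDiff ℝ ∞ (fun x => (Xc δ x : ℂ) * Fc γ i x) := fun i =>
      (Complex.ofRealCLM.contDiff.comp (contDiff_Xc δ)).mul (contDiff_comp_pt hγ _)
    have hGc : ∀ i : Fin 4, HasCompactSupport (fun x => (Xc δ x : ℂ) * Fc γ i x) := fun i => by
      refine HasCompactSupport.intro (isCompact_closedBall (0 : ℂ × ℂ) (2 / δ)) fun x hx => ?_
      rw [mem_closedBall_zero_iff, not_le] at hx
      rw [Xc_zero hδ hx]
      simp
    have h0 : ∀ i : Fin 4, ∫ x, fderiv ℝ (fun x => (Xc δ x : ℂ) * Fc γ i x) x (ub i) = 0 :=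
      fun i => integral_fderiv_zero ((hG i).of_le (by exact_mod_cast le_top)) (hGc i) (ub i)
    have hint : ∀ i : Fin 4, Integrable
        (fun x => fderiv ℝ (fun x => (Xc δ x : ℂ) * Fc γ i x) x (ub i)) := fun i =>
      ((hG i).continuous_fderiv (by simp)).clm_apply continuous_const |>.integrable_of_hasCompactSupport
        ((hGc i).fderiv_apply (𝕜 := ℝ) (ub i))
    have hpt : ∀ x, Wd γ δ x + (Xc δ x : ℂ) * dens (dF γ) x =
        ∑ i : Fin 4, (-1 : ℂ) ^ (i : ℕ) *
          fderiv ℝ (fun x => (Xc δ x : ℂ) * Fc γ i x) x (ub i) := by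
      intro x
      have h1 : ∀ i : Fin 4, fderiv ℝ (fun x => (Xc δ x : ℂ) * Fc γ i x) x (ub i) =
          (Xc δ x : ℂ) * fderiv ℝ γ (pt x) (fr i) (i.removeNth fr) +
            (fderiv ℝ (cut J0 δ) (pt x) (fr i) : ℂ) * Fc γ i x := by
        intro i
        have a1 := Complex.ofRealCLM.hasFDerivAt.comp x (hasFDerivAt_Xc δ x)
        have a2 := a1.mul (hasFDerivAt_Fc hγ i x)
        have a3 : fderiv ℝ (fun x => (Xc δ x : ℂ) * Fc γ i x) x = _ := a2.fderiv
        rw [a3]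
        simp only [_root_.add_apply, _root_.smul_apply, ContinuousLinearMap.comp_apply, ptL_ub,
          smul_eq_mul, Function.comp_apply, Complex.ofRealCLM_apply]
        rw [mul_comm (Fc γ i x)]
        rfl
      rw [Wd, wedgeL_apply]
      have e : dens (dF γ) x = ∑ i : Fin 4, (-1 : ℂ) ^ (i : ℕ) *
          fderiv ℝ γ (pt x) (fr i) (i.removeNth fr) := by
        rw [dens, dF_apply (pt_ne_zero x)]
        unfold extDeriv
        rw [ContinuousAlternatingMap.alternatizeUncurryFin_apply]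
        refine Finset.sum_congr rfl fun i _ => ?_
        simp
      rw [e, Finset.mul_sum, ← Finset.sum_add_distrib]
      refine Finset.sum_congr rfl fun i _ => ?_
      rw [h1 i, Fc]
      ring
    simp only [hpt]
    refine ⟨?_, ?_⟩
    · exact continuous_finsetSum _ fun i _ => continuous_const.mul
        (((hG i).continuous_fderiv (by simp)).clm_apply continuous_const)
    rw [integral_finsetSum _ fun i _ => (hint i).const_mul _]
    refine Finset.sum_eq_zero fun i _ => ?_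
    rw [integral_const_mul, h0 i, mul_zero]
  -- the limit
  obtain ⟨C, hC⟩ := Wd_bound hγ
  obtain ⟨C', hC'0, hC'⟩ := dens_bound (dF_mem hγ)
  have hlim : Tendsto (fun n : ℕ => ∫ x, (Wd γ (1 / (n + 1 : ℝ)) x +
      (Xc (1 / (n + 1 : ℝ)) x : ℂ) * dens (dF γ) x)) atTop (𝓝 (∫ x, dens (dF γ) x)) := by
    refine tendsto_integral_of_dominated_convergence (fun x => (C + C') * Jb x) ?_
      (integrable_Jb.const_mul _) ?_ ?_
    · intro n
      exact (hcut _ (by positivity)).1.aestronglyMeasurable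
    · intro n
      refine Eventually.of_forall fun x => ?_
      have hn : (0:ℝ) < 1 / (n + 1 : ℝ) := by positivity
      have h1 := hC _ hn x
      have h2 := hC' x
      have h3 : |Xc (1 / (n + 1 : ℝ)) x| ≤ 1 := by
        rw [Xc, cut, abs_of_nonneg (Real.smoothTransition.nonneg _)]
        exact Real.smoothTransition.le_one _
      refine (norm_add_le _ _).trans ?_
      rw [norm_mul, Complex.norm_real, Real.norm_eq_abs]
      have h4 : |Xc (1 / (n + 1 : ℝ)) x| * ‖dens (dF γ) x‖ ≤ 1 * (C' * Jb x) := by gcongr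
      linarith
    · refine Eventually.of_forall fun x => ?_
      have hN := one_le_N_pt x
      have hev : ∀ᶠ n : ℕ in atTop, (1 / (n + 1 : ℝ)) < (N (pt x))⁻¹ :=
        (tendsto_one_div_add_atTop_nhds_zero_nat).eventually (gt_mem_nhds (by positivity))
      refine tendsto_const_nhds.congr' ?_
      filter_upwards [hev] with n hn
      have hn0 : (0:ℝ) < 1 / (n + 1 : ℝ) := by positivity
      rw [← tP_pt] at hn
      have h1 : cut J0 (1 / (n + 1 : ℝ)) =ᶠ[𝓝 (pt x)] fun _ => 1 := by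
        have hc : ContinuousAt (tP J0) (pt x) :=
          ((tP_contDiffOn J0).continuousOn).continuousAt
            (isOpen_compl_zero.mem_nhds (pt_ne_zero x))
        filter_upwards [hc.eventually (lt_mem_nhds hn)] with w hw
        exact cut_eq_one hn0 hw.le
      have h2 : fderiv ℝ (cut J0 (1 / (n + 1 : ℝ))) (pt x) = 0 := by
        rw [h1.fderiv_eq]
        exact fderiv_const_apply _
      have h3 : Xc (1 / (n + 1 : ℝ)) x = 1 := cut_eq_one hn0 hn.le
      rw [Wd, h2, h3, map_zero]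
      simp
  have hz : (fun n : ℕ => ∫ x, (Wd γ (1 / (n + 1 : ℝ)) x +
      (Xc (1 / (n + 1 : ℝ)) x : ℂ) * dens (dF γ) x)) = fun _ => 0 := by
    funext n
    exact (hcut _ (by positivity)).2
  rw [hz] at hlim
  exact tendsto_nhds_unique hlim tendsto_const_nhds

end Pool.Agent.Helper33.Henon
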