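import Pool.Agent.Helper33.Henon.Green

set_option autoImplicit false

open scoped ContDiff LinearAlgebra.Projectivization ComplexConjugate Topology
open Set Filter MeasureTheory

namespace Pool.Agent.Helper33.Henon

/-! ## The filtration of `ℂ²` -/

/-- The complement of the escaping region. -/
def Gd (z : ℂ × ℂ) : Prop := ‖z.2‖ ≤ max 16 ‖z.1‖

lemma not_Gd_hm {z : ℂ × ℂ} (h : ¬ Gd z) : ¬ Gd (hm z) := by
  rw [Gd, not_le, max_lt_iff] at h ⊢
  obtain ⟨h1, h2⟩ := h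
  have e1 : ‖(hm z).1‖ = ‖z.2‖ / 2 := by simp [hm]
  have e2 : ‖z.2‖ ^ 2 / 8 - ‖z.1‖ / 2 ≤ ‖(hm z).2‖ := by
    have : (hm z).2 = z.1 / 2 - z.2 ^ 2 / 8 := rfl
    rw [this]
    have h2 := norm_sub_norm_le (z.2 ^ 2 / 8) (z.1 / 2)
    rw [norm_sub_rev] at h2
    simpa using h2
  have e3 : 3 / 2 * ‖z.2‖ ≤ ‖(hm z).2‖ := by
    refine le_trans ?_ e2
    nlinarith
  rw [e1]
  constructor <;> linarith

lemma Gd_of_iter (n : ℕ) {z : ℂ × ℂ} (h : Gd (hm^[n] z)) : Gd z := by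
  induction n with
  | zero => exact h
  | succ n ih =>
    apply ih
    rw [Function.iterate_succ_apply'] at h
    by_contra hcon
    exact not_Gd_hm hcon h

/-- If the orbit never enters the escaping region it is bounded. -/
lemma bdd_of_Gd {z : ℂ × ℂ} (h : ∀ n, Gd (hm^[n] z)) : ∀ n, ‖hm^[n] z‖ ≤ max 16 ‖z.1‖ := by
  have h1 : ∀ n, ‖(hm^[n] z).1‖ ≤ max 16 ‖z.1‖ := by
    intro n
    induction n with
    | zero => exact le_max_right _ _
    | succ n ih =>
      rw [Function.iterate_succ_apply']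
      have e1 : ‖(hm (hm^[n] z)).1‖ = ‖(hm^[n] z).2‖ / 2 := by simp [hm]
      have h2 : ‖(hm^[n] z).2‖ ≤ max 16 ‖(hm^[n] z).1‖ := h n
      have h3 : ‖(hm^[n] z).2‖ ≤ max 16 ‖z.1‖ := h2.trans (max_le (le_max_left _ _) ih)
      rw [e1]
      have : (0:ℝ) ≤ max 16 ‖z.1‖ := le_max_of_le_left (by norm_num)
      linarith
  intro n
  rw [norm_le_iff']
  exact ⟨h1 n, (h n).trans (max_le (le_max_left _ _) (h1 n))⟩

/-- Points of `ℂ²` with bounded orbit: growth. -/
lemma growth {z : ℂ × ℂ} (h : ∀ n, Gd (hm^[n] z)) : ‖z.2‖ ^ 2 ≤ 8 * ‖z.1‖ + 192 := by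
  have h0 : ‖z.2‖ ≤ max 16 ‖z.1‖ := h 0
  have h1 : ‖(hm z).2‖ ≤ max 16 ‖(hm z).1‖ := h 1
  have e1 : ‖(hm z).1‖ = ‖z.2‖ / 2 := by simp [hm]
  have e2 : ‖z.2‖ ^ 2 / 8 - ‖z.1‖ / 2 ≤ ‖(hm z).2‖ := by
    have : (hm z).2 = z.1 / 2 - z.2 ^ 2 / 8 := rfl
    rw [this]
    have h2 := norm_sub_norm_le (z.2 ^ 2 / 8) (z.1 / 2)
    rw [norm_sub_rev] at h2
    simpa using h2
  rw [e1] at h1
  have h2 : max 16 (‖z.2‖ / 2) ≤ 16 + ‖z.2‖ / 2 :=
    max_le (by linarith [norm_nonneg z.2]) (by linarith)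
  have h3 : max 16 ‖z.1‖ ≤ 16 + ‖z.1‖ := max_le (by linarith [norm_nonneg z.1]) (by linarith)
  linarith

/-! ## Vertical lines meet the set of bounded orbits -/

/-- The iterates restricted to a vertical line, as polynomials. -/
noncomputable def pq (x : ℂ) : ℕ → Polynomial ℂ × Polynomial ℂ
  | 0 => (Polynomial.C x, Polynomial.X)
  | n + 1 => (Polynomial.C (1 / 2) * (pq x n).2,
      Polynomial.C (1 / 2) * (pq x n).1 - Polynomial.C (1 / 8) * (pq x n).2 ^ 2)

lemma pq_eval (x y : ℂ) (n : ℕ) :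
    hm^[n] (x, y) = ((pq x n).1.eval y, (pq x n).2.eval y) := by
  induction n with
  | zero => simp [pq]
  | succ n ih =>
    rw [Function.iterate_succ_apply', ih]
    ext
    · simp [pq, hm]; ring
    · simp [pq, hm]; ring

lemma pq_degree (x : ℂ) (n : ℕ) : (pq x n).1.natDegree < 2 ^ n ∧ (pq x n).2.natDegree = 2 ^ n := by
  induction n with
  | zero => simp [pq]
  | succ n ih =>
    obtain ⟨h1, h2⟩ := ih
    have h2pos : 0 < 2 ^ n := by positivity
    have a1 : (Polynomial.C (1 / 2 : ℂ) * (pq x n).2).natDegree = 2 ^ n := by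
      rw [Polynomial.natDegree_C_mul (by norm_num), h2]
    have a2 : (Polynomial.C (1 / 8 : ℂ) * (pq x n).2 ^ 2).natDegree = 2 ^ (n + 1) := by
      rw [Polynomial.natDegree_C_mul (by norm_num), Polynomial.natDegree_pow, h2, pow_succ]
      ring
    have a3 : (Polynomial.C (1 / 2 : ℂ) * (pq x n).1).natDegree < 2 ^ (n + 1) := by
      rw [Polynomial.natDegree_C_mul (by norm_num), pow_succ]
      omega
    refine ⟨?_, ?_⟩
    · change (Polynomial.C (1 / 2 : ℂ) * (pq x n).2).natDegree < 2 ^ (n + 1)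
      rw [a1, pow_succ]
      omega
    · change (Polynomial.C (1 / 2 : ℂ) * (pq x n).1 -
        Polynomial.C (1 / 8 : ℂ) * (pq x n).2 ^ 2).natDegree = 2 ^ (n + 1)
      rw [Polynomial.natDegree_sub_eq_right_of_natDegree_lt (by rw [a2]; exact a3), a2]

lemma exists_root (x : ℂ) (n : ℕ) : ∃ y : ℂ, (hm^[n] (x, y)).2 = 0 := by
  have h := (pq_degree x n).2
  have hne : (pq x n).2.degree ≠ 0 := by
    intro h0
    have h1 : (pq x n).2.natDegree = 0 := Polynomial.natDegree_eq_zero_iff_degree_le_zero.2 h0.le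
    have : 0 < 2 ^ n := by positivity
    omega
  obtain ⟨y, hy⟩ := IsAlgClosed.exists_root _ hne
  exact ⟨y, by rw [pq_eval]; exact hy⟩

lemma continuous_hm_iter (n : ℕ) : Continuous hm^[n] := (differentiable_hm.continuous).iterate n

lemma isClosed_Gd_iter (n : ℕ) : IsClosed {z : ℂ × ℂ | Gd (hm^[n] z)} := by
  have h := continuous_hm_iter n
  exact isClosed_le h.snd.norm (continuous_const.max h.fst.norm)

/-- Every vertical line contains a point with bounded forward orbit. -/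
lemma exists_bounded (x : ℂ) : ∃ y : ℂ, ∀ n, Gd (hm^[n] (x, y)) := by
  let A : ℕ → Set ℂ := fun n => {y | ∀ j ≤ n, Gd (hm^[j] (x, y))}
  have hcl : ∀ n, IsClosed (A n) := by
    intro n
    have : A n = ⋂ j, ⋂ (_ : j ≤ n), (fun y : ℂ => ((x, y) : ℂ × ℂ)) ⁻¹' {z | Gd (hm^[j] z)} := by
      ext y; simp [A]
    rw [this]
    exact isClosed_iInter fun j => isClosed_iInter fun _ =>
      (isClosed_Gd_iter j).preimage (by fun_prop)
  have hne : ∀ n, (A n).Nonempty := by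
    intro n
    obtain ⟨y, hy⟩ := exists_root x n
    refine ⟨y, fun j hj => ?_⟩
    apply Gd_of_iter (n - j)
    rw [← Function.iterate_add_apply, Nat.sub_add_cancel hj, Gd, hy, norm_zero]
    positivity
  have hsub : A 0 ⊆ Metric.closedBall 0 (max 16 ‖x‖) := by
    intro y hy
    have h1 : ‖y‖ ≤ max 16 ‖x‖ := hy 0 le_rfl
    rw [mem_closedBall_zero_iff]
    exact h1
  have hcomp : IsCompact (A 0) :=
    (isCompact_closedBall (0:ℂ) (max 16 ‖x‖)).of_isClosed_subset (hcl 0) hsub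
  obtain ⟨y, hy⟩ := IsCompact.nonempty_iInter_of_sequence_nonempty_isCompact_isClosed A
    (fun n y hy j hj => hy j (hj.trans n.le_succ)) hne hcomp hcl
  exact ⟨y, fun n => mem_iInter.1 hy n n le_rfl⟩

/-! ## The closed sets `C_n` -/

/-- The homogenisation of `f`. -/
noncomputable def Hh (Z : V 4) : V 4 :=
  ![Z 0 ^ 2, Z 0 * Z 2 / 2, Z 0 * Z 1 / 2 - Z 2 ^ 2 / 8, Z 0 * Z 4 / 2, Z 0 * Z 3 / 2 - Z 4 ^ 2 / 8]

lemma Hh_smul (c : ℂ) (Z : V 4) : Hh (c • Z) = c ^ 2 • Hh Z := by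
  ext i
  fin_cases i <;> simp [Hh] <;> ring

lemma Hh_iter_smul (n : ℕ) (c : ℂ) (Z : V 4) : Hh^[n] (c • Z) = c ^ (2 ^ n) • Hh^[n] Z := by
  induction n with
  | zero => simp
  | succ n ih => rw [Function.iterate_succ_apply', ih, Hh_smul, ← pow_mul, ← pow_succ,
      Function.iterate_succ_apply']

lemma continuous_Hh : Continuous Hh := by
  rw [continuous_pi_iff]
  intro i
  fin_cases i <;> simp only [Hh] <;> fun_prop

lemma Hh_lift (u v : ℂ × ℂ) : Hh (lift1 (io2 u v)) = lift1 (io2 (hm u) (hm v)) := by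
  rw [lift1_io2, lift1_io2]
  ext i
  fin_cases i <;> simp [Hh, hm]

lemma Hh_iter_lift (n : ℕ) (u v : ℂ × ℂ) :
    Hh^[n] (lift1 (io2 u v)) = lift1 (io2 (hm^[n] u) (hm^[n] v)) := by
  induction n with
  | zero => rfl
  | succ n ih => rw [Function.iterate_succ_apply', ih, Hh_lift, Function.iterate_succ_apply',
      Function.iterate_succ_apply']

/-- The homogeneous form of the condition `Gd`, for both factors. -/
def GdH (Z : V 4) : Prop := ‖Z 2‖ ≤ max (16 * ‖Z 0‖) ‖Z 1‖ ∧ ‖Z 4‖ ≤ max (16 * ‖Z 0‖) ‖Z 3‖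

lemma GdH_lift (u v : ℂ × ℂ) : GdH (lift1 (io2 u v)) ↔ Gd u ∧ Gd v := by
  rw [lift1_io2]
  simp [GdH, Gd]

lemma GdH_smul {c : ℂ} (hc : c ≠ 0) (Z : V 4) : GdH (c • Z) ↔ GdH Z := by
  have h : 0 < ‖c‖ := norm_pos_iff.2 hc
  have key : ∀ a b d : ℂ, ‖c * d‖ ≤ max (16 * ‖c * a‖) ‖c * b‖ ↔ ‖d‖ ≤ max (16 * ‖a‖) ‖b‖ := by
    intro a b d
    rw [norm_mul, norm_mul, norm_mul, ← mul_assoc, mul_comm 16 ‖c‖, mul_assoc,
      ← mul_max_of_nonneg _ _ h.le, mul_le_mul_iff_right₀ h]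
  simp only [GdH, Pi.smul_apply, smul_eq_mul, key]

lemma isClosed_GdH (n : ℕ) : IsClosed {Z : V 4 | GdH (Hh^[n] Z)} := by
  have h : Continuous Hh^[n] := continuous_Hh.iterate n
  have hi : ∀ i, Continuous fun Z => Hh^[n] Z i := fun i => (continuous_apply i).comp h
  exact (isClosed_le (hi 2).norm ((continuous_const.mul (hi 0).norm).max (hi 1).norm)).inter
    (isClosed_le (hi 4).norm ((continuous_const.mul (hi 0).norm).max (hi 3).norm))

/-- The set `C_n`. -/
def CC (n : ℕ) : Set (PS 4) := {q | ∀ j ≤ n, GdH (Hh^[j] q.rep)}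

lemma mem_CC {n : ℕ} {z : V 4} (hz : z ≠ 0) :
    Projectivization.mk ℂ z hz ∈ CC n ↔ ∀ j ≤ n, GdH (Hh^[j] z) := by
  obtain ⟨c, hc, hcz⟩ := rep_eq z hz
  simp only [CC, Set.mem_ofPred_eq, hcz, Hh_iter_smul]
  exact forall₂_congr fun j _ => GdH_smul (pow_ne_zero _ hc) _

lemma isClosed_CC (n : ℕ) : IsClosed (CC n) := by
  rw [isClosed_iff]
  have : proj ⁻¹' CC n = ⋂ j, ⋂ (_ : j ≤ n),
      (Subtype.val : {z : V 4 // z ≠ 0} → V 4) ⁻¹' {Z | GdH (Hh^[j] Z)} := by
    ext z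
    simp only [mem_preimage, mem_iInter, Set.mem_ofPred_eq]
    exact mem_CC z.2
  rw [this]
  exact isClosed_iInter fun j => isClosed_iInter fun _ =>
    (isClosed_GdH j).preimage continuous_subtype_val

lemma CC_anti {n m : ℕ} (h : n ≤ m) : CC m ⊆ CC n := fun _ hq j hj => hq j (hj.trans h)

/-- The points parametrised by `Φ_n` lie in `C_n`. -/
lemma Ph_mem_CC (n : ℕ) (x : ℂ × ℂ) : Projectivization.mk ℂ (Ph n (pt x)) (Ph_pt_ne n x) ∈ CC n := by
  rw [mem_CC]
  intro j hj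
  rw [Ph_pt, Hh_iter_lift, GdH_lift]
  have key : ∀ s : ℂ, Gd (hm^[j] (gm^[n] (s, 0))) := by
    intro s
    apply Gd_of_iter (n - j)
    rw [← Function.iterate_add_apply, Nat.sub_add_cancel hj, hm_gm_iter]
    simp [Gd]
  exact ⟨key _, key _⟩

/-! ## Points with bounded orbit -/

lemma app_io2 (u v : ℂ × ℂ) : fA.fwd.app (io2 u v) = io2 (hm u) (hm v) := by
  change fF.app (io2 u v) = io2 (hm u) (hm v)
  rw [fF_app]
  ext i
  fin_cases i <;> simp [hm, io2]

lemma app_iter_io2 (n : ℕ) (u v : ℂ × ℂ) :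
    fA.fwd.app^[n] (io2 u v) = io2 (hm^[n] u) (hm^[n] v) := by
  induction n with
  | zero => rfl
  | succ n ih => rw [Function.iterate_succ_apply', ih, app_io2, Function.iterate_succ_apply',
      Function.iterate_succ_apply']

lemma io2_mem_K {u v : ℂ × ℂ} (hu : ∀ n, Gd (hm^[n] u)) (hv : ∀ n, Gd (hm^[n] v)) :
    io2 u v ∈ fA.K := by
  change Bornology.IsBounded (Set.range fun n : ℕ => fA.fwd.app^[n] (io2 u v))
  rw [isBounded_iff_forall_norm_le]
  refine ⟨max (max 16 ‖u.1‖) (max 16 ‖v.1‖), ?_⟩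
  rintro _ ⟨n, rfl⟩
  simp only [app_iter_io2]
  have h1 := bdd_of_Gd hu n
  have h2 := bdd_of_Gd hv n
  rw [norm_le_iff'] at h1 h2
  have h0 : (0:ℝ) ≤ max (max 16 ‖u.1‖) (max 16 ‖v.1‖) := by positivity
  rw [pi_norm_le_iff_of_nonneg h0]
  intro i
  fin_cases i
  · exact h1.1.trans (le_max_left _ _)
  · exact h1.2.trans (le_max_left _ _)
  · exact h2.1.trans (le_max_right _ _)
  · exact h2.2.trans (le_max_right _ _)

/-- The points `[0 : a : 0 : b : 0]` are in the closure of `K(f)`. -/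
lemma inf_mem_closure {Z : V 4} (hZ : Z ≠ 0) (h0 : Z 0 = 0) (h2 : Z 2 = 0) (h4 : Z 4 = 0) :
    Projectivization.mk ℂ Z hZ ∈ closure (emb '' fA.K) := by
  choose y hy using exists_bounded
  let c : ℕ → ℂ := fun n => ((n : ℂ) + 1)
  have hc : ∀ n, c n ≠ 0 := fun n => Nat.cast_add_one_ne_zero n
  let W : ℕ → V 4 := fun n => ![(c n)⁻¹, Z 1, (c n)⁻¹ * y (c n * Z 1), Z 3, (c n)⁻¹ * y (c n * Z 3)]
  have hW : ∀ n, W n ≠ 0 := fun n h => by
    have := congrFun h 0
    exact inv_ne_zero (hc n) this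
  have hmem : ∀ n, proj ⟨W n, hW n⟩ ∈ emb '' fA.K := by
    intro n
    refine ⟨io2 (c n * Z 1, y (c n * Z 1)) (c n * Z 3, y (c n * Z 3)),
      io2_mem_K (hy _) (hy _), ?_⟩
    change Projectivization.mk ℂ _ _ = Projectivization.mk ℂ _ _
    rw [Projectivization.mk_eq_mk_iff']
    refine ⟨c n, ?_⟩
    rw [lift1_io2]
    have hcn := hc n
    ext i
    fin_cases i <;> simp [W] <;> field_simp
  have hcn : Tendsto (fun n => ‖c n‖) atTop atTop := by
    have : (fun n => ‖c n‖) = fun n : ℕ => (n : ℝ) + 1 := by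
      funext n
      have : c n = ((n + 1 : ℕ) : ℂ) := by simp [c]
      rw [this, Complex.norm_natCast]
      push_cast
      rfl
    rw [this]
    exact tendsto_atTop_add_const_right _ _ tendsto_natCast_atTop_atTop
  have hinv : Tendsto (fun n => (c n)⁻¹) atTop (𝓝 0) := by
    rw [tendsto_zero_iff_norm_tendsto_zero]
    simp only [norm_inv]
    exact hcn.inv_tendsto_atTop
  have hyt : ∀ a : ℂ, Tendsto (fun n => (c n)⁻¹ * y (c n * a)) atTop (𝓝 0) := by
    intro a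
    rw [tendsto_zero_iff_norm_tendsto_zero]
    have hb : ∀ n, ‖(c n)⁻¹ * y (c n * a)‖ ^ 2 ≤ 8 * ‖a‖ * ‖c n‖⁻¹ + 192 * (‖c n‖⁻¹) ^ 2 := by
      intro n
      have hg : ‖y (c n * a)‖ ^ 2 ≤ 8 * ‖c n * a‖ + 192 := growth (hy (c n * a))
      have hcp : 0 < ‖c n‖ := norm_pos_iff.2 (hc n)
      rw [norm_mul, norm_inv, mul_pow]
      calc ‖c n‖⁻¹ ^ 2 * ‖y (c n * a)‖ ^ 2 ≤ ‖c n‖⁻¹ ^ 2 * (8 * ‖c n * a‖ + 192) := by gcongr
        _ = 8 * ‖a‖ * ‖c n‖⁻¹ + 192 * (‖c n‖⁻¹) ^ 2 := by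
          rw [norm_mul]
          field_simp
    have hlim : Tendsto (fun n => 8 * ‖a‖ * ‖c n‖⁻¹ + 192 * (‖c n‖⁻¹) ^ 2) atTop (𝓝 0) := by
      have h := hcn.inv_tendsto_atTop
      have h' := (h.const_mul (8 * ‖a‖)).add ((h.pow 2).const_mul 192)
      simpa using h'
    have hsq : Tendsto (fun n => ‖(c n)⁻¹ * y (c n * a)‖ ^ 2) atTop (𝓝 0) :=
      squeeze_zero (fun n => by positivity) hb hlim
    have hs := hsq.sqrt
    simp only [Real.sqrt_zero] at hs
    refine hs.congr fun n => ?_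
    exact Real.sqrt_sq (norm_nonneg _)
  have hWl : Tendsto W atTop (𝓝 Z) := by
    rw [tendsto_pi_nhds]
    intro i
    fin_cases i
    · change Tendsto (fun n => (c n)⁻¹) atTop (𝓝 (Z 0))
      rw [h0]; exact hinv
    · exact tendsto_const_nhds
    · change Tendsto (fun n => (c n)⁻¹ * y (c n * Z 1)) atTop (𝓝 (Z 2))
      rw [h2]; exact hyt _
    · exact tendsto_const_nhds
    · change Tendsto (fun n => (c n)⁻¹ * y (c n * Z 3)) atTop (𝓝 (Z 4))
      rw [h4]; exact hyt _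
  have hlim : Tendsto (fun n => proj ⟨W n, hW n⟩) atTop (𝓝 (proj ⟨Z, hZ⟩)) :=
    (continuous_proj.tendsto _).comp (tendsto_subtype_rng.2 hWl)
  exact mem_closure_of_tendsto hlim (Eventually.of_forall hmem)

lemma iInter_CC_sub (q : PS 4) (hq : ∀ n, q ∈ CC n) : q ∈ closure (emb '' fA.K) := by
  have hg : ∀ n, GdH (Hh^[n] q.rep) := fun n => hq n n le_rfl
  set Z := q.rep with hZ
  have hZ0 : Z ≠ 0 := q.rep_nonzero
  have hqZ : Projectivization.mk ℂ Z hZ0 = q := Projectivization.mk_rep q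
  by_cases h0 : Z 0 = 0
  · have h1 := hg 1
    have e : Hh^[1] Z = ![0, 0, - Z 2 ^ 2 / 8, 0, - Z 4 ^ 2 / 8] := by
      rw [Function.iterate_one]
      ext i
      fin_cases i <;> simp [Hh, h0] <;> ring
    rw [e] at h1
    obtain ⟨h2, h4⟩ := h1
    have key : ∀ a : ℂ, ‖a‖ ^ 2 / 8 ≤ 0 → a = 0 := by
      intro a ha
      have h5 : ‖a‖ ^ 2 = 0 := le_antisymm (by linarith) (by positivity)
      exact norm_eq_zero.1 (by simpa using h5)
    have h2' : Z 2 = 0 := key _ (by simpa using h2)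
    have h4' : Z 4 = 0 := key _ (by simpa using h4)
    rw [← hqZ]
    exact inf_mem_closure hZ0 h0 h2' h4'
  · apply subset_closure
    set u : ℂ × ℂ := (Z 1 / Z 0, Z 2 / Z 0) with hu
    set v : ℂ × ℂ := (Z 3 / Z 0, Z 4 / Z 0) with hv
    have e : Z = Z 0 • lift1 (io2 u v) := by
      rw [lift1_io2]
      ext i
      fin_cases i <;> simp [hu, hv] <;> field_simp
    have hgu : ∀ n, Gd (hm^[n] u) ∧ Gd (hm^[n] v) := by
      intro n
      have h1 := hg n
      rw [e, Hh_iter_smul, GdH_smul (pow_ne_zero _ h0), Hh_iter_lift, GdH_lift] at h1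
      exact h1
    refine ⟨io2 u v, io2_mem_K (fun n => (hgu n).1) fun n => (hgu n).2, ?_⟩
    rw [← hqZ]
    change Projectivization.mk ℂ _ _ = Projectivization.mk ℂ _ _
    rw [Projectivization.mk_eq_mk_iff']
    refine ⟨(Z 0)⁻¹, ?_⟩
    have e' : (Z 0)⁻¹ • Z = (Z 0)⁻¹ • (Z 0 • lift1 (io2 u v)) :=
      congrArg (fun W => (Z 0)⁻¹ • W) e
    rw [smul_smul, inv_mul_cancel₀ h0, one_smul] at e'
    exact e'

/-- The support of the limit current. -/
theorem TG_supp : curSupport TG ⊆ closure (emb '' fA.K) := by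
  intro q hq
  by_contra hqK
  refine hq (closure (emb '' fA.K))ᶜ isClosed_closure.isOpen_compl hqK fun α hα => ?_
  -- for large `n` the support of `α` is disjoint from `C_n`
  obtain ⟨n₀, hn₀⟩ : ∃ n₀, formSupport α.form ∩ CC n₀ = ∅ := by
    by_contra hcon
    push Not at hcon
    have hcomp : IsCompact (formSupport α.form ∩ CC 0) :=
      (isClosed_closure.inter (isClosed_CC 0)).isCompact
    obtain ⟨p, hp⟩ := IsCompact.nonempty_iInter_of_sequence_nonempty_isCompact_isClosed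
      (fun n => formSupport α.form ∩ CC n)
      (fun n => inter_subset_inter_right _ (CC_anti n.le_succ))
      hcon hcomp (fun n => isClosed_closure.inter (isClosed_CC n))
    have hp' := fun n => mem_iInter.1 hp n
    exact hα (hp' 0).1 (iInter_CC_sub p fun n => (hp' n).2)
  apply evT_eq
  refine tendsto_const_nhds.congr' ?_
  have hev : ∀ᶠ n : ℕ in atTop, n₀ ≤ n := eventually_ge_atTop n₀
  have hev' := Nat.hyperfilter_le_atTop hev
  filter_upwards [hev'] with n hn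
  have h : ∀ x, dens (pull (Ph n) α.form) x = 0 := by
    intro x
    rw [pull_dens]
    have hz : α.form (Ph n (pt x)) = 0 := by
      by_contra hne
      have hmem : Projectivization.mk ℂ (Ph n (pt x)) (Ph_pt_ne n x) ∈ formSupport α.form := by
        apply subset_closure
        change α.form (Projectivization.mk ℂ (Ph n (pt x)) (Ph_pt_ne n x)).rep ≠ 0
        obtain ⟨c, hc, hcz⟩ := rep_eq (Ph n (pt x)) (Ph_pt_ne n x)
        rw [hcz]
        intro h0
        apply hne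
        ext v
        have h1 := α.smooth.2.2.1 c hc _ (Ph_pt_ne n x) v
        rw [← h1, h0]
        rfl
      have hC := CC_anti hn (Ph_mem_CC n x)
      have : Projectivization.mk ℂ (Ph n (pt x)) (Ph_pt_ne n x) ∈ formSupport α.form ∩ CC n₀ :=
        ⟨hmem, hC⟩
      rw [hn₀] at this
      exact this
    rw [hz]
    rfl
  simp [tn, h]

/-- The Green current exists. -/
theorem exists_green : IsGreenCurrent fA 2 TG where
  posClosed := TG_posClosed
  mass := TG_mass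
  supp := TG_supp

end Pool.Agent.Helper33.Henon
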