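import Pool.Agent.Helper33.Henon.Forms

set_option autoImplicit false

open scoped ContDiff LinearAlgebra.Projectivization ComplexConjugate Topology
open Set Filter

namespace Pool.Agent.Helper33.Henon

section
variable {k r : ℕ}

/-- The projection `ℂ^{k+1} ∖ 0 → ℙᵏ`. -/
noncomputable def proj (z : {z : V k // z ≠ 0}) : PS k := Projectivization.mk ℂ z.1 z.2

lemma continuous_proj : Continuous (proj (k := k)) := continuous_quotient_mk'

lemma isQuotientMap_proj : Topology.IsQuotientMap (proj (k := k)) := isQuotientMap_quotient_mk'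

lemma isOpen_iff {U : Set (PS k)} : IsOpen U ↔ IsOpen (proj ⁻¹' U) :=
  isQuotientMap_proj.isOpen_preimage.symm

lemma isClosed_iff {U : Set (PS k)} : IsClosed U ↔ IsClosed (proj ⁻¹' U) :=
  isQuotientMap_proj.isClosed_preimage.symm

lemma mk_rep' (q : PS k) : proj ⟨q.rep, q.rep_nonzero⟩ = q := Projectivization.mk_rep q

/-- A representative of `[z]` is a nonzero multiple of `z`. -/
lemma rep_eq (z : V k) (hz : z ≠ 0) :
    ∃ c : ℂ, c ≠ 0 ∧ (Projectivization.mk ℂ z hz).rep = c • z := by
  obtain ⟨a, ha⟩ := Projectivization.exists_smul_eq_mk_rep ℂ z hz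
  exact ⟨a, a.ne_zero, ha.symm⟩

/-- A homothety-invariant function, continuous on `ℂ^{k+1} ∖ 0`, is continuous on `ℙᵏ`. -/
lemma continuous_of_invariant {χ : V k → ℝ} (hc : ContinuousOn χ {0}ᶜ)
    (hi : ∀ c : ℂ, c ≠ 0 → ∀ z : V k, z ≠ 0 → χ (c • z) = χ z) :
    Continuous fun q : PS k => χ q.rep := by
  rw [isQuotientMap_proj.continuous_iff]
  have : (fun q : PS k => χ q.rep) ∘ proj = fun z : {z : V k // z ≠ 0} => χ z := by
    ext z
    obtain ⟨c, hc0, hc1⟩ := rep_eq z.1 z.2
    change χ (Projectivization.mk ℂ z.1 z.2).rep = χ z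
    rw [hc1, hi c hc0 z.1 z.2]
  rw [this]
  exact hc.comp_continuous continuous_subtype_val fun z => z.2

instance compactPS : CompactSpace (PS k) := by
  refine ⟨?_⟩
  let S : Set {z : V k // z ≠ 0} := Subtype.val ⁻¹' (Metric.sphere (0 : V k) 1)
  have hS : IsCompact S := by
    rw [Subtype.isCompact_iff]
    have : Subtype.val '' S = Metric.sphere (0 : V k) 1 := by
      ext z
      simp only [S, mem_image, mem_preimage]
      constructor
      · rintro ⟨w, hw, rfl⟩; exact hw
      · intro hz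
        refine ⟨⟨z, ?_⟩, hz, rfl⟩
        rintro rfl
        simp at hz
    rw [this]
    exact isCompact_sphere _ _
  have himg : proj '' S = univ := by
    rw [eq_univ_iff_forall]
    intro q
    have hq := q.rep_nonzero
    have hn : ‖q.rep‖ ≠ 0 := norm_ne_zero_iff.2 hq
    let c : ℂ := ((‖q.rep‖⁻¹ : ℝ) : ℂ)
    have hc : c ≠ 0 := by simp [c, hn]
    refine ⟨⟨c • q.rep, smul_ne_zero hc hq⟩, ?_, ?_⟩
    · simp only [S, mem_preimage, mem_sphere_iff_norm, sub_zero, norm_smul]
      simp [c, hn]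
    · conv_rhs => rw [← mk_rep' q]
      change Projectivization.mk ℂ _ _ = Projectivization.mk ℂ _ _
      rw [Projectivization.mk_eq_mk_iff']
      exact ⟨c, rfl⟩
  rw [← himg]
  exact hS.image continuous_proj

/-- `herm` is the inner product of `EuclideanSpace`. -/
lemma herm_eq_inner (u v : V k) : herm u v = inner ℂ (WithLp.toLp 2 u : EuclideanSpace ℂ
    (Fin (k + 1))) (WithLp.toLp 2 v) := by
  simp [herm, PiLp.inner_apply, mul_comm]

lemma herm_self (z : V k) : herm z z = ((∑ j, ‖z j‖ ^ 2 : ℝ) : ℂ) := by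
  unfold herm
  push_cast
  refine Finset.sum_congr rfl fun j _ => ?_
  rw [Complex.conj_mul']

/-- The squared Euclidean norm. -/
noncomputable def N (z : V k) : ℝ := ∑ j, ‖z j‖ ^ 2

lemma herm_self' (z : V k) : herm z z = (N z : ℂ) := herm_self z

lemma N_pos {z : V k} (hz : z ≠ 0) : 0 < N z := by
  obtain ⟨j, hj⟩ := Function.ne_iff.1 hz
  have h1 : 0 < ‖z j‖ ^ 2 := by
    have : 0 < ‖z j‖ := norm_pos_iff.2 hj
    positivity
  exact h1.trans_le (Finset.single_le_sum (f := fun j => ‖z j‖ ^ 2) (fun _ _ => by positivity)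
    (Finset.mem_univ j))

lemma N_smul (c : ℂ) (z : V k) : N (c • z) = ‖c‖ ^ 2 * N z := by
  simp [N, mul_pow, Finset.mul_sum]

lemma herm_smul_right (c : ℂ) (u v : V k) : herm u (c • v) = c * herm u v := by
  simp only [herm, Finset.mul_sum, Pi.smul_apply, smul_eq_mul]
  exact Finset.sum_congr rfl fun j _ => by ring

lemma herm_smul_left (c : ℂ) (u v : V k) : herm (c • u) v = conj c * herm u v := by
  simp only [herm, Finset.mul_sum, Pi.smul_apply, smul_eq_mul, map_mul]
  exact Finset.sum_congr rfl fun j _ => by ring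

lemma contDiff_N : ContDiff ℝ ∞ (N (k := k)) := by
  unfold N
  refine ContDiff.sum fun j _ => ?_
  exact (contDiff_norm_sq ℝ).comp (contDiff_apply ℝ ℂ j)

lemma norm_toLp_sq (z : V k) : ‖(WithLp.toLp 2 z : EuclideanSpace ℂ (Fin (k + 1)))‖ ^ 2 = N z := by
  rw [EuclideanSpace.norm_sq_eq]
  rfl

/-- `t_a(z) = |⟨a, z⟩|² / (|a|² |z|²)`. -/
noncomputable def tt (a z : V k) : ℝ := ‖herm a z‖ ^ 2 / (N a * N z)

lemma tt_le_one {a z : V k} (ha : a ≠ 0) (hz : z ≠ 0) : tt a z ≤ 1 := by
  unfold tt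
  rw [div_le_one (mul_pos (N_pos ha) (N_pos hz)), herm_eq_inner, ← norm_toLp_sq a,
    ← norm_toLp_sq z, ← mul_pow]
  exact pow_le_pow_left₀ (norm_nonneg _) (norm_inner_le_norm _ _) 2

lemma eq_of_tt_eq_one {a z : V k} (ha : a ≠ 0) (hz : z ≠ 0) (h : tt a z = 1) :
    ∃ c : ℂ, c ≠ 0 ∧ z = c • a := by
  unfold tt at h
  rw [div_eq_one_iff_eq (mul_pos (N_pos ha) (N_pos hz)).ne', herm_eq_inner, ← norm_toLp_sq a,
    ← norm_toLp_sq z, ← mul_pow] at h
  have h1 := (pow_left_inj₀ (norm_nonneg _) (by positivity) two_ne_zero).1 h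
  have ha' : (WithLp.toLp 2 a : EuclideanSpace ℂ (Fin (k + 1))) ≠ 0 := by simpa using ha
  have hz' : (WithLp.toLp 2 z : EuclideanSpace ℂ (Fin (k + 1))) ≠ 0 := by simpa using hz
  obtain ⟨c, hc, hcz⟩ := (norm_inner_eq_norm_iff ha' hz').1 h1
  refine ⟨c, hc, ?_⟩
  ext j
  have := congrArg (fun x : EuclideanSpace ℂ (Fin (k + 1)) => x j) hcz
  simpa using this

lemma tt_self {a : V k} (ha : a ≠ 0) : tt a a = 1 := by
  unfold tt
  rw [herm_self', Complex.norm_real, Real.norm_eq_abs, sq_abs, sq]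
  exact div_self (mul_pos (N_pos ha) (N_pos ha)).ne'

lemma tt_smul (a : V k) {c : ℂ} (hc : c ≠ 0) (z : V k) : tt a (c • z) = tt a z := by
  unfold tt
  rw [herm_smul_right, N_smul, norm_mul, mul_pow]
  have : ‖c‖ ^ 2 ≠ 0 := by simpa using hc
  by_cases hz : N a * N z = 0
  · rcases mul_eq_zero.1 hz with h | h <;> simp [h]
  · have h1 : N a ≠ 0 := left_ne_zero_of_mul hz
    have h2 : N z ≠ 0 := right_ne_zero_of_mul hz
    field_simp

lemma tt_contDiffOn {a : V k} (ha : a ≠ 0) : ContDiffOn ℝ ∞ (tt a) {0}ᶜ := by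
  unfold tt
  apply ContDiffOn.div
  · apply ContDiff.contDiffOn
    refine (contDiff_norm_sq ℝ).comp ?_
    unfold herm
    refine ContDiff.sum fun j _ => ?_
    exact contDiff_const.mul (contDiff_apply ℝ ℂ j)
  · exact (contDiff_const.mul contDiff_N).contDiffOn
  · intro z hz
    exact (mul_pos (N_pos ha) (N_pos hz)).ne'

/-- Smooth bump functions on `ℙᵏ`. -/
lemma exists_bump {U : Set (PS k)} (hU : IsOpen U) {q : PS k} (hq : q ∈ U) :
    ∃ χ : V k → ℝ, IsFun χ ∧ (∃ W : Set (PS k), IsOpen W ∧ q ∈ W ∧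
      ∀ p ∈ W, χ p.rep = 1) ∧ closure {p : PS k | χ p.rep ≠ 0} ⊆ U := by
  have ha := q.rep_nonzero
  set a := q.rep with haq
  have hcont : Continuous fun p : PS k => tt a p.rep :=
    continuous_of_invariant (tt_contDiffOn ha).continuousOn fun c hc z _ => tt_smul a hc z
  obtain ⟨ε, hε, hεU⟩ : ∃ ε > 0, ∀ p : PS k, 1 - ε ≤ tt a p.rep → p ∈ U := by
    rcases (Uᶜ).eq_empty_or_nonempty with h | h
    · refine ⟨1, one_pos, fun p _ => ?_⟩
      rw [compl_empty_iff.1 h]; trivial
    · obtain ⟨p₀, hp₀, hmax⟩ := hU.isClosed_compl.isCompact.exists_isMaxOn h hcont.continuousOn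
      have hlt : tt a p₀.rep < 1 := by
        refine lt_of_le_of_ne (tt_le_one ha p₀.rep_nonzero) fun heq => ?_
        obtain ⟨c, hc, hcz⟩ := eq_of_tt_eq_one ha p₀.rep_nonzero heq
        apply hp₀
        have : p₀ = q := by
          rw [← Projectivization.mk_rep p₀, ← Projectivization.mk_rep q,
            Projectivization.mk_eq_mk_iff']
          exact ⟨c, hcz.symm⟩
        rw [this]; exact hq
      refine ⟨(1 - tt a p₀.rep) / 2, by linarith, fun p hp => ?_⟩
      by_contra hpU
      have h1 : tt a p.rep ≤ tt a p₀.rep := hmax hpU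
      linarith
  refine ⟨fun z => Real.smoothTransition ((tt a z - (1 - ε)) / (ε / 2)), ⟨?_, ?_⟩,
    ⟨{p | 1 - ε / 2 < tt a p.rep}, isOpen_lt continuous_const hcont, ?_, ?_⟩, ?_⟩
  · refine Real.smoothTransition.contDiff.comp_contDiffOn ?_
    exact ((tt_contDiffOn ha).sub contDiffOn_const).div_const _
  · intro c hc z _
    simp only [tt_smul a hc z]
  · change 1 - ε / 2 < tt a q.rep
    rw [← haq, tt_self ha]
    linarith
  · intro p hp
    apply Real.smoothTransition.one_of_one_le
    rw [le_div_iff₀ (by positivity)]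
    have : 1 - ε / 2 < tt a p.rep := hp
    linarith
  · have hcl : IsClosed {p : PS k | 1 - ε ≤ tt a p.rep} := isClosed_le continuous_const hcont
    refine (closure_minimal ?_ hcl).trans fun p hp => hεU p hp
    intro p hp
    by_contra hlt
    apply hp
    apply Real.smoothTransition.zero_of_nonpos
    apply div_nonpos_of_nonpos_of_nonneg _ (by positivity)
    have : ¬ (1 - ε ≤ tt a p.rep) := hlt
    linarith

/-- A functional vanishes on forms whose support is disjoint from its support. -/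
theorem eq_zero_of_disjoint_support (T : smoothForms k r →ₗ[ℂ] ℂ) (α : smoothForms k r)
    (h : Disjoint (formSupport (α : Form k r)) (curSupportL T)) : T α = 0 := by
  classical
  have hloc : ∀ q ∈ formSupport (α : Form k r), ∃ (χ : V k → ℝ) (hχ : IsFun χ) (W : Set (PS k)),
      IsOpen W ∧ q ∈ W ∧ (∀ p ∈ W, χ p.rep = 1) ∧ ∀ β : smoothForms k r, T (mulForm hχ β) = 0 := by
    intro q hq
    have hqT : q ∉ curSupportL T := fun h' => (Set.disjoint_left.1 h) hq h'
    simp only [curSupportL, Set.mem_ofPred_eq, not_forall, not_not] at hqT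
    obtain ⟨U, hU, hqU, hUT⟩ := hqT
    obtain ⟨χ, hχ, ⟨W, hW, hqW, hχW⟩, hcl⟩ := exists_bump hU hqU
    refine ⟨χ, hχ, W, hW, hqW, hχW, fun β => hUT _ ?_⟩
    refine (closure_mono ?_).trans hcl
    intro p hp hχp
    apply hp
    change χ p.rep • (β : Form k r) p.rep = 0
    rw [hχp]
    ext v
    simp
  choose! χ hχ W hW hqW hχW hT using hloc
  have hK : IsCompact (formSupport (α : Form k r)) := isClosed_closure.isCompact
  obtain ⟨hs, hcov⟩ := hK.elim_nhds_subcover' (fun q hq => W q)
    (fun q hq => (hW q hq).mem_nhds (hqW q hq))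
  -- multiply successively by `1 - χ_i`
  have key : ∀ t : Finset (formSupport (α : Form k r)), ∃ β : smoothForms k r, T β = T α ∧
      ∀ z, (β : Form k r) z = (∏ q ∈ t, (1 - χ q.1 z)) • (α : Form k r) z := by
    intro t
    induction t using Finset.induction_on with
    | empty => exact ⟨α, rfl, fun z => by simp⟩
    | insert q t hqt ih =>
      obtain ⟨β, hβ, hβz⟩ := ih
      have h1χ : IsFun (fun z => 1 - χ q.1 z) :=
        ⟨contDiffOn_const.sub (hχ q.1 q.2).1, fun c hc z hz => by
          simp only [(hχ q.1 q.2).2 c hc z hz]⟩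
      refine ⟨mulForm h1χ β, ?_, fun z => ?_⟩
      · have e1 : β = mulForm (hχ q.1 q.2) β + mulForm h1χ β := by
          ext1
          ext1 z
          change (β : Form k r) z = χ q.1 z • (β : Form k r) z + (1 - χ q.1 z) • (β : Form k r) z
          ext v
          simp
          ring
        have e2 : T β = T (mulForm (hχ q.1 q.2) β) + T (mulForm h1χ β) := by
          conv_lhs => rw [e1]
          exact map_add T _ _
        rw [← hβ, e2, hT q.1 q.2, zero_add]
      · change (1 - χ q.1 z) • (β : Form k r) z = _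
        rw [hβz, Finset.prod_insert hqt]
        ext v
        simp
        ring
  obtain ⟨β, hβ, hβz⟩ := key hs
  rw [← hβ]
  have hβ0 : β = 0 := by
    ext1
    ext1 z
    rw [hβz]
    by_cases hα : (α : Form k r) z = 0
    · rw [hα]
      exact smul_zero_form _
    · have hz : z ≠ 0 := by
        rintro rfl
        exact hα α.2.1
      have hmem : Projectivization.mk ℂ z hz ∈ formSupport (α : Form k r) := by
        apply subset_closure
        change (α : Form k r) (Projectivization.mk ℂ z hz).rep ≠ 0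
        obtain ⟨c, hc, hcz⟩ := rep_eq z hz
        rw [hcz]
        intro h0
        apply hα
        ext v
        have h1 := α.2.2.2.1 c hc z hz v
        rw [← h1, h0]
        rfl
      obtain ⟨q, hq⟩ := mem_iUnion₂.1 (hcov hmem)
      obtain ⟨hqs, hqz⟩ := hq
      have h1 : χ q.1 (Projectivization.mk ℂ z hz).rep = 1 := hχW q.1 q.2 _ hqz
      obtain ⟨c, hc, hcz⟩ := rep_eq z hz
      rw [hcz, (hχ q.1 q.2).2 c hc z hz] at h1
      have h2 : ∏ q ∈ hs, (1 - χ q.1 z) = 0 := Finset.prod_eq_zero hqs (by rw [h1, sub_self])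
      rw [h2]
      ext v
      simp
  rw [hβ0, map_zero]

end

end Pool.Agent.Helper33.Henon
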