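import Pool.Agent.Helper33.Henon.FSForms

set_option autoImplicit false

open scoped ContDiff LinearAlgebra.Projectivization ComplexConjugate Topology
open Set Filter

namespace Pool.Agent.Helper33.Henon

section
variable {k : ℕ}

lemma thJ_vertical (J : Finset (Fin (k + 1))) {z : V k} (hz : NJ J z ≠ 0) (c : ℂ) :
    thJ J z (c • z) = c.im / (2 * Real.pi) := by
  rw [thJ_apply, BJ_apply, HJ_smul_right, HJ_self, Complex.im_mul_ofReal]
  have := Real.pi_ne_zero
  field_simp

lemma HJ_homothety (J : Finset (Fin (k + 1))) (c : ℂ) (z u : V k) :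
    HJ J (c • z) (c • u) = ((‖c‖ ^ 2 : ℝ) : ℂ) * HJ J z u := by
  rw [HJ_smul_left, HJ_smul_right, ← mul_assoc, Complex.conj_mul']
  push_cast
  rfl

lemma thJ_homothety (J : Finset (Fin (k + 1))) {c : ℂ} (hc : c ≠ 0) (z u : V k) :
    thJ J (c • z) (c • u) = thJ J z u := by
  have hc' : ‖c‖ ^ 2 ≠ 0 := by simpa using hc
  rw [thJ_apply, thJ_apply, BJ_apply, HJ_homothety, NJ_smul, Complex.im_ofReal_mul, ← BJ_apply]
  by_cases hz : NJ J z = 0
  · simp [hz]
  · have := Real.pi_ne_zero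
    field_simp

lemma omJ_vertical_left (J : Finset (Fin (k + 1))) (z : V k) (c : ℂ) (w : V k) :
    omJ J z (c • z) w = 0 := by
  rw [omJ, HJ_smul_left, HJ_smul_left]
  have : conj c * HJ J z w * HJ J z z - conj c * HJ J z z * HJ J z w = 0 := by ring
  rw [this]
  simp

lemma omJ_vertical_right (J : Finset (Fin (k + 1))) (z : V k) (c : ℂ) (w : V k) :
    omJ J z w (c • z) = 0 := by
  rw [omJ, HJ_smul_right, HJ_smul_right]
  have : c * HJ J w z * HJ J z z - HJ J w z * (c * HJ J z z) = 0 := by ring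
  rw [this]
  simp

lemma omJ_homothety (J : Finset (Fin (k + 1))) {c : ℂ} (hc : c ≠ 0) (z u w : V k) :
    omJ J (c • z) (c • u) (c • w) = omJ J z u w := by
  have hc' : ((‖c‖ ^ 2 : ℝ) : ℂ) ≠ 0 := by
    rw [Complex.ofReal_ne_zero]
    simpa using hc
  rw [omJ, omJ, HJ_homothety, HJ_homothety, HJ_homothety, HJ_homothety]
  congr 2
  by_cases hz : HJ J z z = 0
  · simp [hz]
  · field_simp

/-- `θ_N - θ_P`. -/
noncomputable def thD (J : Finset (Fin (k + 1))) (z : V k) : V k →L[ℝ] ℝ :=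
  thJ Finset.univ z - thJ J z

/-- `θ_N + θ_P`. -/
noncomputable def thS (J : Finset (Fin (k + 1))) (z : V k) : V k →L[ℝ] ℝ :=
  thJ Finset.univ z + thJ J z

/-- `ω_N + ω_P`. -/
noncomputable def et (J : Finset (Fin (k + 1))) : Form k 2 :=
  extDeriv fun z => oneF (thS J z)

lemma NJ_univ_ne {J : Finset (Fin (k + 1))} {z : V k} (hz : NJ J z ≠ 0) :
    NJ Finset.univ z ≠ 0 := by
  have h1 : NJ J z ≤ NJ Finset.univ z := by
    rw [NJ_apply, NJ_apply]
    exact Finset.sum_le_sum_of_subset_of_nonneg (Finset.subset_univ _) fun _ _ _ => by positivity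
  have h2 := (NJ_nonneg J z).lt_of_ne' hz
  exact (h2.trans_le h1).ne'

lemma contDiffAt_thD {J : Finset (Fin (k + 1))} {z : V k} (hz : NJ J z ≠ 0) :
    ContDiffAt ℝ ∞ (thD J) z :=
  (contDiffAt_thJ _ (NJ_univ_ne hz)).sub (contDiffAt_thJ _ hz)

lemma contDiffAt_thS {J : Finset (Fin (k + 1))} {z : V k} (hz : NJ J z ≠ 0) :
    ContDiffAt ℝ ∞ (thS J) z :=
  (contDiffAt_thJ _ (NJ_univ_ne hz)).add (contDiffAt_thJ _ hz)

lemma contDiffAt_oneF_thS {J : Finset (Fin (k + 1))} {z : V k} (hz : NJ J z ≠ 0) :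
    ContDiffAt ℝ ∞ (fun z => oneF (thS J z)) z :=
  (oneF (k := k)).contDiff.contDiffAt.comp z (contDiffAt_thS hz)

lemma et_apply {J : Finset (Fin (k + 1))} {z : V k} (hz : NJ J z ≠ 0) (v : Fin 2 → V k) :
    et J z v = ((omJ Finset.univ z (v 0) (v 1) + omJ J z (v 0) (v 1) : ℝ) : ℂ) := by
  have h1 := (hasFDerivAt_thJ _ (NJ_univ_ne hz)).add (hasFDerivAt_thJ _ hz)
  have h2 : HasFDerivAt (thS J) (thJ' Finset.univ z + thJ' J z) z := h1
  rw [et, extDeriv_oneF h2, ← thJ'_sub _ (NJ_univ_ne hz), ← thJ'_sub _ hz]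
  congr 1
  simp only [_root_.add_apply]
  ring

lemma isOpen_NJ_ne (J : Finset (Fin (k + 1))) : IsOpen {z : V k | NJ J z ≠ 0} :=
  isOpen_ne_fun (contDiff_NJ J).continuous continuous_const

lemma extDeriv_smooth' {r : ℕ} {U : Set (V k)} (hU : IsOpen U) {γ : Form k r}
    (hγ : ContDiffOn ℝ ∞ γ U) : ContDiffOn ℝ ∞ (extDeriv γ) U := by
  have h1 : ContDiffOn ℝ ∞ (fun z => fderiv ℝ γ z) U :=
    hγ.fderiv_of_isOpen hU (by simp)
  exact (ContinuousAlternatingMap.alternatizeUncurryFinCLM ℝ (V k) ℂ).contDiff.comp_contDiffOn h1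

lemma contDiffAt_et {J : Finset (Fin (k + 1))} {z : V k} (hz : NJ J z ≠ 0) :
    ContDiffAt ℝ ∞ (et J) z := by
  have h0 : ContDiffOn ℝ ∞ (fun z => oneF (thS J z)) {z : V k | NJ J z ≠ 0} := fun w hw =>
    (contDiffAt_oneF_thS hw).contDiffWithinAt
  have h2 : ContDiffOn ℝ ∞ (extDeriv fun z => oneF (thS J z)) {z : V k | NJ J z ≠ 0} :=
    extDeriv_smooth' (isOpen_NJ_ne J) h0
  exact h2.contDiffAt ((isOpen_NJ_ne J).mem_nhds hz)

lemma extDeriv_et {J : Finset (Fin (k + 1))} {z : V k} (hz : NJ J z ≠ 0) :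
    extDeriv (et J) z = 0 :=
  extDeriv_extDeriv_apply (contDiffAt_oneF_thS hz) two_le_infty

lemma contDiff_wedgeL : ContDiff ℝ ∞ (fun φ : V k →L[ℝ] ℝ => wedgeL (k := k) 2 φ) :=
  ContinuousLinearMap.contDiff (𝕜 := ℝ) (E := V k →L[ℝ] ℝ)
    (F := ((V k) [⋀^Fin 2]→L[ℝ] ℂ) →L[ℝ] ((V k) [⋀^Fin (2 + 1)]→L[ℝ] ℂ)) (wedgeL 2)

/-- `P / N`. -/
noncomputable def tP (J : Finset (Fin (k + 1))) (z : V k) : ℝ := NJ J z / N z

lemma tP_smul (J : Finset (Fin (k + 1))) {c : ℂ} (hc : c ≠ 0) (z : V k) :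
    tP J (c • z) = tP J z := by
  rw [tP, tP, NJ_smul, N_smul, mul_div_mul_left]
  simpa using hc

lemma tP_contDiffOn (J : Finset (Fin (k + 1))) : ContDiffOn ℝ ∞ (tP J) {0}ᶜ := by
  unfold tP
  exact (contDiff_NJ J).contDiffOn.div contDiff_N.contDiffOn fun z hz => (N_pos hz).ne'

lemma continuous_tP (J : Finset (Fin (k + 1))) : Continuous fun q : PS k => tP J q.rep :=
  continuous_of_invariant (tP_contDiffOn J).continuousOn fun _ hc z _ => tP_smul J hc z

/-- The cut-off function. -/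
noncomputable def cut (J : Finset (Fin (k + 1))) (δ : ℝ) (z : V k) : ℝ :=
  Real.smoothTransition ((tP J z - δ / 2) / (δ / 2))

lemma cut_isFun (J : Finset (Fin (k + 1))) (δ : ℝ) : IsFun (cut J δ) := by
  refine ⟨?_, fun c hc z _ => ?_⟩
  · refine Real.smoothTransition.contDiff.comp_contDiffOn ?_
    exact ((tP_contDiffOn J).sub contDiffOn_const).div_const _
  · simp only [cut, tP_smul J hc z]

lemma cut_eq_zero {J : Finset (Fin (k + 1))} {δ : ℝ} (hδ : 0 < δ) {z : V k}
    (hz : tP J z ≤ δ / 2) : cut J δ z = 0 := by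
  apply Real.smoothTransition.zero_of_nonpos
  apply div_nonpos_of_nonpos_of_nonneg _ (by positivity)
  linarith

lemma cut_eq_one {J : Finset (Fin (k + 1))} {δ : ℝ} (hδ : 0 < δ) {z : V k}
    (hz : δ ≤ tP J z) : cut J δ z = 1 := by
  apply Real.smoothTransition.one_of_one_le
  rw [le_div_iff₀ (by positivity)]
  linarith

/-- The form `γ₀ = (θ_N - θ_P) ∧ (ω_N + ω_P)`. -/
noncomputable def gam0 (J : Finset (Fin (k + 1))) : Form k 3 :=
  fun z => wedgeL 2 (thD J z) (et J z)

/-- The form `γ = χ(P/N) (θ_N - θ_P) ∧ (ω_N + ω_P)`. -/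
noncomputable def gam (J : Finset (Fin (k + 1))) (δ : ℝ) : Form k 3 :=
  fun z => cut J δ z • gam0 J z

lemma thD_vertical {J : Finset (Fin (k + 1))} {z : V k} (hz : NJ J z ≠ 0) (c : ℂ) :
    thD J z (c • z) = 0 := by
  change thJ Finset.univ z (c • z) - thJ J z (c • z) = 0
  rw [thJ_vertical _ hz, thJ_vertical _ (NJ_univ_ne hz), sub_self]

lemma thD_homothety (J : Finset (Fin (k + 1))) {c : ℂ} (hc : c ≠ 0) (z u : V k) :
    thD J (c • z) (c • u) = thD J z u := by
  change thJ Finset.univ (c • z) (c • u) - thJ J (c • z) (c • u) = _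
  rw [thJ_homothety _ hc, thJ_homothety _ hc]
  rfl

lemma NJ_ne_of_tP {J : Finset (Fin (k + 1))} {z : V k} {δ : ℝ} (hδ : 0 < δ) (h : δ ≤ tP J z) :
    NJ J z ≠ 0 := by
  intro h0
  rw [tP, h0, zero_div] at h
  linarith

lemma gam_mem (J : Finset (Fin (k + 1))) {δ : ℝ} (hδ : 0 < δ) : gam J δ ∈ smoothForms k 3 := by
  refine ⟨?_, ?_, ?_, ?_⟩
  · have h0 : tP J (0 : V k) ≤ δ / 2 := by
      have : NJ J (0 : V k) = 0 := by simp [NJ_apply]
      rw [tP, this, zero_div]
      positivity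
    ext v
    simp [gam, cut_eq_zero hδ h0]
  · intro z hz
    apply ContDiffAt.contDiffWithinAt
    by_cases h : tP J z < δ / 2
    · have ho : ∀ᶠ w in 𝓝 z, tP J w < δ / 2 := by
        have hc : ContinuousAt (tP J) z :=
          ((tP_contDiffOn J).continuousOn).continuousAt (isOpen_compl_zero.mem_nhds hz)
        exact hc.eventually (gt_mem_nhds h)
      have he : gam J δ =ᶠ[𝓝 z] fun _ => 0 := by
        filter_upwards [ho] with w hw
        ext v
        simp [gam, cut_eq_zero hδ hw.le]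
      exact contDiffAt_const.congr_of_eventuallyEq he
    · have hne : NJ J z ≠ 0 := NJ_ne_of_tP (by positivity) (not_lt.1 h)
      have h1 : ContDiffAt ℝ ∞ (cut J δ) z :=
        (cut_isFun J δ).1.contDiffAt (isOpen_compl_zero.mem_nhds hz)
      have h2 : ContDiffAt ℝ ∞ (fun z => wedgeL 2 (thD J z)) z :=
        contDiff_wedgeL.contDiffAt.comp z (contDiffAt_thD hne)
      exact h1.smul (h2.clm_apply (contDiffAt_et hne))
  · intro c hc z hz v
    have hcut : cut J δ (c • z) = cut J δ z := (cut_isFun J δ).2 c hc z hz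
    by_cases h : NJ J z = 0
    · have h0 : cut J δ z = 0 := by
        apply cut_eq_zero hδ
        rw [tP, h, zero_div]; positivity
      simp [gam, hcut, h0]
    · have hcz : NJ J (c • z) ≠ 0 := by
        rw [NJ_smul]
        exact mul_ne_zero (by simpa using hc) h
      change cut J δ (c • z) • wedgeL 2 (thD J (c • z)) (et J (c • z)) (fun i => c • v i) =
        cut J δ z • wedgeL 2 (thD J z) (et J z) v
      rw [hcut, wedgeL_two, wedgeL_two, et_apply hcz, et_apply hcz, et_apply hcz, et_apply h,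
        et_apply h, et_apply h]
      simp [thD_homothety J hc, omJ_homothety _ hc]
  · intro z hz v hv
    by_cases h : NJ J z = 0
    · have h0 : cut J δ z = 0 := by
        apply cut_eq_zero hδ
        rw [tP, h, zero_div]; positivity
      simp [gam, h0]
    · change cut J δ z • wedgeL 2 (thD J z) (et J z) v = 0
      obtain ⟨i, c, hi⟩ := hv
      rw [wedgeL_two, et_apply h, et_apply h, et_apply h]
      fin_cases i
      · simp only [Fin.zero_eta] at hi
        simp [hi, thD_vertical h, omJ_vertical_left]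
      · simp only [Fin.mk_one] at hi
        simp [hi, thD_vertical h, omJ_vertical_left, omJ_vertical_right]
      · have hi' : v 2 = c • z := hi
        simp [hi', thD_vertical h, omJ_vertical_right]

end

end Pool.Agent.Helper33.Henon
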