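import Pool.Agent.Helper33.Henon.OmTwo
import Pool.Agent.Helper33.Henon.PTwo

set_option autoImplicit false

open scoped ContDiff LinearAlgebra.Projectivization ComplexConjugate Topology
open Set Filter

namespace Pool.Agent.Helper33.Henon

section
variable {k : ℕ}

lemma herm_add_right (u v w : V k) : herm u (v + w) = herm u v + herm u w := by
  simp only [herm, Pi.add_apply, mul_add, Finset.sum_add_distrib]

lemma herm_sub_right (u v w : V k) : herm u (v - w) = herm u v - herm u w := by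
  simp only [herm, Pi.sub_apply, mul_sub, Finset.sum_sub_distrib]

lemma herm_conj (u v : V k) : herm v u = conj (herm u v) := by
  rw [← HJ_univ, ← HJ_univ, HJ_conj]

lemma herm_sub_left (u v w : V k) : herm (u - v) w = herm u w - herm v w := by
  simp only [herm, Pi.sub_apply, map_sub, sub_mul, Finset.sum_sub_distrib]

/-- Horizontal part of a vector. -/
noncomputable def hp (Z u : V k) : V k := u - (herm Z u / (N Z : ℂ)) • Z

lemma hp_I (Z u : V k) : hp Z (Complex.I • u) = Complex.I • hp Z u := by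
  rw [hp, hp, herm_smul_right, smul_sub, smul_smul, mul_div_assoc]

lemma herm_hp {Z : V k} (hZ : Z ≠ 0) (u v : V k) :
    herm (hp Z u) (hp Z v) = herm u v - herm u Z * herm Z v / (N Z : ℂ) := by
  have hN : (N Z : ℂ) ≠ 0 := by
    exact_mod_cast (N_pos hZ).ne'
  rw [hp, hp, herm_sub_left, herm_sub_right, herm_sub_right, herm_smul_right, herm_smul_left,
    herm_smul_left, herm_smul_right, herm_self', map_div₀, Complex.conj_ofReal,
    ← herm_conj Z u]
  field_simp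
  ring

lemma fs_hp {Z : V k} (hZ : Z ≠ 0) (u v : V k) :
    fs Z u v = (herm (hp Z u) (hp Z v)).im * (Real.pi * N Z)⁻¹ := by
  have hN : (N Z : ℂ) ≠ 0 := by
    exact_mod_cast (N_pos hZ).ne'
  have e : (herm u v * herm Z Z - herm u Z * herm Z v) / (herm Z Z) ^ 2 =
      (((N Z)⁻¹ : ℝ) : ℂ) * herm (hp Z u) (hp Z v) := by
    rw [herm_hp hZ, herm_self']
    push_cast
    field_simp
  rw [fs, e, Complex.im_ofReal_mul, mul_inv]
  ring

/-- The Gram determinant of the horizontal parts. -/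
noncomputable def gram (Z a b : V k) : ℝ :=
  N (hp Z a) * N (hp Z b) - ‖herm (hp Z a) (hp Z b)‖ ^ 2

lemma Q_OmSq {Z : V k} (hZ : Z ≠ 0) (a b : V k) :
    Q (OmSq Z) a b = ((2 * (Real.pi * N Z)⁻¹ ^ 2 * gram Z a b : ℝ) : ℂ) := by
  set c := herm (hp Z a) (hp Z b) with hc
  have f1 : fs Z a (Complex.I • a) = N (hp Z a) * (Real.pi * N Z)⁻¹ := by
    rw [fs_hp hZ, hp_I, herm_smul_right, herm_self']
    simp
  have f2 : fs Z b (Complex.I • b) = N (hp Z b) * (Real.pi * N Z)⁻¹ := by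
    rw [fs_hp hZ, hp_I, herm_smul_right, herm_self']
    simp
  have f3 : fs Z a b = c.im * (Real.pi * N Z)⁻¹ := fs_hp hZ a b
  have f4 : fs Z (Complex.I • a) (Complex.I • b) = c.im * (Real.pi * N Z)⁻¹ := by
    rw [fs_hp hZ, hp_I, hp_I, herm_smul_right, herm_smul_left, ← hc]
    simp
  have f5 : fs Z a (Complex.I • b) = c.re * (Real.pi * N Z)⁻¹ := by
    rw [fs_hp hZ, hp_I, herm_smul_right, ← hc]
    simp
  have f6 : fs Z (Complex.I • a) b = - c.re * (Real.pi * N Z)⁻¹ := by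
    rw [fs_hp hZ, hp_I, herm_smul_left, ← hc]
    simp
  have h := OmSq_apply hZ ![a, Complex.I • a, b, Complex.I • b]
  rw [Q, h]
  simp only [Matrix.cons_val_zero, Matrix.cons_val_one, Matrix.cons_val_two, Matrix.cons_val_three,
    Matrix.head_cons, Matrix.tail_cons]
  rw [f1, f2, f3, f4, f5, f6, gram, ← hc]
  have hn : ‖c‖ ^ 2 = c.re * c.re + c.im * c.im := by
    rw [← Complex.normSq_eq_norm_sq, Complex.normSq_apply]
  rw [hn]
  push_cast
  ring

lemma norm_sq_le_N (z : V k) : ‖z‖ ^ 2 ≤ N z := by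
  have h : ‖z‖ ≤ Real.sqrt (N z) := by
    rw [pi_norm_le_iff_of_nonneg (Real.sqrt_nonneg _)]
    intro i
    apply Real.le_sqrt_of_sq_le
    exact Finset.single_le_sum (f := fun j => ‖z j‖ ^ 2) (fun _ _ => by positivity)
      (Finset.mem_univ i)
  have h0 : 0 ≤ N z := Finset.sum_nonneg fun _ _ => by positivity
  calc ‖z‖ ^ 2 ≤ (Real.sqrt (N z)) ^ 2 := by gcongr
    _ = N z := Real.sq_sqrt h0

lemma N_le_norm_sq (z : V k) : N z ≤ (k + 1) * ‖z‖ ^ 2 := by
  rw [N]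
  calc ∑ j, ‖z j‖ ^ 2 ≤ ∑ _j : Fin (k + 1), ‖z‖ ^ 2 :=
        Finset.sum_le_sum fun j _ => by gcongr; exact norm_le_pi_norm z j
    _ = (k + 1) * ‖z‖ ^ 2 := by
      rw [Finset.sum_const, Finset.card_univ, Fintype.card_fin, nsmul_eq_mul]
      push_cast
      ring

/-- Wirtinger type inequality. -/
lemma wirtinger {α : Form k 4} (hα : α ∈ smoothForms k 4) :
    ∃ C, 0 ≤ C ∧ ∀ Z, Z ≠ 0 → ∀ a b : V k, ‖Q (α Z) a b‖ ≤ C * (N Z)⁻¹ ^ 2 * gram Z a b := by
  obtain ⟨C, hC0, hC⟩ := sup_bound hα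
  refine ⟨C * (k + 1) ^ 2, by positivity, fun Z hZ a b => ?_⟩
  have hNZ := N_pos hZ
  have hvert : ∀ v : Fin 4 → V k, (∃ i, ∃ c : ℂ, v i = c • Z) → α Z v = 0 := hα.2.2.2 Z hZ
  have e1 : Q (α Z) a b = Q (α Z) (hp Z a) (hp Z b) := by
    have h1 : hp Z a = a + (-(herm Z a / (N Z : ℂ))) • Z := by rw [hp, neg_smul, sub_eq_add_neg]
    have h2 : hp Z b = b + (-(herm Z b / (N Z : ℂ))) • Z := by rw [hp, neg_smul, sub_eq_add_neg]
    rw [h1, h2, Q_vert _ hvert, Q_vert' _ hvert]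
  rw [e1]
  by_cases ha : hp Z a = 0
  · have h0 : gram Z a b = 0 := by
      rw [gram, ha]
      simp [N, herm]
    have h1 : Q (α Z) (hp Z a) (hp Z b) = 0 := by
      have := Q_smul (α Z) 0 (hp Z a) (hp Z b)
      rw [zero_smul] at this
      rw [ha, this]
      simp
    rw [h1, h0]
    simp
  · have hNa := N_pos ha
    set A := hp Z a with hA
    set B := hp Z b with hB
    set c := herm A B with hc
    set B' := B + (-(c / (N A : ℂ))) • A with hB'
    have e2 : Q (α Z) A B = Q (α Z) A B' := by rw [hB', Q_add']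
    have hNC : (N A : ℂ) ≠ 0 := by exact_mod_cast hNa.ne'
    have e3 : N B' = N B - ‖c‖ ^ 2 / N A := by
      have h1 : (N B' : ℂ) = ((N B - ‖c‖ ^ 2 / N A : ℝ) : ℂ) := by
        have hBs : B' = B - (c / (N A : ℂ)) • A := by rw [hB', neg_smul, sub_eq_add_neg]
        rw [← herm_self', hBs, herm_sub_left, herm_sub_right, herm_sub_right, herm_smul_right,
          herm_smul_left, herm_smul_left, herm_smul_right, herm_self', herm_self', map_div₀,
          Complex.conj_ofReal, herm_conj A B, ← hc]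
        have h2 : (‖c‖ ^ 2 : ℂ) = conj c * c := (Complex.conj_mul' c).symm
        push_cast
        rw [h2]
        field_simp
        ring
      exact_mod_cast h1
    have hM : ∀ v : Fin 4 → V k, ‖α Z v‖ ≤ (C * ‖Z‖⁻¹ ^ 4) * ∏ i, ‖v i‖ := hC Z hZ
    have h3 := norm_Q_le (α Z) hM A B'
    have hZn : 0 < ‖Z‖ := norm_pos_iff.2 hZ
    have h4 : ‖A‖ ^ 2 * ‖B'‖ ^ 2 ≤ N A * N B' :=
      mul_le_mul (norm_sq_le_N A) (norm_sq_le_N B') (by positivity) hNa.le
    have h5 : N A * N B' = gram Z a b := by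
      rw [e3, gram, ← hA, ← hB, ← hc]
      field_simp
    have h6 : ‖Z‖⁻¹ ^ 4 ≤ (k + 1) ^ 2 * (N Z)⁻¹ ^ 2 := by
      have h7 := N_le_norm_sq Z
      have h8 : ‖Z‖⁻¹ ^ 2 ≤ (k + 1) * (N Z)⁻¹ := by
        rw [inv_pow, ← div_eq_mul_inv, le_div_iff₀ hNZ, inv_mul_le_iff₀ (by positivity)]
        linarith
      calc ‖Z‖⁻¹ ^ 4 = (‖Z‖⁻¹ ^ 2) ^ 2 := by ring
        _ ≤ ((k + 1) * (N Z)⁻¹) ^ 2 := by gcongr
        _ = _ := by ring
    rw [e2]
    have hg : 0 ≤ gram Z a b := by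
      rw [← h5]
      have : 0 ≤ N B' := Finset.sum_nonneg fun _ _ => by positivity
      positivity
    calc ‖Q (α Z) A B'‖ ≤ (C * ‖Z‖⁻¹ ^ 4) * (‖A‖ ^ 2 * ‖B'‖ ^ 2) := h3
      _ ≤ (C * ((k + 1) ^ 2 * (N Z)⁻¹ ^ 2)) * gram Z a b := by
        rw [← h5]
        gcongr
      _ = _ := by ring

end

end Pool.Agent.Helper33.Henon
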