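import Pool.Agent.Helper33.Henon.Vanish

set_option autoImplicit false

open scoped ContDiff LinearAlgebra.Projectivization ComplexConjugate Topology
open Set Filter

namespace Pool.Agent.Helper33.Henon

/-- The coordinates `Z_0, Z_1`. -/
def J01 : Finset (Fin (4 + 1)) := {0, 1}

lemma HJ01 (u w : V 4) : HJ J01 u w = conj (u 0) * w 0 + conj (u 1) * w 1 := by
  rw [HJ_apply, J01, Finset.sum_pair (by decide)]

/-- `λ_z(u) = z_0 u_1 - z_1 u_0`. -/
noncomputable def lam (z u : V 4) : ℂ := z 0 * u 1 - z 1 * u 0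

lemma omJ01 (z u w : V 4) : omJ J01 z u w =
    ((lam z u).re * (lam z w).im - (lam z u).im * (lam z w).re) * (Real.pi * NJ J01 z ^ 2)⁻¹ := by
  have e : HJ J01 u w * HJ J01 z z - HJ J01 u z * HJ J01 z w = conj (lam z u) * lam z w := by
    simp only [HJ01, lam, map_sub, map_mul]
    ring
  have e2 : (conj (lam z u) * lam z w) / (HJ J01 z z) ^ 2 =
      (((NJ J01 z ^ 2)⁻¹ : ℝ) : ℂ) * (conj (lam z u) * lam z w) := by
    rw [HJ_self]
    push_cast
    rw [div_eq_mul_inv, mul_comm]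
  rw [omJ, e, e2, Complex.im_ofReal_mul]
  simp only [Complex.mul_im, Complex.conj_re, Complex.conj_im]
  rw [mul_inv, div_eq_mul_inv]
  ring

lemma extDeriv_gam0 {z : V 4} (hz : NJ J01 z ≠ 0) (v : Fin 4 → V 4) :
    extDeriv (gam0 J01) z v =
      2 * (((fs z (v 0) (v 1) : ℂ) * fs z (v 2) (v 3)) - (fs z (v 0) (v 2) : ℂ) * fs z (v 1) (v 3)
        + (fs z (v 0) (v 3) : ℂ) * fs z (v 1) (v 2)) := by
  have h1 := (hasFDerivAt_thJ _ (NJ_univ_ne hz)).sub (hasFDerivAt_thJ _ hz)
  have h2 : HasFDerivAt (thD J01) (thJ' Finset.univ z - thJ' J01 z) z := h1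
  have h3 : HasFDerivAt (et J01) (fderiv ℝ (et J01) z) z :=
    ((contDiffAt_et hz).differentiableAt (by simp)).hasFDerivAt
  have h4 := extDeriv_wedge h2 h3 (extDeriv_et hz) v
  have h5 : ∀ a b : V 4, (thJ' Finset.univ z - thJ' J01 z) a b -
      (thJ' Finset.univ z - thJ' J01 z) b a = fs z a b - omJ J01 z a b := by
    intro a b
    have e1 := thJ'_sub Finset.univ (NJ_univ_ne hz) a b
    have e2 := thJ'_sub J01 hz a b
    rw [omJ_univ] at e1
    simp only [_root_.sub_apply]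
    linarith
  have h6 : extDeriv (gam0 J01) z v = _ := h4
  rw [h6]
  simp only [h5]
  rw [et_apply hz, et_apply hz, et_apply hz, et_apply hz, et_apply hz, et_apply hz]
  simp only [omJ_univ]
  have hpl : omJ J01 z (v 0) (v 1) * omJ J01 z (v 2) (v 3) -
      omJ J01 z (v 0) (v 2) * omJ J01 z (v 1) (v 3) +
      omJ J01 z (v 0) (v 3) * omJ J01 z (v 1) (v 2) = 0 := by
    simp only [omJ01]
    ring
  have hpl' : (omJ J01 z (v 0) (v 1) : ℂ) * omJ J01 z (v 2) (v 3) -
      (omJ J01 z (v 0) (v 2) : ℂ) * omJ J01 z (v 1) (v 3) +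
      (omJ J01 z (v 0) (v 3) : ℂ) * omJ J01 z (v 1) (v 2) = 0 := by
    exact_mod_cast hpl
  simp
  linear_combination (-2 : ℂ) * hpl'

lemma fs_anti (z u w : V 4) : fs z w u = - fs z u w := by
  have h : herm w u = conj (herm u w) := by
    rw [← HJ_univ, ← HJ_univ, HJ_conj]
  have h1 : herm w z = conj (herm z w) := by
    rw [← HJ_univ, ← HJ_univ, HJ_conj]
  have h2 : herm u z = conj (herm z u) := by
    rw [← HJ_univ, ← HJ_univ, HJ_conj]
  have h3 : conj (herm z z) = herm z z := by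
    rw [herm_self']; simp
  have e : (herm w u * herm z z - herm w z * herm z u) / (herm z z) ^ 2 =
      conj ((herm u w * herm z z - herm u z * herm z w) / (herm z z) ^ 2) := by
    rw [map_div₀, map_sub, map_mul, map_mul, map_pow, h3, h, h1, h2]
    simp
    ring
  rw [fs, fs, e, Complex.conj_im]
  ring

lemma fsPower_value {α : Form 4 (2 * (4 - 2))} (hα : IsFSPower (m := 4 - 2) α) {z : V 4}
    (hz : z ≠ 0) (v : Fin 4 → V 4) : α z v =
      2 * (((fs z (v 0) (v 1) : ℂ) * fs z (v 2) (v 3)) - (fs z (v 0) (v 2) : ℂ) * fs z (v 1) (v 3)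
        + (fs z (v 0) (v 3) : ℂ) * fs z (v 1) (v 2)) := by
  have h1 := hα z hz v
  rw [h1]
  have h2 : (∑ σ : Equiv.Perm (Fin (2 * (4 - 2))), ((Equiv.Perm.sign σ : ℤ) : ℂ) *
      ∏ i : Fin (4 - 2), (fs z (v (σ ⟨2 * (i : ℕ), by omega⟩))
        (v (σ ⟨2 * (i : ℕ) + 1, by omega⟩)) : ℂ)) =
      ∑ σ : Equiv.Perm (Fin 4), ((Equiv.Perm.sign σ : ℤ) : ℂ) *
      (fun a b c d : Fin 4 => (fs z (v a) (v b) : ℂ) * (fs z (v c) (v d) : ℂ))
        (σ 0) (σ 1) (σ 2) (σ 3) := by
    refine Finset.sum_congr rfl fun σ _ => ?_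
    congr 1
    exact Fin.prod_univ_two _
  have h3 := h2.trans (perm4 (fun a b c d : Fin 4 => (fs z (v a) (v b) : ℂ) *
    (fs z (v c) (v d) : ℂ)))
  rw [h3]
  have a10 := fs_anti z (v 0) (v 1)
  have a20 := fs_anti z (v 0) (v 2)
  have a30 := fs_anti z (v 0) (v 3)
  have a21 := fs_anti z (v 1) (v 2)
  have a31 := fs_anti z (v 1) (v 3)
  have a32 := fs_anti z (v 2) (v 3)
  simp only [a10, a20, a30, a21, a31, a32]
  push_cast
  ring

/-- A positive closed current with support in `{P / N > δ}` has mass `0`. -/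
theorem mass_zero (T : Cur 4 (2 * (4 - 2))) (hT : IsPosClosed T) {δ : ℝ}
    (hδ : 0 < δ) (hs : ∀ q ∈ curSupport T, δ < tP J01 q.rep)
    (α : SForm 4 (2 * (4 - 2))) (hα : IsFSPower (m := 4 - 2) α.form) :
    T.ev α = 0 := by
  let γ : smoothForms 4 3 := ⟨gam J01 δ, gam_mem J01 hδ⟩
  let α' : smoothForms 4 (2 * (4 - 2)) := ⟨α.form, α.smooth⟩
  let β : smoothForms 4 (2 * (4 - 2)) := dForm γ
  have hβ : T.toLin β = 0 := by
    refine hT.closed 3 rfl ⟨gam J01 δ, gam_mem J01 hδ⟩ ⟨β, β.2⟩ fun z hz v => ?_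
    change dF (gam J01 δ) z v = extDeriv (gam J01 δ) z v
    rw [dF_apply hz]
  have hd : T.toLin (α' - β) = 0 := by
    apply eq_zero_of_disjoint_support
    rw [Set.disjoint_left, curSupportL_toLin]
    intro q hq hqT
    have hcl : IsClosed {q : PS 4 | tP J01 q.rep ≤ δ} :=
      isClosed_le (continuous_tP J01) continuous_const
    have hsub : formSupport ((α' - β : smoothForms 4 (2 * (4 - 2))) : Form 4 (2 * (4 - 2))) ⊆
        {q : PS 4 | tP J01 q.rep ≤ δ} := by
      apply closure_minimal _ hcl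
      intro p hp
      by_contra hlt
      have hlt' : δ < tP J01 p.rep := not_le.1 hlt
      apply hp
      have hp0 := p.rep_nonzero
      have hne : NJ J01 p.rep ≠ 0 := NJ_ne_of_tP hδ hlt'.le
      have hev : gam J01 δ =ᶠ[𝓝 p.rep] gam0 J01 := by
        have hc : ContinuousAt (tP J01) p.rep :=
          ((tP_contDiffOn J01).continuousOn).continuousAt (isOpen_compl_zero.mem_nhds hp0)
        filter_upwards [hc.eventually (lt_mem_nhds hlt')] with w hw
        ext v
        simp [gam, cut_eq_one hδ hw.le]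
      ext v
      change α.form p.rep v - dF (gam J01 δ) p.rep v = 0
      rw [dF_apply hp0, hev.extDeriv_eq, fsPower_value hα hp0, extDeriv_gam0 hne, sub_self]
    have h1 : tP J01 q.rep ≤ δ := hsub hq
    have h2 := hs q hqT
    linarith
  have h3 : T.toLin (α' - β) = T.toLin α' - T.toLin β := map_sub T.toLin α' β
  rw [hd, hβ, sub_zero] at h3
  exact h3.symm

end Pool.Agent.Helper33.Henon
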